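import Pool.Agent.H54.SZ.E2
/-! MP_0e09bd_lc (PI helper54): all infinite irreducible elements.
Proof: `n m = f(w)`, `f` nonconstant (else `|m| ≤ |c|` and `m` is standard, `std_of_bdd`). `Q f` has an irreducible factor; clearing denominators there are `h, v` integer
polynomials, `k ≠ 0` with `C k * f = h * v`, `Q h` irreducible. Case 1 of `hR`: for `N = (k n).natAbs` a prime `p > N` divides `h(w)`, so `p ∣ k n m` in the ultrapower;
`p` does not divide `k n`, so (write `1 = x p + y (k n)`) `p ∣ m`: `m = p c`, `c ∈ R w` (`mem_of_mul`). `m` irreducible in `R w`: `p` is not a unit of `R w` (`|p u| ≥ p > 1`... a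
unit of the ultrapower is 1 or -1: `p u = 1` gives by `cast_dvd` `p ∣ 1`), `c` is a unit: then `c` is 1 or -1 (`|c| ≤ 1`) and `m` standard, contradiction. Case 2:
`Ys s` is associated to `h` over the rationals, so `C k' * f = Ys s * v'` with `k' ≠ 0`, integer polynomials. `y = Ys s (w)`, `k' n m = y v'(w)`, `c = k' n`. No prime divides `y`, so
`y` is a unit modulo the integer `c`: there is an integer `x` with `c ∣ x y - 1` in the ultrapower (the residue of `y` modulo `|c|` is a standard integer coprime to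
`c`). Then `c ∣ y v'(w)` gives `c ∣ v'(w)`: `v'(w) = c v2`, `v2 ∈ R w`, `m = y v2` (cancel `c`). `m` irreducible, `y` not a unit (`ev_large`), so `v2` is a unit, i.e. 1 or -1. -/
set_option autoImplicit false
namespace Pool.Agent.H54.SZ
open Polynomial Filter

theorem E6_one_le_abs (a : K) (h : a ≠ 0) : 1 ≤ |a| := by
  by_contra hc
  push Not at hc
  obtain ⟨k, hk⟩ := std_of_bdd a 1 (by rw [Int.cast_one]; exact hc.le)
  have hk0 : k ≠ 0 := by
    rintro rfl
    exact h (by rw [hk, Int.cast_zero])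
  have h1 : (1 : ℤ) ≤ |k| := Int.one_le_abs hk0
  have h2 : (1 : K) ≤ |a| := by
    rw [hk, ← Int.cast_abs]
    exact_mod_cast h1
  exact absurd h2 (not_le.mpr hc)

theorem E6_unit_std (a b : K) (h : a * b = 1) : ∃ k : ℤ, a = (k : K) ∧ (k = 1 ∨ k = -1) := by
  have hb : b ≠ 0 := by
    rintro rfl
    rw [mul_zero] at h
    exact zero_ne_one h
  have h1 := E6_one_le_abs b hb
  have h2 : |a| * |b| = 1 := by rw [← abs_mul, h, abs_one]
  have h3 : |a| ≤ ((1 : ℤ) : K) := by
    rw [Int.cast_one]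
    have h4 : |a| * 1 ≤ |a| * |b| := mul_le_mul_of_nonneg_left h1 (abs_nonneg _)
    rwa [h2, mul_one] at h4
  obtain ⟨k, hk⟩ := std_of_bdd a 1 h3
  refine ⟨k, hk, ?_⟩
  have h5 : (k : K) ∣ ((1 : ℤ) : K) := ⟨b, by rw [← hk, h, Int.cast_one]⟩
  rw [cast_dvd] at h5
  exact Int.isUnit_iff.mp (isUnit_of_dvd_one h5)

theorem E6_std_of_mul (a : K) (n c : ℤ) (hn : n ≠ 0) (h : (n : K) * a = (c : K)) :
    ∃ k : ℤ, a = (k : K) := by
  refine std_of_bdd a |c| ?_
  have h1 : |(n : K)| * |a| = |(c : K)| := by rw [← abs_mul, h]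
  have h2 : (1 : K) ≤ |(n : K)| := by
    have : (1 : ℤ) ≤ |n| := Int.one_le_abs hn
    have h3 : ((1 : ℤ) : K) ≤ ((|n| : ℤ) : K) := by exact_mod_cast this
    rw [Int.cast_abs, Int.cast_one] at h3
    exact h3
  rw [Int.cast_abs, ← h1]
  exact le_mul_of_one_le_left (abs_nonneg a) h2

/-- an element without standard prime divisor is invertible modulo every standard integer -/
theorem E6_inv_mod (y : K) (hy : ∀ p : ℕ, p.Prime → ¬ (p : K) ∣ y) (c : ℤ) (hc : c ≠ 0) :
    ∃ x : ℤ, (c : K) ∣ (x : K) * y - 1 := by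
  have hc' : (0 : K) < ((|c| : ℤ) : K) := by
    have : 0 < |c| := abs_pos.mpr hc
    exact_mod_cast this
  obtain ⟨q, r, h1, h2, h3⟩ := K_div y _ hc'
  obtain ⟨r0, hr0⟩ := std_of_bdd r |c| (by rw [abs_of_nonneg h2]; exact h3.le)
  have hcop : IsCoprime r0 c := by
    rw [Int.isCoprime_iff_gcd_eq_one]
    by_contra hg
    obtain ⟨p, hp, hpg⟩ := Nat.exists_prime_and_dvd hg
    have h4 : (p : ℤ) ∣ r0 := dvd_trans (by exact_mod_cast hpg) (Int.gcd_dvd_left r0 c)
    have h5 : (p : ℤ) ∣ c := dvd_trans (by exact_mod_cast hpg) (Int.gcd_dvd_right r0 c)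
    refine hy p hp ?_
    rw [h1, hr0]
    have h6 : ((p : ℤ) : K) ∣ (r0 : K) := (cast_dvd _ _).mpr h4
    have h7 : ((p : ℤ) : K) ∣ ((|c| : ℤ) : K) := (cast_dvd _ _).mpr ((dvd_abs _ _).mpr h5)
    have h8 : ((p : ℤ) : K) = (p : K) := by simp
    rw [h8] at h6 h7
    exact dvd_add (Dvd.dvd.mul_right h7 _) h6
  obtain ⟨x, z, hxz⟩ := hcop
  refine ⟨x, ?_⟩
  have h9 : (c : K) ∣ ((|c| : ℤ) : K) := (cast_dvd _ _).mpr ((dvd_abs _ _).mpr dvd_rfl)
  have h10 : (x : K) * (r0 : K) + (z : K) * (c : K) = 1 := by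
    have := congrArg (fun t : ℤ => (t : K)) hxz
    push_cast at this
    exact this
  have h11 : (x : K) * y - 1 = ((|c| : ℤ) : K) * ((x : K) * q) - (c : K) * (z : K) := by
    rw [h1, hr0]
    linear_combination h10
  rw [h11]
  exact dvd_sub (Dvd.dvd.mul_right h9 _) (Dvd.intro _ rfl)

/-- all infinite irreducible elements -/
theorem R_class {ι : Type} (w : K) (hw : ∀ n : ℤ, (n : K) < w) (Ys : ι → ℤ[X])
    (hY : ∀ s, Irreducible (Q (Ys s))) (hY2 : ∀ s (p : ℕ), p.Prime → ¬ (p : K) ∣ aeval w (Ys s))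
    (hR : ∀ h : ℤ[X], Irreducible (Q h) → (∃ s, Associated (Q (Ys s)) (Q h)) ∨
      ∀ N : ℕ, ∃ p : ℕ, p.Prime ∧ N < p ∧ (p : K) ∣ aeval w h)
    (m : R w) (hm : Irreducible m) (hinf : ∀ k : ℤ, (m : K) ≠ (k : K)) :
    ∃ s, (m : K) = aeval w (Ys s) ∨ (m : K) = - aeval w (Ys s) := by
  obtain ⟨n, f, hn, hf⟩ := (mem_R w _).1 m.2
  have hnd : ∀ p : ℤ[X], (Q p).natDegree = p.natDegree := fun p =>
    Polynomial.natDegree_map_eq_of_injective (RingHom.injective_int _) p
  have hfdeg : 0 < (Q f).natDegree := by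
    rw [hnd]
    by_contra hc
    obtain ⟨c, hc'⟩ := Polynomial.natDegree_eq_zero.1 (Nat.eq_zero_of_not_pos hc)
    obtain ⟨k, hk⟩ := E6_std_of_mul (m : K) n c hn (by rw [hf, ← hc']; simp)
    exact hinf k hk
  obtain ⟨g, hg, v0, hv0⟩ := Polynomial.exists_irreducible_of_natDegree_pos hfdeg
  obtain ⟨D1, h, hD1, hh⟩ := clear g
  obtain ⟨D2, v, hD2, hv⟩ := clear v0
  have hD1u : IsUnit (C (D1 : ℚ) : ℚ[X]) := by
    rw [Polynomial.isUnit_C, isUnit_iff_ne_zero]
    exact_mod_cast hD1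
  have hhirr : Irreducible (Q h) := by
    rw [hh]
    exact (irreducible_isUnit_mul hD1u).2 hg
  have hkf : C ((D1 * D2 : ℤ) : ℚ) * Q f = Q h * Q v := by
    rw [hh, hv, hv0]
    push_cast
    rw [C_mul]
    ring
  rcases hR h hhirr with ⟨s, u, hu⟩ | hcase
  · -- case 2
    obtain ⟨D3, v', hD3, hv'⟩ := clear ((u : ℚ[X]) * Q v)
    have hk' : C (D1 * D2 * D3) * f = Ys s * v' := by
      apply Polynomial.map_injective (Int.castRingHom ℚ) (RingHom.injective_int _)
      have e1 : v'.map (Int.castRingHom ℚ) = C (D3 : ℚ) * ((u : ℚ[X]) * Q v) := hv'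
      simp only [Polynomial.map_mul, Polynomial.map_C]
      rw [e1]
      simp only [eq_intCast]
      have e2 : C (((D1 * D2 * D3 : ℤ)) : ℚ) = C ((D1 * D2 : ℤ) : ℚ) * C (D3 : ℚ) := by
        rw [← C_mul]; push_cast; rfl
      change C (((D1 * D2 * D3 : ℤ)) : ℚ) * Q f = Q (Ys s) * (C (D3 : ℚ) * ((u : ℚ[X]) * Q v))
      rw [e2]
      calc C ((D1 * D2 : ℤ) : ℚ) * C (D3 : ℚ) * Q f = C (D3 : ℚ) * (C ((D1 * D2 : ℤ) : ℚ) * Q f) := by ring
        _ = C (D3 : ℚ) * (Q h * Q v) := by rw [hkf]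
        _ = C (D3 : ℚ) * (Q (Ys s) * u * Q v) := by rw [hu]
        _ = Q (Ys s) * (C (D3 : ℚ) * ((u : ℚ[X]) * Q v)) := by ring
    set y := aeval w (Ys s) with hy
    set c : ℤ := D1 * D2 * D3 * n with hc
    have hc0 : c ≠ 0 := mul_ne_zero (mul_ne_zero (mul_ne_zero hD1 hD2) hD3) hn
    have hcK : (c : K) ≠ 0 := by exact_mod_cast hc0
    have h1 : (c : K) * (m : K) = y * aeval w v' := by
      have h2 := congrArg (aeval w) hk'
      rw [map_mul (aeval w), map_mul (aeval w), ← hf] at h2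
      rw [← h2, hc]
      simp only [eq_intCast, map_intCast]
      push_cast
      ring
    obtain ⟨x, hx⟩ := E6_inv_mod y (hY2 s) c hc0
    have h3 : (c : K) ∣ aeval w v' := by
      have h4 : aeval w v' = (x : K) * ((c : K) * (m : K)) - ((x : K) * y - 1) * aeval w v' := by
        rw [h1]; ring
      rw [h4]
      exact dvd_sub ⟨(x : K) * (m : K), by ring⟩ (Dvd.dvd.mul_right hx _)
    obtain ⟨v2, hv2⟩ := h3
    have hv2R : v2 ∈ R w := by
      refine mem_of_mul w v2 c hc0 ?_
      rw [← hv2]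
      exact aeval_mem w v'
    have h5 : (m : K) = y * v2 := by
      apply mul_left_cancel₀ hcK
      rw [h1, hv2]; ring
    have h6 : m = (⟨y, aeval_mem w (Ys s)⟩ : R w) * ⟨v2, hv2R⟩ := Subtype.ext h5
    have hydeg : 0 < (Ys s).natDegree := by
      rw [← hnd]
      exact (hY s).natDegree_pos
    rcases hm.isUnit_or_isUnit h6 with h7 | h7
    · exfalso
      obtain ⟨z, hz⟩ := h7.exists_right_inv
      have h8 : y * (z : K) = 1 := by
        have := congrArg (fun t : R w => (t : K)) hz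
        exact this
      obtain ⟨k, hk, -⟩ := E6_unit_std _ _ h8
      have h9 := ev_large w hw (Ys s) hydeg |k|
      rw [← hy, hk, Int.cast_abs] at h9
      exact lt_irrefl _ h9
    · obtain ⟨z, hz⟩ := h7.exists_right_inv
      have h8 : v2 * (z : K) = 1 := by
        have := congrArg (fun t : R w => (t : K)) hz
        exact this
      obtain ⟨k, hk, hk1⟩ := E6_unit_std _ _ h8
      refine ⟨s, ?_⟩
      rw [h5, hk]
      rcases hk1 with rfl | rfl
      · left; push_cast; ring
      · right; push_cast; ring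
  · -- case 1
    exfalso
    set k : ℤ := D1 * D2 with hk
    have hkn : k * n ≠ 0 := mul_ne_zero (mul_ne_zero hD1 hD2) hn
    obtain ⟨p, hp, hpN, hpd⟩ := hcase (k * n).natAbs
    have hkf' : C k * f = h * v := by
      apply Polynomial.map_injective (Int.castRingHom ℚ) (RingHom.injective_int _)
      simp only [Polynomial.map_mul, Polynomial.map_C]
      exact hkf
    have h1 : ((k * n : ℤ) : K) * (m : K) = aeval w h * aeval w v := by
      have h2 := congrArg (aeval w) hkf'
      rw [map_mul (aeval w), map_mul (aeval w), ← hf] at h2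
      rw [← h2]
      simp only [eq_intCast, map_intCast]
      push_cast
      ring
    have h2 : (p : K) ∣ ((k * n : ℤ) : K) * (m : K) := by
      rw [h1]
      exact Dvd.dvd.mul_right hpd _
    have hcop : IsCoprime (p : ℤ) (k * n) := by
      rw [(Nat.prime_iff_prime_int.1 hp).coprime_iff_not_dvd]
      intro hd
      have h3 : p ∣ (k * n).natAbs := Int.natCast_dvd.1 hd
      have h4 := Nat.le_of_dvd (Int.natAbs_pos.2 hkn) h3
      omega
    obtain ⟨x, z, hxz⟩ := hcop
    have h3 : (x : K) * (p : K) + (z : K) * ((k * n : ℤ) : K) = 1 := by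
      have := congrArg (fun t : ℤ => (t : K)) hxz
      push_cast at this
      push_cast
      exact this
    have h4 : (p : K) ∣ (m : K) := by
      have h5 : (m : K) = (p : K) * ((x : K) * (m : K)) + (z : K) * (((k * n : ℤ) : K) * (m : K)) := by
        linear_combination (-(m : K)) * h3
      rw [h5]
      exact dvd_add (Dvd.intro _ rfl) (Dvd.dvd.mul_left h2 _)
    obtain ⟨c, hc⟩ := h4
    have hp0 : (p : ℤ) ≠ 0 := by exact_mod_cast hp.ne_zero
    have hcR : c ∈ R w := by
      refine mem_of_mul w c p hp0 ?_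
      have : (((p : ℤ)) : K) * c = m := by rw [hc]; simp
      rw [this]
      exact m.2
    have h6 : m = ((p : ℕ) : R w) * ⟨c, hcR⟩ := Subtype.ext (by rw [hc]; rfl)
    rcases hm.isUnit_or_isUnit h6 with h7 | h7
    · obtain ⟨t, ht⟩ := h7.exists_right_inv
      have h8 : (p : K) * (t : K) = 1 := by
        have := congrArg (fun t : R w => (t : K)) ht
        exact this
      have h9 : (((p : ℤ)) : K) ∣ ((1 : ℤ) : K) := ⟨t, by rw [Int.cast_one, ← h8]; simp⟩
      rw [cast_dvd] at h9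
      exact hp.one_lt.ne' (by exact_mod_cast Int.eq_one_of_dvd_one (by positivity) h9)
    · obtain ⟨t, ht⟩ := h7.exists_right_inv
      have h8 : c * (t : K) = 1 := by
        have := congrArg (fun t : R w => (t : K)) ht
        exact this
      obtain ⟨k0, hk0, -⟩ := E6_unit_std _ _ h8
      refine hinf (p * k0) ?_
      rw [hc, hk0]
      push_cast
      rfl

end Pool.Agent.H54.SZ
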