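import Pool.Agent.H54.SZ.D0
/-! MP_0e09bd_lc (PI helper54): an infinite element of the ultrapower with prescribed residues modulo all standard primes.
Proof: for every `j` the Chinese remainder theorem (`Nat.chineseRemainderOfFinset` for the primes `≤ j`, residues
`(r p % p).toNat`) gives an integer `x j ≥ j` with `p ∣ x j - r p` for all primes `p ≤ j` (add a multiple of the product). `w` = the germ
of `x`. `(n : K) < w` since `n < j ≤ x j` for large `j`; for a prime `p`: `x j - r p = p * y j` for `j ≥ p`, `y` = `(x - r p) / p`. Sets of large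
`j` are in the hyperfilter: `Filter.Germ` coe lemmas, `Nat.hyperfilter_le_atTop`. -/
set_option autoImplicit false
namespace Pool.Agent.H54.SZ
open Polynomial Filter

private theorem crt (r : ℕ → ℤ) (j : ℕ) : ∃ x : ℤ, (j : ℤ) ≤ x ∧
    ∀ p : ℕ, p.Prime → p ≤ j → (p : ℤ) ∣ x - r p := by
  obtain ⟨t, ht⟩ : ∃ t : Finset ℕ, t = (Finset.range (j + 1)).filter Nat.Prime := ⟨_, rfl⟩
  have hmem : ∀ p : ℕ, p ∈ t ↔ p ≤ j ∧ p.Prime := by
    intro p
    rw [ht, Finset.mem_filter, Finset.mem_range, Nat.lt_succ_iff]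
  obtain ⟨k, hk⟩ := Nat.chineseRemainderOfFinset (fun p => (r p % p).toNat) (fun p => p) t
    (fun i hi => ((hmem i).1 hi).2.ne_zero)
    (fun p hp q hq hpq => (Nat.coprime_primes ((hmem p).1 hp).2 ((hmem q).1 hq).2).2 hpq)
  have hpos : 0 < ∏ p ∈ t, p := Finset.prod_pos fun i hi => ((hmem i).1 hi).2.pos
  refine ⟨((k + j * ∏ p ∈ t, p : ℕ) : ℤ), ?_, ?_⟩
  · have h1 : j ≤ k + j * ∏ p ∈ t, p := by
      have := Nat.le_mul_of_pos_right j hpos
      omega
    exact_mod_cast h1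
  · intro p hp hpj
    have hpt : p ∈ t := (hmem p).2 ⟨hpj, hp⟩
    have h1 : (p : ℤ) ∣ ((k : ℤ) - (((r p % p).toNat : ℕ) : ℤ)) := by
      have h2 := (Nat.modEq_iff_dvd.1 (hk p hpt).symm)
      exact h2
    have h3 : (((r p % p).toNat : ℕ) : ℤ) = r p % p :=
      Int.toNat_of_nonneg (Int.emod_nonneg _ (by exact_mod_cast hp.ne_zero))
    rw [h3] at h1
    have h4 : (p : ℤ) ∣ r p - r p % p := Int.dvd_self_sub_emod
    have h5 : (p : ℤ) ∣ ((j * ∏ q ∈ t, q : ℕ) : ℤ) := by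
      exact_mod_cast Dvd.dvd.mul_left (Finset.dvd_prod_of_mem (fun q => q) hpt) j
    have h6 : (((k + j * ∏ p ∈ t, p : ℕ) : ℤ)) - r p =
        ((k : ℤ) - r p % p) - (r p - r p % p) + ((j * ∏ q ∈ t, q : ℕ) : ℤ) := by
      push_cast
      ring
    rw [h6]
    exact dvd_add (dvd_sub h1 h4) h5

private theorem ev_ge (m : ℕ) : ∀ᶠ j in (hyperfilter ℕ : Filter ℕ), m ≤ j :=
  Nat.hyperfilter_le_atTop (eventually_ge_atTop m)

theorem exists_omega (r : ℕ → ℤ) : ∃ w : K,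
    (∀ n : ℤ, (n : K) < w) ∧ (∀ p : ℕ, p.Prime → (p : K) ∣ w - (r p : K)) := by
  choose x hx1 hx2 using crt r
  refine ⟨((x : ℕ → ℤ) : K), ?_, ?_⟩
  · intro n
    have h1 : ((n : ℤ) : K) = ((fun _ => n : ℕ → ℤ) : K) := rfl
    rw [h1, Germ.coe_lt]
    filter_upwards [ev_ge (n.toNat + 1)] with j hj
    have h2 := hx1 j
    have h3 := Int.self_le_toNat n
    have h4 : ((n.toNat + 1 : ℕ) : ℤ) ≤ (j : ℤ) := by exact_mod_cast hj
    push_cast at h4
    omega
  · intro p hp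
    refine ⟨((fun j => (x j - r p) / p : ℕ → ℤ) : K), ?_⟩
    have h1 : ((r p : ℤ) : K) = ((fun _ => r p : ℕ → ℤ) : K) := rfl
    have h2 : ((p : ℕ) : K) = ((fun _ => (p : ℤ) : ℕ → ℤ) : K) := rfl
    rw [h1, h2, ← Germ.coe_sub, ← Germ.coe_mul, Germ.coe_eq]
    filter_upwards [ev_ge p] with j hj
    have h3 := hx2 j p hp hj
    show x j - r p = (p : ℤ) * ((x j - r p) / p)
    rw [Int.mul_ediv_cancel' h3]

end Pool.Agent.H54.SZ
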