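import Pool.Agent.H54.SZ.D0
/-! MP_0e09bd_lc (PI helper54): elementary facts on the ultrapower, each by representing germs by sequences (`Germ.inductionOn`).
`std_of_bdd`: the sequence takes values in the finite set `[-n, n]` on a set of the ultrafilter; an ultrafilter contains one of
finitely many pieces (`Ultrafilter.finite_biUnion_mem_iff` or `Ultrafilter.eventually_or`). `K_div`: `Int.ediv`, `Int.emod` of the sequences.
`cast_dvd`: constants; from `(k : K) = p * c` at one index of the ultrafilter set. -/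
set_option autoImplicit false
namespace Pool.Agent.H54.SZ
open Polynomial Filter

lemma D2_intCast (n : ℤ) : ((n : ℤ) : K) = ((fun _ => n : ℕ → ℤ) : K) := by
  rfl

/-- bounded elements are standard -/
theorem std_of_bdd (g : K) (n : ℤ) (h1 : |g| ≤ (n : K)) : ∃ k : ℤ, g = (k : K) := by
  induction g using Germ.inductionOn with
  | _ f =>
    have h2 : ∀ᶠ x in (hyperfilter ℕ : Filter ℕ), f x ∈ Set.Icc (-n) n := by
      have h3 : (f : K) ≤ (n : K) := (le_abs_self _).trans h1
      have h4 : -(n : K) ≤ (f : K) := (neg_le_neg h1).trans (neg_abs_le _)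
      have h5 : ((-n : ℤ) : K) ≤ (f : K) := by
        rw [Int.cast_neg]; exact h4
      rw [D2_intCast] at h3 h5
      rw [Germ.coe_le] at h3 h5
      filter_upwards [h3, h5] with x hx1 hx2
      exact ⟨hx2, hx1⟩
    have h6 : ∃ k ∈ Set.Icc (-n) n, {x | f x = k} ∈ hyperfilter ℕ := by
      rw [← Ultrafilter.finite_biUnion_mem_iff (Set.finite_Icc _ _)]
      filter_upwards [h2] with x hx
      simp only [Set.mem_iUnion]
      exact ⟨f x, hx, rfl⟩
    obtain ⟨k, _, hk⟩ := h6
    refine ⟨k, ?_⟩
    rw [D2_intCast, Germ.coe_eq]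
    exact hk

/-- division with remainder in the ultrapower -/
theorem K_div (a b : K) (hb : 0 < b) : ∃ q r : K, a = b * q + r ∧ 0 ≤ r ∧ r < b := by
  induction a using Germ.inductionOn with
  | _ f =>
    induction b using Germ.inductionOn with
    | _ g =>
      have hg : ∀ᶠ x in (hyperfilter ℕ : Filter ℕ), 0 < g x := by
        rwa [Germ.coe_pos] at hb
      refine ⟨((fun x => f x / g x : ℕ → ℤ) : K), ((fun x => f x % g x : ℕ → ℤ) : K), ?_, ?_, ?_⟩
      · rw [← Germ.coe_mul, ← Germ.coe_add, Germ.coe_eq]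
        filter_upwards with x
        simp only [Pi.add_apply, Pi.mul_apply]
        exact (Int.mul_ediv_add_emod (f x) (g x)).symm
      · have h0 : (0 : K) = ((fun _ => 0 : ℕ → ℤ) : K) := rfl
        rw [h0, Germ.coe_le]
        filter_upwards [hg] with x hx
        exact Int.emod_nonneg _ hx.ne'
      · rw [Germ.coe_lt]
        filter_upwards [hg] with x hx
        exact Int.emod_lt_of_pos _ hx

theorem cast_dvd (p k : ℤ) : ((p : K) ∣ (k : K)) ↔ p ∣ k := by
  constructor
  · rintro ⟨c, hc⟩
    induction c using Germ.inductionOn with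
    | _ f =>
      rw [D2_intCast, D2_intCast, ← Germ.coe_mul, Germ.coe_eq] at hc
      obtain ⟨x, hx⟩ := hc.exists
      exact ⟨f x, hx⟩
  · rintro ⟨c, hc⟩
    exact ⟨(c : K), by rw [hc, Int.cast_mul]⟩

end Pool.Agent.H54.SZ
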