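import Mathlib
/-! MP_0e09bd_lc: prime divisors of polynomial values (Schur) and coprime polynomials. -/
set_option autoImplicit false
namespace Pool.Agent.H54.SZ
open Polynomial

/-- the polynomial over the rationals -/
noncomputable abbrev Q (h : ℤ[X]) : ℚ[X] := h.map (Int.castRingHom ℚ)

theorem schur (h : ℤ[X]) (hd : 0 < h.natDegree) (N : ℕ) :
    ∃ p : ℕ, p.Prime ∧ N < p ∧ ∃ t : ℤ, (p : ℤ) ∣ h.eval t := by
  set c := h.coeff 0 with hc
  by_cases h0 : c = 0
  · obtain ⟨p, hp, hpp⟩ := Nat.exists_infinite_primes (N + 1)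
    refine ⟨p, hpp, by omega, 0, ?_⟩
    rw [← Polynomial.coeff_zero_eq_eval_zero, ← hc, h0]
    exact dvd_zero _
  · have hQ : (h - C c) * (h + C c) ≠ 0 := by
      apply mul_ne_zero
      · intro hh
        have : h = C c := by linear_combination hh
        rw [this] at hd
        simp at hd
      · intro hh
        have : h = C (-c) := by rw [map_neg]; linear_combination hh
        rw [this] at hd
        simp at hd
    have hM : ((N.factorial : ℤ)) ≠ 0 := by exact_mod_cast Nat.factorial_ne_zero N
    have : ∃ k : ℤ, (((h - C c) * (h + C c))).eval (c * N.factorial * k) ≠ 0 := by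
      by_contra hcon
      push Not at hcon
      have hinf : Set.Infinite {t : ℤ | ((h - C c) * (h + C c)).IsRoot t} := by
        apply Set.infinite_of_injective_forall_mem (f := fun k : ℤ => c * N.factorial * k)
        · intro x y hxy
          exact mul_left_cancel₀ (mul_ne_zero h0 hM) hxy
        · intro k
          exact hcon k
      exact hQ (Polynomial.eq_zero_of_infinite_isRoot _ hinf)
    obtain ⟨k, hk⟩ := this
    set t := c * N.factorial * k with ht
    have hev : h.eval t = c * (1 + N.factorial * k * h.divX.eval t) := by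
      conv_lhs => rw [← Polynomial.divX_mul_X_add h]
      simp only [eval_add, eval_mul, eval_X, eval_C]
      rw [← hc, ht]; ring
    set v := 1 + N.factorial * k * h.divX.eval t with hv
    have hv1 : v.natAbs ≠ 1 := by
      intro hh
      rw [Int.natAbs_eq_iff] at hh
      apply hk
      rw [eval_mul, eval_sub, eval_add, eval_C, hev]
      rcases hh with hh | hh
      · rw [hh]; push_cast; ring
      · rw [hh]; push_cast; ring
    obtain ⟨p, hp, hpv⟩ := Nat.exists_prime_and_dvd hv1
    refine ⟨p, hp, ?_, t, ?_⟩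
    · by_contra hle
      push Not at hle
      have h1 : p ∣ N.factorial := (Nat.Prime.dvd_factorial hp).2 hle
      have h2 : (p : ℤ) ∣ v := Int.natCast_dvd.2 hpv
      have h3 : (p : ℤ) ∣ N.factorial * k * h.divX.eval t :=
        Dvd.dvd.mul_right (Dvd.dvd.mul_right (by exact_mod_cast h1) _) _
      have h4 : (p : ℤ) ∣ 1 := by
        have := dvd_sub h2 h3
        rw [hv] at this
        simpa using this
      exact hp.one_lt.ne' (by exact_mod_cast Int.eq_one_of_dvd_one (by positivity) h4)
    · rw [hev]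
      exact Dvd.dvd.mul_left (Int.natCast_dvd.2 hpv) _

theorem clear (f : ℚ[X]) : ∃ (D : ℤ) (g : ℤ[X]), D ≠ 0 ∧ Q g = C (D : ℚ) * f := by
  obtain ⟨b, hb⟩ := IsLocalization.integerNormalization_map_to_map (nonZeroDivisors ℤ) (S := ℚ) f
  refine ⟨b, IsLocalization.integerNormalization (nonZeroDivisors ℤ) f,
    nonZeroDivisors.ne_zero b.2, ?_⟩
  have : (Int.castRingHom ℚ) = algebraMap ℤ ℚ := rfl
  rw [Q, this, hb, zsmul_eq_mul]
  simp

theorem cop (h y : ℤ[X]) (hh : Irreducible (Q h)) (hy : Irreducible (Q y))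
    (hn : ¬ Associated (Q y) (Q h)) :
    ∃ D : ℤ, D ≠ 0 ∧ ∀ z t : ℤ, z ∣ h.eval t → z ∣ y.eval t → z ∣ D := by
  have hc : IsCoprime (Q h) (Q y) := by
    rw [hh.coprime_iff_not_dvd]
    intro h1
    exact hn (hh.associated_of_dvd hy h1).symm
  obtain ⟨u, v, huv⟩ := hc
  obtain ⟨D1, u', hD1, hu'⟩ := clear u
  obtain ⟨D2, v', hD2, hv'⟩ := clear v
  refine ⟨D1 * D2, mul_ne_zero hD1 hD2, ?_⟩
  have key : C D2 * u' * h + C D1 * v' * y = C (D1 * D2) := by
    apply Polynomial.map_injective (Int.castRingHom ℚ) (RingHom.injective_int _)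
    simp only [Polynomial.map_add, Polynomial.map_mul, Polynomial.map_C]
    have e1 : u'.map (Int.castRingHom ℚ) = C (D1 : ℚ) * u := hu'
    have e2 : v'.map (Int.castRingHom ℚ) = C (D2 : ℚ) * v := hv'
    rw [e1, e2]
    simp only [eq_intCast, Int.cast_mul, map_mul]
    have : (C (D1:ℚ)) * C (D2:ℚ) * (u * Q h + v * Q y) = C (D1:ℚ) * C (D2:ℚ) := by rw [huv, mul_one]
    linear_combination this
  intro z t h1 h2
  have e := congrArg (Polynomial.eval t) key
  simp only [eval_add, eval_mul, eval_C] at e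
  rw [← e]
  exact dvd_add (Dvd.dvd.mul_left h1 _) (Dvd.dvd.mul_left h2 _)

end Pool.Agent.H54.SZ
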