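import Pool.Agent.H54.SZ.A
/-! MP_0e09bd_lc (PI helper54): the polynomials `A x^d + q` and one stage of the construction.
Proof of `Yp_irr`: over the rationals; `Yp A q d = C A * X^d + C q`, Eisenstein at `q` for integer polynomials
(`Polynomial.irreducible_of_eisenstein_criterion` needs primitive: first divide by the content, or apply Eisenstein to
the primitive part; content divides `gcd(A, q) = 1` as `q` does not divide `A`, so `Yp` is primitive), then
`Polynomial.IsPrimitive.Int.irreducible_iff_irreducible_map_cast`.
Proof of `step`: `q` by Dirichlet (Mathlib `Nat.forall_exists_prime_gt_and_eq_mod` or `Nat.setOf_prime_and_eq_mod_infinite`,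
modulus `a.natAbs`, residue `b`, a unit because coprime), `q > max N a.natAbs`; `d` prime `> D`. Put
`y0 = Yp (a * (q-1)!) q d`; it is irreducible by `Yp_irr` (`q` does not divide `a` as `0 < a.natAbs < q`, nor `(q-1)!`),
`y0.eval 0 = q ≠ 0`. If `h` is associated to an element of `y0 :: ys`: take `t = 0` and a prime `p` larger than `q`, `M` and
all `(y.eval 0).natAbs` (`y ∈ y0 :: ys`, nonzero). Otherwise `cop h y` gives for every `y` in the list a `D_y ≠ 0`;
`schur h _ N'` with `N'` larger than `q`, `M` and all `D_y.natAbs` gives `p` and `t` with `p ∣ h.eval t`; if `p ∣ y.eval t` then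
`p ∣ D_y`, impossible. (`0 < h.natDegree` because `Q h` is irreducible over a field: not a constant.) Bounds over a list:
induction on the list or `List.foldr max`, or use `Finset.sup` of `toFinset`. -/
set_option autoImplicit false
namespace Pool.Agent.H54.SZ
open Polynomial

/-- the polynomial `A x^d + q` -/
noncomputable def Yp (A q : ℤ) (d : ℕ) : ℤ[X] := C A * X ^ d + C q

theorem Yp_eval (A q : ℤ) (d : ℕ) (t : ℤ) : (Yp A q d).eval t = A * t ^ d + q := by
  simp [Yp]

/-- Eisenstein -/
theorem Yp_irr (A : ℤ) (q d : ℕ) (hq : q.Prime) (hd : 0 < d) (hA : ¬ (q : ℤ) ∣ A) :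
    Irreducible (Q (Yp A q d)) := by
  have hA0 : A ≠ 0 := by
    rintro rfl
    exact hA (dvd_zero _)
  have hqp : Prime (q : ℤ) := Nat.prime_iff_prime_int.1 hq
  have hc : ∀ n, (Yp A q d).coeff n = (if n = d then A else 0) + (if n = 0 then (q : ℤ) else 0) := by
    intro n
    rw [Yp, coeff_add, coeff_C_mul, coeff_X_pow, coeff_C]
    split_ifs <;> simp
  have hdeg : (Yp A q d).natDegree = d := by
    apply le_antisymm
    · rw [natDegree_le_iff_coeff_eq_zero]
      intro n hn
      rw [hc, if_neg (by omega), if_neg (by omega), add_zero]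
    · apply le_natDegree_of_ne_zero
      rw [hc, if_pos rfl, if_neg (by omega), add_zero]
      exact hA0
  have hlc : (Yp A q d).leadingCoeff = A := by
    rw [leadingCoeff, hdeg, hc, if_pos rfl, if_neg (by omega), add_zero]
  have hprim : (Yp A q d).IsPrimitive := by
    intro r hr
    rw [C_dvd_iff_dvd_coeff] at hr
    have h0 := hr 0
    have hdd := hr d
    rw [hc, if_neg (by omega), if_pos rfl, zero_add] at h0
    rw [hc, if_pos rfl, if_neg (by omega), add_zero] at hdd
    have hcop : IsCoprime (q : ℤ) A := (Prime.coprime_iff_not_dvd hqp).2 hA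
    exact hcop.isUnit_of_dvd' h0 hdd
  have hirr : Irreducible (Yp A q d) := by
    have hP : (Ideal.span {(q : ℤ)}).IsPrime :=
      (Ideal.span_singleton_prime hqp.ne_zero).2 hqp
    apply irreducible_of_eisenstein_criterion hP
    · rw [hlc, Ideal.mem_span_singleton]
      exact hA
    · intro n hn
      have hn' : n < d := by
        rw [← hdeg]
        have h3 := degree_le_natDegree (p := Yp A q d)
        exact_mod_cast lt_of_lt_of_le hn h3
      rw [hc, if_neg (by omega), zero_add, Ideal.mem_span_singleton]
      split_ifs
      · exact dvd_rfl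
      · exact dvd_zero _
    · rw [← natDegree_pos_iff_degree_pos, hdeg]
      exact hd
    · rw [hc, if_neg (by omega), if_pos rfl, zero_add, Ideal.span_singleton_pow,
        Ideal.mem_span_singleton]
      intro h
      have h1 : (q : ℤ) ^ 2 ∣ (q : ℤ) ^ 1 := by rwa [pow_one]
      have h2 := (pow_dvd_pow_iff hqp.ne_zero hqp.not_unit).1 h1
      omega
    · exact hprim
  exact (IsPrimitive.Int.irreducible_iff_irreducible_map_cast hprim).1 hirr

end Pool.Agent.H54.SZ
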