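import Pool.Agent.H54.SZ.B1
/-! MP_0e09bd_lc (PI helper54): one stage of the construction. Proof: see the header of `B1.lean` (`step`). -/
set_option autoImplicit false
namespace Pool.Agent.H54.SZ
open Polynomial

theorem list_bd_B2 {α : Type*} (L : List α) (f : α → ℕ) : ∃ B : ℕ, ∀ y ∈ L, f y ≤ B := by
  induction L with
  | nil => exact ⟨0, by simp⟩
  | cons x L ih =>
    obtain ⟨B, hB⟩ := ih
    refine ⟨max (f x) B, ?_⟩
    intro y hy
    rcases List.mem_cons.1 hy with rfl | hy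
    · exact le_max_left _ _
    · exact le_trans (hB y hy) (le_max_right _ _)

theorem not_dvd_B2 (p B : ℕ) (z : ℤ) (hz : z ≠ 0) (h1 : z.natAbs ≤ B) (h2 : B < p) : ¬ (p : ℤ) ∣ z := by
  intro h
  have h3 : p ∣ z.natAbs := Int.natCast_dvd.1 h
  have h4 := Nat.le_of_dvd (Int.natAbs_pos.2 hz) h3
  omega

/-- one stage -/
theorem step (ys : List ℤ[X]) (hys : ∀ y ∈ ys, Irreducible (Q y) ∧ y.eval 0 ≠ 0) (N D M : ℕ)
    (a b : ℤ) (ha : a ≠ 0) (hab : IsCoprime a b) (h : ℤ[X]) (hh : Irreducible (Q h)) :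
    ∃ (q d p : ℕ) (t : ℤ), q.Prime ∧ N < q ∧ a.natAbs < q ∧ (q : ℤ) ≡ b [ZMOD a] ∧ d.Prime ∧ D < d ∧
      p.Prime ∧ q < p ∧ M < p ∧
      (∀ y ∈ Yp (a * (q - 1).factorial) q d :: ys, ¬ (p : ℤ) ∣ y.eval t) ∧
      ((∃ y ∈ Yp (a * (q - 1).factorial) q d :: ys, Associated (Q y) (Q h)) ∨
        (p : ℤ) ∣ h.eval t) := by
  classical
  have hna : a.natAbs ≠ 0 := Int.natAbs_ne_zero.2 ha
  have hcop : IsCoprime b (a.natAbs : ℤ) := by
    apply Int.isCoprime_iff_gcd_eq_one.2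
    have h1 := Int.isCoprime_iff_gcd_eq_one.1 hab.symm
    unfold Int.gcd at h1 ⊢
    rw [Int.natAbs_natCast]
    exact h1
  obtain ⟨q, hqgt, hqp, hqb⟩ := Nat.forall_exists_prime_gt_and_zmodEq (max N a.natAbs) hna hcop
  obtain ⟨d, hdge, hdp⟩ := Nat.exists_infinite_primes (D + 1)
  have hNq : N < q := lt_of_le_of_lt (le_max_left _ _) hqgt
  have haq : a.natAbs < q := lt_of_le_of_lt (le_max_right _ _) hqgt
  have hqb' : (q : ℤ) ≡ b [ZMOD a] :=
    Int.modEq_iff_dvd.2 (Int.natAbs_dvd.1 (Int.modEq_iff_dvd.1 hqb))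
  have hqA : ¬ (q : ℤ) ∣ a * ((q - 1).factorial : ℤ) := by
    intro hdiv
    rcases (Nat.prime_iff_prime_int.1 hqp).dvd_or_dvd hdiv with h1 | h1
    · have h2 : q ∣ a.natAbs := Int.natCast_dvd.1 h1
      have h3 := Nat.le_of_dvd (Nat.pos_of_ne_zero hna) h2
      omega
    · have h2 : q ∣ (q - 1).factorial := by exact_mod_cast h1
      have h3 := (Nat.Prime.dvd_factorial hqp).1 h2
      have h4 := hqp.pos
      omega
  obtain ⟨y0, hy0⟩ : ∃ y0, y0 = Yp (a * ((q - 1).factorial : ℤ)) q d := ⟨_, rfl⟩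
  have hy0irr : Irreducible (Q y0) := by
    rw [hy0]
    exact Yp_irr _ q d hqp hdp.pos hqA
  have hy00 : y0.eval 0 ≠ 0 := by
    rw [hy0, Yp_eval, zero_pow hdp.ne_zero, mul_zero, zero_add]
    exact_mod_cast hqp.ne_zero
  have hall : ∀ y ∈ y0 :: ys, Irreducible (Q y) ∧ y.eval 0 ≠ 0 := by
    intro y hy
    rcases List.mem_cons.1 hy with hy1 | hy1
    · rw [hy1]
      exact ⟨hy0irr, hy00⟩
    · exact hys y hy1
  by_cases hcase : ∃ y ∈ y0 :: ys, Associated (Q y) (Q h)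
  · obtain ⟨B, hB⟩ := list_bd_B2 (y0 :: ys) (fun y => (y.eval 0).natAbs)
    obtain ⟨p, hpge, hpp⟩ := Nat.exists_infinite_primes (B + q + M + 1)
    refine ⟨q, d, p, 0, hqp, hNq, haq, hqb', hdp, by omega, hpp, by omega, by omega, ?_, ?_⟩
    · rw [← hy0]
      intro y hy
      exact not_dvd_B2 p B _ (hall y hy).2 (hB y hy) (by omega)
    · rw [← hy0]
      exact Or.inl hcase
  · have hex : ∀ y ∈ y0 :: ys, ∃ Dy : ℤ, Dy ≠ 0 ∧ ∀ z t : ℤ, z ∣ h.eval t → z ∣ y.eval t → z ∣ Dy := by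
      intro y hy
      exact cop h y hh (hall y hy).1 (fun hA => hcase ⟨y, hy, hA⟩)
    choose! Dy hDy using hex
    obtain ⟨B, hB⟩ := list_bd_B2 (y0 :: ys) (fun y => (Dy y).natAbs)
    have hdeg : 0 < h.natDegree := by
      have h1 : 0 < (Q h).natDegree := Polynomial.natDegree_pos_iff_degree_pos.2 (Polynomial.degree_pos_of_irreducible hh)
      have h2 : (Q h).natDegree = h.natDegree :=
        Polynomial.natDegree_map_eq_of_injective (RingHom.injective_int _) h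
      rw [h2] at h1
      exact h1
    obtain ⟨p, hpp, hpgt, t, hpt⟩ := schur h hdeg (B + q + M)
    refine ⟨q, d, p, t, hqp, hNq, haq, hqb', hdp, by omega, hpp, by omega, by omega, ?_, Or.inr hpt⟩
    rw [← hy0]
    intro y hy hdiv
    exact not_dvd_B2 p B _ (hDy y hy).1 (hB y hy) (by omega) ((hDy y hy).2 _ _ hpt hdiv)

end Pool.Agent.H54.SZ
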