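import Pool.Agent.H54.SZ.B2
/-! MP_0e09bd_lc (PI helper54): the sequences. Proof: recursion over states `(ys, N, D)` with `ys` the list of all
`Y l` so far (each with `Irreducible (Q y) ∧ y.eval 0 ≠ 0`; by `Yp_irr`, and `y.eval 0 = q`), next state by `step` with
`N` = a bound larger than all previous `p l`, `((Y l).eval 1).natAbs`, `D` = the last `d`. (Define the state
type as a subtype, the next state by `Classical.choose` of `step`, iterate with `Nat.rec`, and read off `q, d, p, t`; show by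
induction that `Y l` is in the list of the state `s` for `l < s`.) -/
set_option autoImplicit false
namespace Pool.Agent.H54.SZ
open Polynomial

/-- the states of the recursion -/
structure B3St where
  /-- the polynomials so far -/
  ys : List ℤ[X]
  /-- the bound so far -/
  N : ℕ
  /-- the last exponent -/
  D : ℕ
  hys : ∀ y ∈ ys, Irreducible (Q y) ∧ y.eval 0 ≠ 0

/-- the new polynomial is a legal element of the list -/
theorem B3_legal (a : ℤ) (q d : ℕ) (ha : a ≠ 0) (hq : q.Prime) (hd : d.Prime) (haq : a.natAbs < q) :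
    Irreducible (Q (Yp (a * (q - 1).factorial) q d)) ∧
      (Yp (a * (q - 1).factorial) q d).eval 0 ≠ 0 := by
  refine ⟨Yp_irr _ q d hq hd.pos ?_, ?_⟩
  · intro hdvd
    have hqp : Prime (q : ℤ) := Nat.prime_iff_prime_int.1 hq
    rcases hqp.dvd_or_dvd hdvd with h1 | h1
    · have h2 : q ∣ a.natAbs := Int.natCast_dvd.1 h1
      exact absurd (Nat.le_of_dvd (Int.natAbs_pos.2 ha) h2) (by omega)
    · have h2 : q ∣ (q - 1).factorial := by exact_mod_cast h1
      have h3 := (Nat.Prime.dvd_factorial hq).1 h2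
      have := hq.pos
      omega
  · rw [Yp_eval, zero_pow hd.pos.ne', mul_zero, zero_add]
    exact_mod_cast hq.pos.ne'

theorem seqs (ea eb : ℕ → ℤ) (h1 : ∀ s, ea s ≠ 0 ∧ IsCoprime (ea s) (eb s)) (H : ℕ → ℤ[X])
    (hH : ∀ s, Irreducible (Q (H s))) (M : ℕ → ℕ) :
    ∃ (q d p : ℕ → ℕ) (t : ℕ → ℤ) (A : ℕ → ℤ),
      (∀ s, A s = ea s * (q s - 1).factorial) ∧
      (∀ s, (q s).Prime) ∧ (∀ s, (q s : ℤ) ≡ eb s [ZMOD ea s]) ∧ (∀ s, (ea s).natAbs < q s) ∧
      (∀ s, (d s).Prime) ∧ StrictMono d ∧ (∀ s, (p s).Prime) ∧ (∀ s, q s < p s) ∧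
      (∀ s, p s < q (s + 1)) ∧ (∀ s, M s < p s) ∧
      (∀ l s, l < s → ((Yp (A l) (q l) (d l)).eval 1).natAbs < q s) ∧
      (∀ l s, l ≤ s → ¬ (p s : ℤ) ∣ (Yp (A l) (q l) (d l)).eval (t s)) ∧
      (∀ s, (∃ l, Associated (Q (Yp (A l) (q l) (d l))) (Q (H s))) ∨
        (p s : ℤ) ∣ (H s).eval (t s)) := by
  have hstep := fun (s : ℕ) (st : B3St) =>
    step st.ys st.hys st.N st.D (M s) (ea s) (eb s) (h1 s).1 (h1 s).2 (H s) (hH s)
  choose fq fd fp ft hf using hstep
  -- the new polynomial, the next state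
  let Y : ℕ → B3St → ℤ[X] := fun s st =>
    Yp (ea s * (fq s st - 1).factorial) (fq s st) (fd s st)
  let nx : ℕ → B3St → B3St := fun s st =>
    ⟨Y s st :: st.ys, max (max st.N (fp s st)) ((Y s st).eval 1).natAbs, fd s st, by
      intro y hy
      rcases List.mem_cons.1 hy with h | h
      · rw [h]
        obtain ⟨g1, g2, g3, g4, g5, -⟩ := hf s st
        exact B3_legal (ea s) (fq s st) (fd s st) (h1 s).1 g1 g5 g3
      · exact st.hys y h⟩
  let S : ℕ → B3St := fun n => Nat.rec (motive := fun _ => B3St) ⟨[], 0, 0, by simp⟩ nx n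
  have hS : ∀ s, S (s + 1) = nx s (S s) := fun s => rfl
  have hmem : ∀ s y, y ∈ (S s).ys ↔ ∃ l, l < s ∧ y = Y l (S l) := by
    intro s
    induction s with
    | zero =>
      intro y
      constructor
      · intro h
        exact absurd h (by simp [S])
      · rintro ⟨l, hl, -⟩
        omega
    | succ s ih =>
      intro y
      rw [hS]
      change y ∈ Y s (S s) :: (S s).ys ↔ _
      rw [List.mem_cons, ih]
      constructor
      · rintro (h | ⟨l, hl, h⟩)
        · exact ⟨s, by omega, h⟩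
        · exact ⟨l, by omega, h⟩
      · rintro ⟨l, hl, h⟩
        rcases Nat.lt_succ_iff_lt_or_eq.1 hl with h2 | h2
        · exact Or.inr ⟨l, h2, h⟩
        · subst h2
          exact Or.inl h
  have hN : ∀ s, (S (s + 1)).N = max (max (S s).N (fp s (S s))) ((Y s (S s)).eval 1).natAbs :=
    fun s => rfl
  have hD : ∀ s, (S (s + 1)).D = fd s (S s) := fun s => rfl
  have hmono : Monotone (fun s => (S s).N) := by
    apply monotone_nat_of_le_succ
    intro s
    rw [hN]
    exact le_trans (le_max_left _ _) (le_max_left _ _)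
  have hmem' : ∀ l s, l ≤ s → Y l (S l) ∈ Y s (S s) :: (S s).ys := by
    intro l s hl
    rcases Nat.lt_or_eq_of_le hl with h | h
    · exact List.mem_cons_of_mem _ ((hmem s _).2 ⟨l, h, rfl⟩)
    · subst h
      exact List.mem_cons_self
  refine ⟨fun s => fq s (S s), fun s => fd s (S s), fun s => fp s (S s), fun s => ft s (S s),
    fun s => ea s * (fq s (S s) - 1).factorial, fun s => rfl, ?_, ?_, ?_, ?_, ?_, ?_, ?_, ?_, ?_,
    ?_, ?_, ?_⟩
  · intro s
    exact (hf s (S s)).1
  · intro s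
    exact (hf s (S s)).2.2.2.1
  · intro s
    exact (hf s (S s)).2.2.1
  · intro s
    exact (hf s (S s)).2.2.2.2.1
  · apply strictMono_nat_of_lt_succ
    intro s
    have := (hf (s + 1) (S (s + 1))).2.2.2.2.2.1
    rw [hD] at this
    exact this
  · intro s
    exact (hf s (S s)).2.2.2.2.2.2.1
  · intro s
    exact (hf s (S s)).2.2.2.2.2.2.2.1
  · intro s
    have h2 := (hf (s + 1) (S (s + 1))).2.1
    have h3 : fp s (S s) ≤ (S (s + 1)).N := by
      rw [hN]
      exact le_trans (le_max_right _ _) (le_max_left _ _)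
    exact lt_of_le_of_lt h3 h2
  · intro s
    exact (hf s (S s)).2.2.2.2.2.2.2.2.1
  · intro l s hls
    have h2 := (hf s (S s)).2.1
    have h3 : ((Y l (S l)).eval 1).natAbs ≤ (S (l + 1)).N := by
      rw [hN]
      exact le_max_right _ _
    exact lt_of_le_of_lt (le_trans h3 (hmono hls)) h2
  · intro l s hls
    exact (hf s (S s)).2.2.2.2.2.2.2.2.2.1 _ (hmem' l s hls)
  · intro s
    rcases (hf s (S s)).2.2.2.2.2.2.2.2.2.2 with ⟨y, hy, hass⟩ | h
    · left
      rcases List.mem_cons.1 hy with h | h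
      · exact ⟨s, by rw [h] at hass; exact hass⟩
      · obtain ⟨l, -, hl⟩ := (hmem s y).1 h
        exact ⟨l, by rw [hl] at hass; exact hass⟩
    · exact Or.inr h

end Pool.Agent.H54.SZ
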