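import Pool.Agent.H54.SZ.B3
/-! MP_0e09bd_lc (PI helper54): the number theoretic data. Proof: apply `seqs` with enumerations: `ea, eb` such that every pair
`(a, b)`, `a ≠ 0`, coprime, occurs at arbitrarily large `s` (surjection `e` from the naturals onto the countable type of pairs,
`s ↦ e s.unpair.1`; `Nat.right_le_pair`), `(H s, M s)` a surjection onto the pairs (h with `Irreducible (Q h)`, bound `N`) (countable:
`exists_surjective_nat`; `Polynomial ℤ` is countable). `q` is strictly increasing (`q s < p s < q (s+1)`).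
Residues: `r p = 1` if `p = q s` for some `s`; `r p = t s` if `p = p s` for some `s` (the `p s`, `q s` are pairwise different because
`q 0 < p 0 < q 1 < p 1 < ...`); `r p = 0` otherwise. Claim (no prime `p` divides `(Y s).eval (r p)`, `Y s = Yp (A s) (q s) (d s)`, value
`A s * (r p)^(d s) + q s`): if `p < q s`: `p ∣ (q s - 1)!`, so `p ∣ A s` and `p` does not divide `q s`. If `p = q s`: `r p = 1`, value `A s + q s`, and
`q s` does not divide `A s = ea s * (q s - 1)!`. If `p > q s` and `p = q l`: then `l > s`, `r p = 1`, the value has absolute value `< q l` and is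
nonzero (else `q s ∣ A s`). If `p > q s`, `p = p l`: then `s ≤ l` (else `p l < q (l+1) ≤ q s`), so by the property of `t l`. Otherwise
`r p = 0`, value `q s` (as `d s > 0`), and `p ≠ q s` prime. Last claim: given `h` and `N` there is `s` with `H s = h`, `M s = N`.
Third claim: `m1 = (q s - 1)!`, and `ea s ∣ q s - eb s`. -/
set_option autoImplicit false
namespace Pool.Agent.H54.SZ
open Polynomial

/-- the number theoretic data -/
theorem data : ∃ (A : ℕ → ℤ) (q d : ℕ → ℕ) (r : ℕ → ℤ),
    (∀ s, (q s).Prime) ∧ (∀ s, A s ≠ 0) ∧ (∀ s, (d s).Prime) ∧ StrictMono d ∧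
    (∀ s, Irreducible (Q (Yp (A s) (q s) (d s)))) ∧
    (∀ a b : ℤ, a ≠ 0 → IsCoprime a b → ∀ D : ℕ, ∃ s, D < d s ∧
      ∃ m1 m0 : ℤ, 0 < m1 ∧ A s = a * m1 ∧ (q s : ℤ) = a * m0 + b) ∧
    (∀ s (p : ℕ), p.Prime → ¬ (p : ℤ) ∣ (Yp (A s) (q s) (d s)).eval (r p)) ∧
    (∀ h : ℤ[X], Irreducible (Q h) → (∃ s, Associated (Q (Yp (A s) (q s) (d s))) (Q h)) ∨
      ∀ N : ℕ, ∃ p : ℕ, p.Prime ∧ N < p ∧ (p : ℤ) ∣ h.eval (r p)) := by
  classical
  have hne1 : Nonempty {ab : ℤ × ℤ // ab.1 ≠ 0 ∧ IsCoprime ab.1 ab.2} :=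
    ⟨⟨(1, 0), one_ne_zero, isCoprime_one_left⟩⟩
  obtain ⟨e1, he1⟩ := exists_surjective_nat {ab : ℤ × ℤ // ab.1 ≠ 0 ∧ IsCoprime ab.1 ab.2}
  have hne2 : Nonempty ({h : ℤ[X] // Irreducible (Q h)} × ℕ) := by
    refine ⟨⟨⟨X, ?_⟩, 0⟩⟩
    rw [Q, Polynomial.map_X]
    exact Polynomial.irreducible_X
  have hcP : Countable ℤ[X] := by
    rw [← Cardinal.mk_le_aleph0_iff]
    refine Polynomial.cardinalMk_le_max.trans ?_
    simp
  obtain ⟨e2, he2⟩ := exists_surjective_nat ({h : ℤ[X] // Irreducible (Q h)} × ℕ)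
  obtain ⟨q, d, P, t, A, hA, hq, hqm, hea, hd, hdm, hP, hqP, hPq, hM, hY1, hnd, hfin⟩ :=
    seqs (fun s => (e1 s.unpair.1).1.1) (fun s => (e1 s.unpair.1).1.2)
      (fun s => (e1 s.unpair.1).2) (fun s => (e2 s).1.1) (fun s => (e2 s).1.2) (fun s => (e2 s).2)
  have hqmono : StrictMono q := strictMono_nat_of_lt_succ (fun s => (hqP s).trans (hPq s))
  have hPmono : StrictMono P := strictMono_nat_of_lt_succ (fun s => (hPq s).trans (hqP (s + 1)))
  have hqA : ∀ s, ¬ (q s : ℤ) ∣ A s := by
    intro s hdiv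
    rw [hA s] at hdiv
    have hpr : Prime (q s : ℤ) := Nat.prime_iff_prime_int.mp (hq s)
    rcases hpr.dvd_or_dvd hdiv with h1 | h1
    · have h2 : q s ∣ ((e1 s.unpair.1).1.1).natAbs := Int.natCast_dvd.mp h1
      have h3 : 0 < ((e1 s.unpair.1).1.1).natAbs := Int.natAbs_pos.mpr (e1 s.unpair.1).2.1
      exact absurd (Nat.le_of_dvd h3 h2) (not_le.mpr (hea s))
    · have h2 : q s ∣ (q s - 1).factorial := by exact_mod_cast h1
      have h3 := (Nat.Prime.dvd_factorial (hq s)).mp h2
      have h4 := (hq s).pos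
      omega
  set r : ℕ → ℤ := fun p => if (∃ l, p = q l) then 1 else
    if h : (∃ l, p = P l) then t (Classical.choose h) else 0 with hr
  have hrq : ∀ l, r (q l) = 1 := by
    intro l
    simp only [hr]
    rw [if_pos ⟨l, rfl⟩]
  have hPnq : ∀ s, ¬ ∃ l, P s = q l := by
    rintro s ⟨l, hl⟩
    have h1 : q s < q l := hl ▸ hqP s
    have h2 : q l < q (s + 1) := hl ▸ hPq s
    have h3 := hqmono.lt_iff_lt.mp h1
    have h4 := hqmono.lt_iff_lt.mp h2
    omega
  have hrP : ∀ l, r (P l) = t l := by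
    intro l
    simp only [hr]
    rw [if_neg (hPnq l)]
    have hex : ∃ m, P l = P m := ⟨l, rfl⟩
    rw [dif_pos hex]
    have := Classical.choose_spec hex
    rw [← hPmono.injective this]
  refine ⟨A, q, d, r, hq, ?_, hd, hdm, ?_, ?_, ?_, ?_⟩
  · intro s h0
    exact hqA s (h0 ▸ dvd_zero _)
  · intro s
    exact Yp_irr (A s) (q s) (d s) (hq s) (hd s).pos (hqA s)
  · intro a b ha hab D
    obtain ⟨k, hk⟩ := he1 ⟨(a, b), ha, hab⟩
    have hs : e1 (Nat.pair k (D + 1)).unpair.1 = ⟨(a, b), ha, hab⟩ := by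
      rw [Nat.unpair_pair]
      exact hk
    refine ⟨Nat.pair k (D + 1), ?_, ((q (Nat.pair k (D + 1)) - 1).factorial : ℤ), ?_⟩
    · have h1 : D + 1 ≤ Nat.pair k (D + 1) := Nat.right_le_pair k (D + 1)
      have h2 : Nat.pair k (D + 1) ≤ d (Nat.pair k (D + 1)) := hdm.le_apply
      omega
    · have h3 := (hqm (Nat.pair k (D + 1))).symm.dvd
      simp only [hs] at h3
      obtain ⟨m0, hm0⟩ := h3
      refine ⟨m0, ?_, ?_, ?_⟩
      · exact_mod_cast Nat.factorial_pos _
      · rw [hA, hs]
      · linarith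
  · intro s p hp
    rw [Yp_eval]
    have hAp : (q s : ℤ) ≠ 0 := by exact_mod_cast (hq s).ne_zero
    rcases lt_trichotomy p (q s) with hlt | heq | hgt
    · intro hdiv
      have h1 : (p : ℤ) ∣ A s := by
        rw [hA s]
        apply Dvd.dvd.mul_left
        have : p ∣ (q s - 1).factorial := (Nat.Prime.dvd_factorial hp).mpr (by omega)
        exact_mod_cast this
      have h2 : (p : ℤ) ∣ (q s : ℤ) := by
        have h3 := dvd_sub hdiv (Dvd.dvd.mul_right h1 (r p ^ d s))
        simpa using h3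
      have h4 : p ∣ q s := by exact_mod_cast h2
      have h5 := (Nat.prime_dvd_prime_iff_eq hp (hq s)).mp h4
      omega
    · intro hdiv
      rw [heq, hrq] at hdiv
      apply hqA s
      have h3 := dvd_sub hdiv (dvd_refl (q s : ℤ))
      simpa using h3
    · by_cases h1 : ∃ l, p = q l
      · obtain ⟨l, rfl⟩ := h1
        have hsl : s < l := hqmono.lt_iff_lt.mp hgt
        rw [hrq]
        intro hdiv
        have hval := hY1 s l hsl
        rw [Yp_eval] at hval
        have hne : A s * 1 ^ d s + (q s : ℤ) ≠ 0 := by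
          intro h0
          apply hqA s
          have h2 : A s = -(q s : ℤ) := by
            rw [one_pow, mul_one] at h0
            linarith
          rw [h2]
          exact (dvd_neg).mpr (dvd_refl _)
        have h3 : q l ∣ (A s * 1 ^ d s + (q s : ℤ)).natAbs := Int.natCast_dvd.mp hdiv
        exact absurd (Nat.le_of_dvd (Int.natAbs_pos.mpr hne) h3) (not_le.mpr hval)
      · by_cases h2 : ∃ l, p = P l
        · obtain ⟨l, rfl⟩ := h2
          have hsl : s ≤ l := by
            by_contra hcon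
            push Not at hcon
            have h3 : q (l + 1) ≤ q s := hqmono.monotone hcon
            have h4 := hPq l
            omega
          rw [hrP]
          have h5 := hnd s l hsl
          rw [Yp_eval] at h5
          exact h5
        · have hr0 : r p = 0 := by
            simp only [hr]
            rw [if_neg h1, dif_neg h2]
          rw [hr0, zero_pow (hd s).ne_zero, mul_zero, zero_add]
          intro hdiv
          have h4 : p ∣ q s := by exact_mod_cast hdiv
          have h5 := (Nat.prime_dvd_prime_iff_eq hp (hq s)).mp h4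
          omega
  · intro h hh
    by_cases hass : ∃ s, Associated (Q (Yp (A s) (q s) (d s))) (Q h)
    · exact Or.inl hass
    · right
      intro N
      obtain ⟨s, hs⟩ := he2 (⟨h, hh⟩, N)
      refine ⟨P s, hP s, ?_, ?_⟩
      · have h1 := hM s
        simp only [hs] at h1
        exact h1
      · rw [hrP]
        have h2 := hfin s
        simp only [hs] at h2
        exact h2.resolve_left hass

end Pool.Agent.H54.SZ
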