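import Mathlib
/-! MP_0e09bd_lc (PI helper54): the ultrapower. -/
set_option autoImplicit false
namespace Pool.Agent.H54.SZ
open Polynomial Filter

/-- the ultrapower of the integers -/
abbrev K : Type := (hyperfilter ℕ : Filter ℕ).Germ ℤ

end Pool.Agent.H54.SZ
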