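import Pool.Agent.H54.SZ.D0
/-! MP_0e09bd_lc (PI helper54): size of polynomials at an infinite element `w` (ordered ring arguments, or by growth of the sequences).
`ev_lt`: `g` has leading coefficient of absolute value at least 1 and degree `e + 1` say, all the rest of `g`, and `n f`, are at most
`C * w^e` for a standard integer `C` (`w ≥ 1`), and `2 C w^e < w^(e+1)`. Suggestion: first show `|aeval w f| ≤ c * w ^ k` for some integer `c`
whenever `f.natDegree ≤ k` (sum over the coefficients), then `g = C lc * X^(deg g) + g.eraseLead`. -/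
set_option autoImplicit false
namespace Pool.Agent.H54.SZ
open Polynomial Filter

theorem ev_bound (w : K) (hw : ∀ n : ℤ, (n : K) < w) (f : ℤ[X]) (k : ℕ) (h : f.natDegree ≤ k) :
    ∃ c : ℤ, 0 ≤ c ∧ |aeval w f| ≤ (c : K) * w ^ k := by
  have hw1 : (1 : K) ≤ w := by
    have := hw 1
    rw [Int.cast_one] at this
    exact this.le
  have hw0 : (0 : K) ≤ w := zero_le_one.trans hw1
  refine ⟨∑ i ∈ Finset.range (k + 1), |f.coeff i|, Finset.sum_nonneg (fun _ _ => abs_nonneg _), ?_⟩
  rw [Polynomial.aeval_eq_sum_range' (lt_of_le_of_lt h (Nat.lt_succ_self k))]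
  refine (Finset.abs_sum_le_sum_abs _ _).trans ?_
  rw [Int.cast_sum, Finset.sum_mul]
  apply Finset.sum_le_sum
  intro i hi
  rw [zsmul_eq_mul, abs_mul, abs_of_nonneg (pow_nonneg hw0 i), Int.cast_abs]
  apply mul_le_mul_of_nonneg_left _ (abs_nonneg _)
  exact pow_le_pow_right₀ hw1 (by rw [Finset.mem_range] at hi; omega)

/-- a polynomial of lower degree has smaller absolute value, even multiplied by a standard integer -/
theorem ev_lt (w : K) (hw : ∀ n : ℤ, (n : K) < w) (f g : ℤ[X]) (h : f.natDegree < g.natDegree)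
    (n : ℤ) : (n : K) * |aeval w f| < |aeval w g| := by
  have hw1 : (1 : K) ≤ w := by
    have := hw 1
    rw [Int.cast_one] at this
    exact this.le
  have hw0 : (0 : K) < w := lt_of_lt_of_le zero_lt_one hw1
  obtain ⟨e, he⟩ : ∃ e, g.natDegree = e + 1 := ⟨g.natDegree - 1, by omega⟩
  obtain ⟨c, hc, hcf⟩ := ev_bound w hw f e (by omega)
  obtain ⟨c', hc', hcg⟩ := ev_bound w hw g.eraseLead e
    (by have := Polynomial.eraseLead_natDegree_le g; omega)
  have hlc : g.leadingCoeff ≠ 0 := by
    intro h0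
    rw [Polynomial.leadingCoeff_eq_zero] at h0
    rw [h0] at he; simp at he
  have hlc1 : (1 : K) ≤ |(g.leadingCoeff : K)| := by
    rw [← Int.cast_abs]
    exact_mod_cast Int.one_le_abs hlc
  have hpe : (0 : K) < w ^ e := pow_pos hw0 e
  have hg : aeval w g = aeval w g.eraseLead + (g.leadingCoeff : K) * w ^ (e + 1) := by
    conv_lhs => rw [← Polynomial.eraseLead_add_C_mul_X_pow g]
    rw [map_add, map_mul, map_pow, aeval_X, aeval_C, he]
    simp
  have h1 : w ^ (e + 1) ≤ |(g.leadingCoeff : K) * w ^ (e + 1)| := by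
    rw [abs_mul, abs_of_pos (pow_pos hw0 (e + 1))]
    have := mul_le_mul_of_nonneg_right hlc1 (pow_pos hw0 (e + 1)).le
    simpa using this
  have h2 : |(g.leadingCoeff : K) * w ^ (e + 1)| ≤ |aeval w g| + |aeval w g.eraseLead| := by
    have : (g.leadingCoeff : K) * w ^ (e + 1) = aeval w g - aeval w g.eraseLead := by rw [hg]; ring
    rw [this]
    exact abs_sub _ _
  have h3 : (n : K) * |aeval w f| ≤ ((|n| * c : ℤ) : K) * w ^ e := by
    have h4 : (n : K) ≤ ((|n| : ℤ) : K) := Int.cast_le.2 (le_abs_self n)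
    have h5 : (0 : K) ≤ ((|n| : ℤ) : K) := by exact_mod_cast abs_nonneg n
    calc (n : K) * |aeval w f| ≤ ((|n| : ℤ) : K) * |aeval w f| :=
          mul_le_mul_of_nonneg_right h4 (abs_nonneg _)
      _ ≤ ((|n| : ℤ) : K) * ((c : K) * w ^ e) := mul_le_mul_of_nonneg_left hcf h5
      _ = _ := by rw [Int.cast_mul, mul_assoc]
  have h6 := hw (|n| * c + c')
  have h7 : ((|n| * c + c' : ℤ) : K) * w ^ e < w * w ^ e := mul_lt_mul_of_pos_right h6 hpe
  have h8 : w * w ^ e = w ^ (e + 1) := by rw [pow_succ]; ring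
  rw [h8, Int.cast_add, add_mul] at h7
  linarith

/-- nonconstant polynomials are infinite at `w` -/
theorem ev_large (w : K) (hw : ∀ n : ℤ, (n : K) < w) (f : ℤ[X]) (h : 0 < f.natDegree) (n : ℤ) :
    (n : K) < |aeval w f| := by
  have h1 := ev_lt w hw (1 : ℤ[X]) f (by simpa using h) n
  simpa using h1

theorem ev_inj (w : K) (hw : ∀ n : ℤ, (n : K) < w) (f g : ℤ[X]) (h : aeval w f = aeval w g) :
    f = g := by
  by_contra hne
  have h0 : f - g ≠ 0 := sub_ne_zero.2 hne
  have h1 : aeval w (f - g) = 0 := by rw [map_sub, h, sub_self]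
  by_cases hd : 0 < (f - g).natDegree
  · have := ev_large w hw (f - g) hd 0
    rw [h1] at this
    simp at this
  · have h2 : (f - g).natDegree = 0 := by omega
    rw [Polynomial.natDegree_eq_zero] at h2
    obtain ⟨c, hc⟩ := h2
    rw [← hc] at h1 h0
    have h3 : ((c : ℤ) : K) = 0 := by simpa using h1
    have h4 : c = 0 := by exact_mod_cast h3
    apply h0
    rw [h4]; simp

end Pool.Agent.H54.SZ
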