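import Pool.Agent.H54.SZ.A
import Pool.Agent.H54.SZ.D2
import Pool.Agent.H54.SZ.E1
/-! MP_0e09bd_lc (PI helper54): the ring. -/
set_option autoImplicit false
namespace Pool.Agent.H54.SZ
open Polynomial Filter

theorem dvd_iff (w : K) (p : ℕ) (r : ℤ) (hp : (p : K) ∣ w - (r : K)) (f : ℤ[X]) :
    ((p : K) ∣ aeval w f) ↔ (p : ℤ) ∣ f.eval r := by
  have h1 : (w - (r : K)) ∣ aeval w f - aeval (r : K) f := by
    simpa [Polynomial.aeval_def, Polynomial.eval₂_eq_eval_map] using
      Polynomial.sub_dvd_eval_sub w (r : K) (f.map (algebraMap ℤ K))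
  have h2 : aeval (r : K) f = ((f.eval r : ℤ) : K) := by
    simpa using (Polynomial.aeval_algebraMap_apply K r f)
  have h3 : (p : K) ∣ aeval w f - ((f.eval r : ℤ) : K) := by
    rw [← h2]; exact dvd_trans hp h1
  rw [← cast_dvd]
  have h4 : (((p : ℤ)) : K) = (p : K) := by simp
  rw [h4]
  constructor
  · intro h; have := dvd_sub h h3; simpa using this
  · intro h; have := dvd_add h3 h; simpa using this

/-- the ring: all elements of the ultrapower a nonzero integer multiple of which is a polynomial in `w` -/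
def R (w : K) : Subring K where
  carrier := {g | ∃ (n : ℤ) (f : ℤ[X]), n ≠ 0 ∧ (n : K) * g = aeval w f}
  mul_mem' := by
    rintro a b ⟨n, f, hn, hf⟩ ⟨m, g, hm, hg⟩
    refine ⟨n * m, f * g, mul_ne_zero hn hm, ?_⟩
    rw [map_mul, ← hf, ← hg]; push_cast; ring
  one_mem' := ⟨1, 1, one_ne_zero, by simp⟩
  add_mem' := by
    rintro a b ⟨n, f, hn, hf⟩ ⟨m, g, hm, hg⟩
    refine ⟨n * m, C m * f + C n * g, mul_ne_zero hn hm, ?_⟩
    rw [map_add, map_mul, map_mul, ← hf, ← hg]
    simp only [eq_intCast, map_intCast]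
    push_cast; ring
  zero_mem' := ⟨1, 0, one_ne_zero, by simp⟩
  neg_mem' := by
    rintro a ⟨n, f, hn, hf⟩
    refine ⟨n, -f, hn, ?_⟩
    rw [map_neg, ← hf]; ring

theorem mem_R (w g : K) : g ∈ R w ↔ ∃ (n : ℤ) (f : ℤ[X]), n ≠ 0 ∧ (n : K) * g = aeval w f := Iff.rfl

/-- polynomials are in the ring -/
theorem aeval_mem (w : K) (f : ℤ[X]) : aeval w f ∈ R w := ⟨1, f, one_ne_zero, by simp⟩

/-- the ring is closed under division by nonzero integers -/
theorem mem_of_mul (w g : K) (n : ℤ) (hn : n ≠ 0) (h : (n : K) * g ∈ R w) : g ∈ R w := by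
  obtain ⟨m, f, hm, hf⟩ := h
  exact ⟨m * n, f, mul_ne_zero hm hn, by rw [← hf]; push_cast; ring⟩

/-- an element with an integer multiple at bounded distance from a polynomial is in the ring -/
theorem mem_of_near (w g : K) (n c : ℤ) (hn : n ≠ 0) (f : ℤ[X])
    (h : |(n : K) * g - aeval w f| ≤ (c : K)) : g ∈ R w := by
  obtain ⟨k, hk⟩ := std_of_bdd _ c h
  refine ⟨n, f + C k, hn, ?_⟩
  rw [map_add, ← sub_eq_iff_eq_add']
  simp only [eq_intCast, map_intCast]
  exact hk

end Pool.Agent.H54.SZ
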