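import Pool.Agent.H54.SZ.E2
/-! MP_0e09bd_lc (PI helper54): division with remainder in the ring.
Proof: `K_div` in the ultrapower gives `q`, `r`; only `q ∈ R w` is needed (then `r = a - b q`). Common denominator: `n a = f(w)`, `n b = g(w)`,
`n ≠ 0` (multiply), may take `n > 0`. Over the rationals divide: with `clear` (A.lean) or pseudo division there are an integer `N > 0` and `h', s'` with
`C N * f = g * h' + s'`, `s' = 0` or `s'.natDegree < g.natDegree`. If `g.natDegree > 0`: `|s'(w)| < |g(w)|` (`ev_lt`), `n a = n b q + n r`, so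
`g(w) (N q - h'(w)) = s'(w) - N n r`, `|n r| < |n b| = |g(w)|`: `|N q - h'(w)| ≤ N + 1`, so `q ∈ R w` by `mem_of_near`. If `g.natDegree = 0`: `n b = k` a nonzero
integer, `|b| ≤ |k|`, so `r` is a standard integer (`std_of_bdd`), and `k q = n b q = n a - n r ∈ R w`; `mem_of_mul`. -/
set_option autoImplicit false
namespace Pool.Agent.H54.SZ
open Polynomial Filter

/-- pseudo division of integer polynomials -/
theorem pdiv (f g : ℤ[X]) (hg : g.natDegree ≠ 0) : ∃ (N : ℤ) (h s : ℤ[X]), 0 < N ∧
    C N * f = g * h + s ∧ s.natDegree < g.natDegree := by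
  obtain ⟨D1, h1, hD1, e1⟩ := clear (Q f / Q g)
  obtain ⟨D2, s2, hD2, e2⟩ := clear (Q f % Q g)
  have hnd : ∀ p : ℤ[X], (Q p).natDegree = p.natDegree := fun p =>
    Polynomial.natDegree_map_eq_of_injective (RingHom.injective_int _) p
  refine ⟨(D1 * D2) ^ 2, C (D1 * D2 * D2) * h1, C (D1 * D2 * D1) * s2, ?_, ?_, ?_⟩
  · have := mul_ne_zero hD1 hD2
    positivity
  · apply Polynomial.map_injective (Int.castRingHom ℚ) (RingHom.injective_int _)
    have e3 : h1.map (Int.castRingHom ℚ) = C (D1 : ℚ) * (Q f / Q g) := e1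
    have e4 : s2.map (Int.castRingHom ℚ) = C (D2 : ℚ) * (Q f % Q g) := e2
    have e5 : Q g * (Q f / Q g) + Q f % Q g = Q f := EuclideanDomain.div_add_mod _ _
    simp only [Polynomial.map_add, Polynomial.map_mul, Polynomial.map_C]
    rw [e3, e4]
    simp only [eq_intCast, map_mul, map_pow]
    change _ * Q f = Q g * _ + _
    linear_combination (- (C (D1:ℚ)) ^ 2 * C (D2:ℚ) ^ 2) * e5
  · have h3 : (C (D1 * D2 * D1) * s2).natDegree ≤ s2.natDegree := Polynomial.natDegree_C_mul_le _ _
    have h4 : s2.natDegree ≤ (Q f % Q g).natDegree := by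
      rw [← hnd s2, e2]
      exact Polynomial.natDegree_C_mul_le _ _
    have h5 : (Q f % Q g).natDegree < (Q g).natDegree :=
      Polynomial.natDegree_mod_lt _ (by rw [hnd g]; exact hg)
    rw [hnd g] at h5
    omega

theorem R_div (w : K) (hw : ∀ n : ℤ, (n : K) < w) (a b : R w) (hb : 0 < b) :
    ∃ q r : R w, a = b * q + r ∧ 0 ≤ r ∧ r < b := by
  obtain ⟨a, ha⟩ := a
  obtain ⟨b, hbR⟩ := b
  have hb' : (0 : K) < b := hb
  obtain ⟨q, r, h1, h2, h3⟩ := K_div a b hb'
  suffices hq : q ∈ R w by
    have hr : r ∈ R w := by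
      have : r = a - b * q := by rw [h1]; ring
      rw [this]
      exact (R w).sub_mem ha ((R w).mul_mem hbR hq)
    exact ⟨⟨q, hq⟩, ⟨r, hr⟩, Subtype.ext h1, h2, h3⟩
  have ha' := ha
  obtain ⟨n1, f1, hn1, hf1⟩ := ha
  obtain ⟨n2, g2, hn2, hg2⟩ := hbR
  obtain ⟨n, f, g, hn, hf, hg⟩ : ∃ (n : ℤ) (f g : ℤ[X]), 0 < n ∧ (n : K) * a = aeval w f ∧
      (n : K) * b = aeval w g := by
    refine ⟨n1 ^ 2 * n2 ^ 2, C (n1 * n2 ^ 2) * f1, C (n1 ^ 2 * n2) * g2, by positivity, ?_, ?_⟩
    · rw [map_mul, ← hf1]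
      simp only [eq_intCast, map_intCast]
      push_cast; ring
    · rw [map_mul, ← hg2]
      simp only [eq_intCast, map_intCast]
      push_cast; ring
  have hnK : (0 : K) < (n : K) := by exact_mod_cast hn
  have hn1K : (1 : K) ≤ (n : K) := by exact_mod_cast hn
  have hgpos : 0 < aeval w g := by rw [← hg]; exact mul_pos hnK hb'
  by_cases hdeg : g.natDegree = 0
  · obtain ⟨k, hk⟩ := Polynomial.natDegree_eq_zero.1 hdeg
    have hgk : aeval w g = (k : K) := by
      rw [← hk]; simp
    have hkK : (0 : K) < (k : K) := by rw [← hgk]; exact hgpos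
    have hk0 : k ≠ 0 := by
      rintro rfl
      simp at hkK
    have hbk : b ≤ (k : K) := by
      rw [← hgk, ← hg]
      nlinarith
    obtain ⟨k', hk'⟩ := std_of_bdd r k (by rw [abs_of_nonneg h2]; exact (h3.trans_le hbk).le)
    refine mem_of_mul w q k hk0 ?_
    have h4 : (k : K) * q = (n : K) * a - (n : K) * (k' : K) := by
      rw [← hk', ← hgk, ← hg, h1]; ring
    rw [h4]
    exact (R w).sub_mem ((R w).mul_mem (intCast_mem _ _) ha')
      ((R w).mul_mem (intCast_mem _ _) (intCast_mem _ _))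
  · obtain ⟨N, h, s, hN, e, hs⟩ := pdiv f g hdeg
    have hNK : (0 : K) < (N : K) := by exact_mod_cast hN
    have e' : (N : K) * aeval w f = aeval w g * aeval w h + aeval w s := by
      have := congrArg (aeval w) e
      simpa using this
    have h5 : |aeval w s| < aeval w g := by
      have := ev_lt w hw s g hs 1
      rw [abs_of_pos hgpos] at this
      simpa using this
    have h6 : (n : K) * r < aeval w g := by rw [← hg]; exact mul_lt_mul_of_pos_left h3 hnK
    have h7 : 0 ≤ (n : K) * r := mul_nonneg hnK.le h2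
    have h8 : aeval w g * ((N : K) * q - aeval w h) = aeval w s - (N : K) * ((n : K) * r) := by
      have : (n : K) * a = aeval w g * q + (n : K) * r := by rw [h1, ← hg]; ring
      rw [← hf, this] at e'
      linear_combination e'
    refine mem_of_near w q N (N + 1) hN.ne' h ?_
    have h9 : aeval w g * |(N : K) * q - aeval w h| ≤ aeval w g * ((N : K) + 1) := by
      calc aeval w g * |(N : K) * q - aeval w h| = |aeval w g * ((N : K) * q - aeval w h)| := by
            rw [abs_mul, abs_of_pos hgpos]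
        _ = |aeval w s - (N : K) * ((n : K) * r)| := by rw [h8]
        _ ≤ |aeval w s| + |(N : K) * ((n : K) * r)| := abs_sub _ _
        _ = |aeval w s| + (N : K) * ((n : K) * r) := by
            rw [abs_of_nonneg (mul_nonneg hNK.le h7)]
        _ ≤ aeval w g + (N : K) * aeval w g :=
            add_le_add h5.le (mul_le_mul_of_nonneg_left h6.le hNK.le)
        _ = aeval w g * ((N : K) + 1) := by ring
    have h10 := le_of_mul_le_mul_left h9 hgpos
    push_cast
    exact h10

end Pool.Agent.H54.SZ
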