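import Pool.Agent.H54.SZ.E2
/-! MP_0e09bd_lc (PI helper54): Bezout. `IsBezout.iff_span_pair_isPrincipal`: show that for `a, b` there is `e` with `span {a, b} = span {e}`, i.e.
`e = x a + y b`, `e ∣ a`, `e ∣ b`. Proof: if `a = b = 0` trivial. `n a = f(w)`, `n b = g(w)`. Over the rationals `f = h f'`, `g = h g'`, `u f' + v g' = 1`, `h` = gcd.
Clearing denominators (`clear`): integer polynomials with `C L * f = h f'`, `C L * g = h g'`, `u f' + v g' = C N`, `L, N ≠ 0` integers. In `R w`: `f'(w) = k1 + N c1`,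
`g'(w) = k2 + N c2` with standard integers `k1, k2` (`K_div`, `std_of_bdd`, the quotient is in `R w` by `mem_of_mul`). `D = gcd(k1, k2, N)`: `D` divides `f'(w)`, `g'(w)`
in `R w`: `f'(w) = D f2`, `g'(w) = D g2`, and `D = α k1 + β k2 + γ N` is a combination `x f'(w) + y g'(w)` (as `N = u(w) f'(w) + v(w) g'(w)`). So `D = D (x f2 + y g2)`,
`x f2 + y g2 = 1`. With `E = h(w) D`: `L n a = E f2`, `L n b = E g2`; put `e = x a + y b`: `L n e = E`, so `L n a = L n e f2`, `a = e f2`, `b = e g2`. -/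
set_option autoImplicit false
namespace Pool.Agent.H54.SZ
open Polynomial Filter

/-- Bezout for integer polynomials with denominators cleared -/
theorem bez_poly (f g : ℤ[X]) (hfg : ¬ (f = 0 ∧ g = 0)) :
    ∃ (L N : ℤ) (h f' g' u v : ℤ[X]), L ≠ 0 ∧ 0 < N ∧ C L * f = h * f' ∧ C L * g = h * g' ∧
      u * f' + v * g' = C N := by
  have hinj := Polynomial.map_injective (Int.castRingHom ℚ) (RingHom.injective_int _)
  obtain ⟨H, hH⟩ : ∃ H, H = EuclideanDomain.gcd (Q f) (Q g) := ⟨_, rfl⟩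
  have hH0 : H ≠ 0 := by
    intro h0
    rw [hH, EuclideanDomain.gcd_eq_zero_iff] at h0
    apply hfg
    constructor
    · apply hinj; rw [Polynomial.map_zero]; exact h0.1
    · apply hinj; rw [Polynomial.map_zero]; exact h0.2
  obtain ⟨F1, hF1⟩ : H ∣ Q f := by rw [hH]; exact EuclideanDomain.gcd_dvd_left _ _
  obtain ⟨G1, hG1⟩ : H ∣ Q g := by rw [hH]; exact EuclideanDomain.gcd_dvd_right _ _
  obtain ⟨U, V, hUV⟩ : ∃ U V, U * F1 + V * G1 = 1 := by
    refine ⟨EuclideanDomain.gcdA (Q f) (Q g), EuclideanDomain.gcdB (Q f) (Q g), ?_⟩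
    have h1 := EuclideanDomain.gcd_eq_gcd_ab (Q f) (Q g)
    rw [← hH] at h1
    apply mul_left_cancel₀ hH0
    rw [mul_one]
    conv_rhs => rw [h1]
    rw [hF1, hG1]
    rw [← hF1, ← hG1]
    rw [hF1, hG1]
    ring
  obtain ⟨D0, h, hD0, e0⟩ := clear H
  obtain ⟨D1, f1, hD1, e1⟩ := clear F1
  obtain ⟨D2, g1, hD2, e2⟩ := clear G1
  obtain ⟨D3, u1, hD3, e3⟩ := clear U
  obtain ⟨D4, v1, hD4, e4⟩ := clear V
  have e0' : h.map (Int.castRingHom ℚ) = C (D0 : ℚ) * H := e0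
  have e1' : f1.map (Int.castRingHom ℚ) = C (D1 : ℚ) * F1 := e1
  have e2' : g1.map (Int.castRingHom ℚ) = C (D2 : ℚ) * G1 := e2
  have e3' : u1.map (Int.castRingHom ℚ) = C (D3 : ℚ) * U := e3
  have e4' : v1.map (Int.castRingHom ℚ) = C (D4 : ℚ) * V := e4
  have hF : f.map (Int.castRingHom ℚ) = H * F1 := hF1
  have hG : g.map (Int.castRingHom ℚ) = H * G1 := hG1
  refine ⟨D0 * D1 * D2, (D1 * D2 * D3 * D4) ^ 2, h, C D2 * f1, C D1 * g1,
    C (D1 * D2 * D3 * D4) * (C D4 * u1), C (D1 * D2 * D3 * D4) * (C D3 * v1),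
    mul_ne_zero (mul_ne_zero hD0 hD1) hD2, ?_, ?_, ?_, ?_⟩
  · have := mul_ne_zero (mul_ne_zero (mul_ne_zero hD1 hD2) hD3) hD4
    positivity
  · apply hinj
    simp only [Polynomial.map_mul, Polynomial.map_C]
    rw [e0', e1', hF]
    simp only [eq_intCast, Int.cast_mul, map_mul]
    ring
  · apply hinj
    simp only [Polynomial.map_mul, Polynomial.map_C]
    rw [e0', e2', hG]
    simp only [eq_intCast, Int.cast_mul, map_mul]
    ring
  · apply hinj
    simp only [Polynomial.map_add, Polynomial.map_mul, Polynomial.map_C]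
    rw [e1', e2', e3', e4']
    simp only [eq_intCast, Int.cast_mul, Int.cast_pow, map_mul, map_pow]
    linear_combination ((C (D1:ℚ)) ^ 2 * (C (D2:ℚ)) ^ 2 * (C (D3:ℚ)) ^ 2 * (C (D4:ℚ)) ^ 2) * hUV

/-- residues modulo a standard integer -/
theorem res_mod (w α : K) (hα : α ∈ R w) (N : ℤ) (hN : 0 < N) :
    ∃ (k : ℤ) (c : K), c ∈ R w ∧ α = (k : K) + (N : K) * c := by
  have hNK : (0 : K) < (N : K) := by exact_mod_cast hN
  obtain ⟨q, r, h1, h2, h3⟩ := K_div α (N : K) hNK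
  obtain ⟨k, hk⟩ := std_of_bdd r N (by rw [abs_of_nonneg h2]; exact h3.le)
  refine ⟨k, q, ?_, ?_⟩
  · refine mem_of_mul w q N hN.ne' ?_
    have : (N : K) * q = α - (k : K) := by rw [h1, hk]; ring
    rw [this]
    exact (R w).sub_mem hα (intCast_mem _ _)
  · rw [h1, hk]; ring

theorem bez_K (w a b : K) (ha : a ∈ R w) (hb : b ∈ R w) :
    ∃ x y c d : K, x ∈ R w ∧ y ∈ R w ∧ c ∈ R w ∧ d ∈ R w ∧
      a = (x * a + y * b) * c ∧ b = (x * a + y * b) * d := by
  obtain ⟨n1, f1, hn1, hf1⟩ := ha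
  obtain ⟨n2, g2, hn2, hg2⟩ := hb
  obtain ⟨n, f, g, hn, hf, hg⟩ : ∃ (n : ℤ) (f g : ℤ[X]), n ≠ 0 ∧ (n : K) * a = aeval w f ∧
      (n : K) * b = aeval w g := by
    refine ⟨n1 * n2, C n2 * f1, C n1 * g2, mul_ne_zero hn1 hn2, ?_, ?_⟩
    · rw [map_mul, ← hf1]
      simp only [eq_intCast, map_intCast]
      push_cast; ring
    · rw [map_mul, ← hg2]
      simp only [eq_intCast, map_intCast]
      push_cast; ring
  have hnK : (n : K) ≠ 0 := by exact_mod_cast hn
  by_cases h0 : f = 0 ∧ g = 0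
  · have ha0 : a = 0 := by
      have : (n : K) * a = 0 := by rw [hf, h0.1, map_zero]
      exact (mul_eq_zero.1 this).resolve_left hnK
    have hb0 : b = 0 := by
      have : (n : K) * b = 0 := by rw [hg, h0.2, map_zero]
      exact (mul_eq_zero.1 this).resolve_left hnK
    refine ⟨0, 0, 0, 0, (R w).zero_mem, (R w).zero_mem, (R w).zero_mem, (R w).zero_mem, ?_, ?_⟩
    · rw [ha0]; ring
    · rw [hb0]; ring
  · obtain ⟨L, N, h, f', g', u, v, hL, hN, e1, e2, e3⟩ := bez_poly f g h0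
    have hLK : (L : K) ≠ 0 := by exact_mod_cast hL
    have e1' : (L : K) * aeval w f = aeval w h * aeval w f' := by
      have := congrArg (aeval w) e1
      simpa using this
    have e2' : (L : K) * aeval w g = aeval w h * aeval w g' := by
      have := congrArg (aeval w) e2
      simpa using this
    have e3' : aeval w u * aeval w f' + aeval w v * aeval w g' = (N : K) := by
      have := congrArg (aeval w) e3
      simpa using this
    obtain ⟨k1, c1, hc1, q1⟩ := res_mod w (aeval w f') (aeval_mem w f') N hN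
    obtain ⟨k2, c2, hc2, q2⟩ := res_mod w (aeval w g') (aeval_mem w g') N hN
    -- the greatest common divisor
    obtain ⟨D, A, B, Γ, K1, K2, N1, hD0, hD, hk1, hk2, hN1⟩ :
        ∃ D A B Γ K1 K2 N1 : ℤ, D ≠ 0 ∧ D = A * k1 + B * k2 + Γ * N ∧ k1 = D * K1 ∧
          k2 = D * K2 ∧ N = D * N1 := by
      obtain ⟨g0, hg0⟩ : ∃ g0 : ℤ, g0 = (Int.gcd k1 k2 : ℤ) := ⟨_, rfl⟩
      have hb1 := Int.gcd_eq_gcd_ab k1 k2
      have hb2 := Int.gcd_eq_gcd_ab g0 N
      have hd1 : g0 ∣ k1 := by rw [hg0]; exact Int.gcd_dvd_left _ _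
      have hd2 : g0 ∣ k2 := by rw [hg0]; exact Int.gcd_dvd_right _ _
      have hd3 : (Int.gcd g0 N : ℤ) ∣ g0 := Int.gcd_dvd_left _ _
      have hd4 : (Int.gcd g0 N : ℤ) ∣ N := Int.gcd_dvd_right _ _
      obtain ⟨K1, hK1⟩ := hd3.trans hd1
      obtain ⟨K2, hK2⟩ := hd3.trans hd2
      obtain ⟨N1, hN1⟩ := hd4
      refine ⟨(Int.gcd g0 N : ℤ), Int.gcdA k1 k2 * Int.gcdA g0 N, Int.gcdB k1 k2 * Int.gcdA g0 N,
        Int.gcdB g0 N, K1, K2, N1, ?_, ?_, hK1, hK2, hN1⟩
      · intro hz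
        rw [hz, zero_mul] at hN1
        omega
      · rw [← hg0] at hb1
        linear_combination hb2 + Int.gcdA g0 N * hb1
    have hDK : (D : K) ≠ 0 := by exact_mod_cast hD0
    have hDe : (D : K) = (A : K) * (k1 : K) + (B : K) * (k2 : K) + (Γ : K) * (N : K) := by
      exact_mod_cast congrArg (Int.cast : ℤ → K) hD
    have hk1e : (k1 : K) = (D : K) * (K1 : K) := by exact_mod_cast congrArg (Int.cast : ℤ → K) hk1
    have hk2e : (k2 : K) = (D : K) * (K2 : K) := by exact_mod_cast congrArg (Int.cast : ℤ → K) hk2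
    have hNe : (N : K) = (D : K) * (N1 : K) := by exact_mod_cast congrArg (Int.cast : ℤ → K) hN1
    obtain ⟨f2, hf2⟩ : ∃ f2 : K, f2 = (K1 : K) + (N1 : K) * c1 := ⟨_, rfl⟩
    obtain ⟨g3, hg3⟩ : ∃ g3 : K, g3 = (K2 : K) + (N1 : K) * c2 := ⟨_, rfl⟩
    have hf2R : f2 ∈ R w := by
      rw [hf2]
      exact (R w).add_mem (intCast_mem _ _) ((R w).mul_mem (intCast_mem _ _) hc1)
    have hg3R : g3 ∈ R w := by
      rw [hg3]
      exact (R w).add_mem (intCast_mem _ _) ((R w).mul_mem (intCast_mem _ _) hc2)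
    have hα : aeval w f' = (D : K) * f2 := by rw [q1, hf2, hk1e, hNe]; ring
    have hβ : aeval w g' = (D : K) * g3 := by rw [q2, hg3, hk2e, hNe]; ring
    obtain ⟨T, hT⟩ : ∃ T : K, T = (Γ : K) - (A : K) * c1 - (B : K) * c2 := ⟨_, rfl⟩
    have hTR : T ∈ R w := by
      rw [hT]
      exact (R w).sub_mem ((R w).sub_mem (intCast_mem _ _) ((R w).mul_mem (intCast_mem _ _) hc1))
        ((R w).mul_mem (intCast_mem _ _) hc2)
    obtain ⟨x, hx⟩ : ∃ x : K, x = (A : K) + T * aeval w u := ⟨_, rfl⟩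
    obtain ⟨y, hy⟩ : ∃ y : K, y = (B : K) + T * aeval w v := ⟨_, rfl⟩
    have hxR : x ∈ R w := by
      rw [hx]
      exact (R w).add_mem (intCast_mem _ _) ((R w).mul_mem hTR (aeval_mem w u))
    have hyR : y ∈ R w := by
      rw [hy]
      exact (R w).add_mem (intCast_mem _ _) ((R w).mul_mem hTR (aeval_mem w v))
    have hDxy : (D : K) = x * aeval w f' + y * aeval w g' := by
      have h1 : (D : K) = (A : K) * aeval w f' + (B : K) * aeval w g' + T * (N : K) := by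
        rw [hDe, q1, q2, hT]; ring
      rw [h1, ← e3', hx, hy]; ring
    have hone : x * f2 + y * g3 = 1 := by
      apply mul_left_cancel₀ hDK
      rw [mul_one]
      conv_rhs => rw [hDxy, hα, hβ]
      ring
    have hLn : (L : K) * (n : K) ≠ 0 := mul_ne_zero hLK hnK
    have ea : (L : K) * (n : K) * a = aeval w h * (D : K) * f2 := by
      rw [mul_assoc, hf, e1', hα]; ring
    have eb : (L : K) * (n : K) * b = aeval w h * (D : K) * g3 := by
      rw [mul_assoc, hg, e2', hβ]; ring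
    have ee : (L : K) * (n : K) * (x * a + y * b) = aeval w h * (D : K) := by
      linear_combination x * ea + y * eb + aeval w h * (D : K) * hone
    refine ⟨x, y, f2, g3, hxR, hyR, hf2R, hg3R, ?_, ?_⟩
    · apply mul_left_cancel₀ hLn
      rw [← mul_assoc, ee, ea]
    · apply mul_left_cancel₀ hLn
      rw [← mul_assoc, ee, eb]

theorem R_bezout (w : K) : IsBezout (R w) := by
  rw [IsBezout.iff_span_pair_isPrincipal]
  rintro ⟨a, ha⟩ ⟨b, hb⟩
  obtain ⟨x, y, c, d, hx, hy, hc, hd, e1, e2⟩ := bez_K w a b ha hb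
  refine ⟨⟨⟨x, hx⟩ * ⟨a, ha⟩ + ⟨y, hy⟩ * ⟨b, hb⟩, ?_⟩⟩
  change Ideal.span _ = Ideal.span _
  apply le_antisymm
  · rw [Ideal.span_le]
    intro z hz
    rcases hz with hz | hz
    · rw [hz, SetLike.mem_coe, Ideal.mem_span_singleton]
      exact ⟨⟨c, hc⟩, Subtype.ext e1⟩
    · rw [Set.mem_singleton_iff] at hz
      rw [hz, SetLike.mem_coe, Ideal.mem_span_singleton]
      exact ⟨⟨d, hd⟩, Subtype.ext e2⟩
  · rw [Ideal.span_singleton_le_iff_mem]
    exact Ideal.add_mem _ (Ideal.mul_mem_left _ _ (Ideal.subset_span (Or.inl rfl)))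
      (Ideal.mul_mem_left _ _ (Ideal.subset_span (Or.inr rfl)))

end Pool.Agent.H54.SZ
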