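import Pool.Agent.H54.SZ.E2
/-! MP_0e09bd_lc (PI helper54): irreducible elements.
Proof: `m` is not a unit: else `m u = 1` in the ultrapower, `|m| ≤ 1`, against `ev_large` (`0 < y.natDegree` as `Q y` is irreducible). If `m = u v`, `n u = f(w)`, `k v = g(w)`:
`C (n k) * y = f g` by `ev_inj`; over the rationals `Q y` is associated to `Q f * Q g`, irreducible, so one of `Q f`, `Q g` is a unit, say `f = C c`, `c ≠ 0`
(natDegree 0). Then `n u = c`, so `|u| ≤ |c|`, `u` is a standard integer `k0` (`std_of_bdd`), nonzero. If `k0` is not 1 or -1, a prime `p ∣ k0` divides `m = y(w)` in the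
ultrapower, against `hp`. So `u` is a unit. -/
set_option autoImplicit false
namespace Pool.Agent.H54.SZ
open Polynomial Filter

/-- an element with a standard nonzero multiple is standard -/
theorem std_of_mul (a : K) (n c : ℤ) (hn : n ≠ 0) (h : (n : K) * a = (c : K)) :
    ∃ k : ℤ, a = (k : K) := by
  refine std_of_bdd a |c| ?_
  have h1 : |(n : K)| * |a| = |(c : K)| := by rw [← abs_mul, h]
  have h2 : (1 : K) ≤ |(n : K)| := by
    have : (1 : ℤ) ≤ |n| := Int.one_le_abs hn
    have h3 : ((1 : ℤ) : K) ≤ ((|n| : ℤ) : K) := by exact_mod_cast this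
    rw [Int.cast_abs, Int.cast_one] at h3
    exact h3
  rw [Int.cast_abs, ← h1]
  exact le_mul_of_one_le_left (abs_nonneg a) h2

theorem unit_of_std (w : K) (y : ℤ[X]) (hp : ∀ p : ℕ, p.Prime → ¬ (p : K) ∣ aeval w y) (a : R w)
    (hdvd : (a : K) ∣ aeval w y) (n c : ℤ) (hn : n ≠ 0) (_ : c ≠ 0) (h : (n : K) * a = (c : K)) :
    IsUnit a := by
  obtain ⟨k, hk⟩ := std_of_mul a n c hn h
  by_cases h1 : k.natAbs = 1
  · have h2 : k * k = 1 := by
      rcases Int.natAbs_eq_iff.1 h1 with h3 | h3
      · rw [h3]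
        rfl
      · rw [h3]
        rfl
    refine IsUnit.of_mul_eq_one a (Subtype.ext ?_)
    show (a : K) * (a : K) = 1
    rw [hk, ← Int.cast_mul, h2, Int.cast_one]
  · exfalso
    obtain ⟨p, hpp, hpk⟩ := Nat.exists_prime_and_dvd h1
    apply hp p hpp
    have h2 : (p : ℤ) ∣ k := Int.natCast_dvd.2 hpk
    obtain ⟨t, ht⟩ := h2
    refine dvd_trans ⟨(t : K), ?_⟩ hdvd
    rw [hk, ht]
    push_cast
    rfl

/-- a polynomial that is a unit over the rationals -/
theorem const_of_unit (f : ℤ[X]) (h : IsUnit (Q f)) : ∃ c : ℤ, c ≠ 0 ∧ f = C c := by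
  have h1 : (Q f).natDegree = 0 := Polynomial.natDegree_eq_zero_of_isUnit h
  have h2 : (Q f).natDegree = f.natDegree :=
    Polynomial.natDegree_map_eq_of_injective (RingHom.injective_int _) f
  rw [h2] at h1
  obtain ⟨c, hc⟩ := Polynomial.natDegree_eq_zero.1 h1
  refine ⟨c, ?_, hc.symm⟩
  rintro rfl
  rw [← hc] at h
  simp [Q] at h

/-- polynomials without standard prime factor are irreducible in the ring if irreducible over the rationals -/
theorem R_irr (w : K) (hw : ∀ n : ℤ, (n : K) < w) (y : ℤ[X]) (hy : Irreducible (Q y))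
    (hp : ∀ p : ℕ, p.Prime → ¬ (p : K) ∣ aeval w y) (m : R w) (hm : (m : K) = aeval w y) :
    Irreducible m := by
  have hdeg : 0 < y.natDegree := by
    have h1 : (Q y).natDegree = y.natDegree :=
      Polynomial.natDegree_map_eq_of_injective (RingHom.injective_int _) y
    rw [← h1]
    exact hy.natDegree_pos
  refine irreducible_iff.2 ⟨?_, ?_⟩
  · intro hu
    obtain ⟨v, hv⟩ := hu.exists_right_inv
    have h1 : (m : K) * (v : K) = 1 := by
      have := congrArg (fun z : R w => (z : K)) hv
      simpa using this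
    have h2 := ev_large w hw y hdeg 1
    rw [← hm, Int.cast_one] at h2
    have h3 : |(m : K)| * |(v : K)| = 1 := by rw [← abs_mul, h1, abs_one]
    have h4 : |(v : K)| ≤ ((1 : ℤ) : K) := by
      rw [Int.cast_one]
      by_contra h5
      push Not at h5
      have := mul_lt_mul'' h2 h5 zero_le_one zero_le_one
      rw [h3, one_mul] at this
      exact lt_irrefl _ this
    obtain ⟨k, hk⟩ := std_of_bdd (v : K) 1 h4
    have hk0 : k ≠ 0 := by
      rintro rfl
      rw [hk, Int.cast_zero, mul_zero] at h1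
      exact zero_ne_one h1
    have h5 : (1 : K) ≤ |(v : K)| := by
      rw [hk, ← Int.cast_abs]
      have : (1 : ℤ) ≤ |k| := Int.one_le_abs hk0
      exact_mod_cast this
    have h6 : |(m : K)| * 1 ≤ |(m : K)| * |(v : K)| := mul_le_mul_of_nonneg_left h5 (abs_nonneg _)
    rw [h3, mul_one] at h6
    exact lt_irrefl _ (lt_of_lt_of_le h2 h6)
  · intro a b hab
    have hK : aeval w y = (a : K) * (b : K) := by
      rw [← hm, hab]
      rfl
    obtain ⟨n, f, hn, hf⟩ := (mem_R w _).1 a.2
    obtain ⟨k, g, hk, hg⟩ := (mem_R w _).1 b.2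
    have h1 : C (n * k) * y = f * g := by
      apply ev_inj w hw
      rw [map_mul (aeval w), map_mul (aeval w), ← hf, ← hg, hK]
      simp only [eq_intCast, map_intCast]
      push_cast
      ring
    have h2 : C ((n * k : ℤ) : ℚ) * Q y = Q f * Q g := by
      have := congrArg (fun z : ℤ[X] => Q z) h1
      simp only [Q, Polynomial.map_mul, Polynomial.map_C] at this
      simpa [Q] using this
    have h3 : IsUnit (C ((n * k : ℤ) : ℚ) : ℚ[X]) := by
      rw [Polynomial.isUnit_C, isUnit_iff_ne_zero]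
      exact_mod_cast mul_ne_zero hn hk
    have h4 : Irreducible (Q f * Q g) := by
      rw [← h2]
      exact (irreducible_isUnit_mul h3).2 hy
    rcases h4.isUnit_or_isUnit rfl with h5 | h5
    · left
      obtain ⟨c, hc, rfl⟩ := const_of_unit f h5
      refine unit_of_std w y hp a ⟨_, hK⟩ n c hn hc ?_
      rw [hf]
      simp
    · right
      obtain ⟨c, hc, rfl⟩ := const_of_unit g h5
      refine unit_of_std w y hp b ⟨(a : K), by rw [hK, mul_comm]⟩ k c hk hc ?_
      rw [hg]
      simp

end Pool.Agent.H54.SZ
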