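import Pool.Agent.H54.SZ.B4
import Pool.Agent.H54.SZ.D1
import Pool.Agent.H54.SZ.E3
import Pool.Agent.H54.SZ.E4
import Pool.Agent.H54.SZ.E5
import Pool.Agent.H54.SZ.E6
/-! MP_0e09bd_lc: assembly. -/
set_option autoImplicit false
namespace Pool.Agent.H54.SZ
open Polynomial Filter

theorem Yp_natDegree (A q : ℤ) (d : ℕ) (hA : A ≠ 0) : (Yp A q d).natDegree = d := by
  rcases Nat.eq_zero_or_pos d with h | h
  · subst h
    unfold Yp
    rw [pow_zero, mul_one, ← C_add, Polynomial.natDegree_C]
  · unfold Yp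
    rw [Polynomial.natDegree_add_C, Polynomial.natDegree_C_mul_X_pow _ _ hA]

/-- clearing the denominator in a composition -/
theorem compose (w m : K) (n : ℤ) (f g : ℤ[X]) (hf : (n : K) * m = aeval w f) :
    (n : K) ^ g.natDegree * aeval m g = aeval w ((g.scaleRoots n).comp f) := by
  rw [Polynomial.aeval_comp, ← hf]
  have := Polynomial.scaleRoots_eval₂_mul (p := g) (algebraMap ℤ K) m n
  simpa [Polynomial.aeval_def] using this.symm

theorem small_deg (w : K) (hw : ∀ n : ℤ, (n : K) < w) (m : K) (n : ℤ) (hn : n ≠ 0) (f : ℤ[X])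
    (hf : (n : K) * m = aeval w f) (g : ℤ[X]) (hd : f.natDegree < g.natDegree) :
    |m| < |aeval w g| := by
  have h1 := ev_lt w hw f g hd 1
  rw [Int.cast_one, one_mul, ← hf, abs_mul] at h1
  have h2 : (1 : K) ≤ |(n : K)| := by
    rw [← Int.cast_abs]
    exact_mod_cast Int.one_le_abs hn
  calc |m| = 1 * |m| := (one_mul _).symm
    _ ≤ |(n : K)| * |m| := mul_le_mul_of_nonneg_right h2 (abs_nonneg _)
    _ < _ := h1

theorem main : ∃ R : Subring ((hyperfilter ℕ : Filter ℕ).Germ ℤ),
    (∃ w : R, ∀ n : ℤ, (n : R) < w) ∧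
    (∀ a b : R, 0 < b → ∃ q r : R, a = b * q + r ∧ 0 ≤ r ∧ r < b) ∧
    IsBezout R ∧
    (∀ a b : ℤ, a ≠ 0 → IsCoprime a b → ∀ B : R, ∃ m : R, B < m ∧ Irreducible ((a : R) * m + b)) ∧
    (∀ P : Finset ℤ[X], (∀ f ∈ P, Irreducible f ∧ 0 < f.natDegree) →
      (¬ ∃ a b : ℤ, ∀ f ∈ P, f = C a * X + C b ∨ f = -(C a * X + C b)) →
      ∃ B : R, ∀ m : R, B < |m| → ∃ f ∈ P, ¬ Irreducible (aeval m f)) := by
  obtain ⟨A, q, d, r, hq, hA, hd, hmono, hirr, hDir, hU, hR⟩ := data
  obtain ⟨w, hw, hwp⟩ := exists_omega r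
  have hY2 : ∀ s (p : ℕ), p.Prime → ¬ (p : K) ∣ aeval w (Yp (A s) (q s) (d s)) := by
    intro s p hp
    rw [dvd_iff w p (r p) (hwp p hp)]
    exact hU s p hp
  have hR' : ∀ h : ℤ[X], Irreducible (Q h) →
      (∃ s, Associated (Q (Yp (A s) (q s) (d s))) (Q h)) ∨
      ∀ N : ℕ, ∃ p : ℕ, p.Prime ∧ N < p ∧ (p : K) ∣ aeval w h := by
    intro h hh
    rcases hR h hh with h1 | h1
    · exact Or.inl h1
    · right
      intro N
      obtain ⟨p, hp, hN, hdv⟩ := h1 N
      exact ⟨p, hp, hN, (dvd_iff w p (r p) (hwp p hp) h).2 hdv⟩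
  have hwpos : (0 : K) < w := by simpa using hw 0
  have hw1 : (1 : K) < w := by simpa using hw 1
  refine ⟨R w, ⟨⟨w, by simpa using aeval_mem w X⟩, ?_⟩, R_div w hw, R_bezout w, ?_, ?_⟩
  · intro n
    rw [← Subtype.coe_lt_coe]
    simpa using hw n
  · intro a b ha hab B
    obtain ⟨n, f, hn, hf⟩ := B.2
    obtain ⟨s, hs, m1, m0, hm1, hAs, hqs⟩ := hDir a b ha hab f.natDegree
    have hmem := aeval_mem w (C m1 * X ^ (d s) + C m0)
    have hval : aeval w (C m1 * X ^ (d s) + C m0) = (m1 : K) * w ^ (d s) + (m0 : K) := by simp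
    have hdeg : (C m1 * X ^ (d s) + C m0 : ℤ[X]).natDegree = d s := Yp_natDegree m1 m0 (d s) hm1.ne'
    refine ⟨⟨_, hmem⟩, ?_, ?_⟩
    · rw [← Subtype.coe_lt_coe]
      have h1 := small_deg w hw B n hn f hf (C m1 * X ^ (d s) + C m0) (by rw [hdeg]; exact hs)
      have h2 : 0 < aeval w (C m1 * X ^ (d s) + C m0) := by
        rw [hval]
        have h3 : w ≤ w ^ (d s) := le_self_pow₀ hw1.le (hd s).pos.ne'
        have h4 : (1 : K) ≤ (m1 : K) := by exact_mod_cast hm1
        have h5 : w ^ (d s) ≤ (m1 : K) * w ^ (d s) := by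
          have := mul_le_mul_of_nonneg_right h4 (pow_pos hwpos (d s)).le
          simpa using this
        have h6 : ((-m0 : ℤ) : K) < w := hw (-m0)
        push_cast at h6
        linarith
      rw [abs_of_pos h2] at h1
      exact lt_of_le_of_lt (le_abs_self _) h1
    · apply R_irr w hw _ (hirr s) (hY2 s)
      simp only [Subring.coe_add, Subring.coe_mul, Subring.coe_intCast]
      rw [hval]
      simp only [Yp, map_add, map_mul, map_pow, aeval_X, eq_intCast, map_intCast]
      rw [hAs, hqs]
      push_cast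
      ring
  · intro P hP hnot
    refine ⟨⟨w ^ 2, by have h0 := aeval_mem w (X ^ 2); rwa [map_pow, aeval_X] at h0⟩, ?_⟩
    intro m hm
    by_contra hcon
    push Not at hcon
    apply hnot
    have hm' : w ^ 2 < |(m : K)| := by
      rw [← Subtype.coe_lt_coe] at hm
      exact hm
    obtain ⟨n, f, hn, hf⟩ := m.2
    have hfdeg : 2 ≤ f.natDegree := by
      by_contra hlt
      have h1 := small_deg w hw m n hn f hf (X ^ 2) (by simp; omega)
      rw [map_pow, aeval_X, abs_of_pos (pow_pos hwpos 2)] at h1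
      exact absurd (hm'.trans h1) (lt_irrefl _)
    have hnK : (n : K) ≠ 0 := by exact_mod_cast hn
    -- every member is a value plus or minus `Y s` for the same `s`
    have key : ∀ g ∈ P, ∃ s, (aeval (m : K) g = aeval w (Yp (A s) (q s) (d s)) ∨
        aeval (m : K) g = - aeval w (Yp (A s) (q s) (d s))) ∧ g.natDegree = 1 ∧ d s = f.natDegree := by
      intro g hg
      have hG := compose w m n f g hf
      have hGd : ((g.scaleRoots n).comp f).natDegree = g.natDegree * f.natDegree := by
        rw [Polynomial.natDegree_comp, Polynomial.natDegree_scaleRoots]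
      have hgd := (hP g hg).2
      have hcoe : ((aeval m g : R w) : K) = aeval (m : K) g :=
        (Polynomial.aeval_algHom_apply (R w).subtype.toIntAlgHom m g).symm
      have hinf : ∀ k : ℤ, ((aeval m g : R w) : K) ≠ (k : K) := by
        intro k hk
        rw [hcoe] at hk
        rw [hk] at hG
        have h1 := ev_large w hw ((g.scaleRoots n).comp f)
          (by rw [hGd]; exact Nat.mul_pos hgd (by omega)) (|n ^ g.natDegree * k|)
        rw [← hG] at h1
        push_cast at h1
        exact lt_irrefl _ h1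
      obtain ⟨s, hs⟩ := R_class w hw (fun s => Yp (A s) (q s) (d s)) hirr hY2 hR' (aeval m g)
        (hcon g hg) hinf
      rw [hcoe] at hs
      have hnp : n ^ g.natDegree ≠ 0 := pow_ne_zero _ hn
      have hdd : g.natDegree * f.natDegree = d s := by
        rcases hs with hs | hs
        · rw [hs] at hG
          have h1 : aeval w (C (n ^ g.natDegree) * Yp (A s) (q s) (d s)) =
              aeval w ((g.scaleRoots n).comp f) := by
            rw [← hG]; simp
          have h2 := ev_inj w hw _ _ h1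
          rw [← hGd, ← h2, Polynomial.natDegree_C_mul hnp, Yp_natDegree _ _ _ (hA s)]
        · rw [hs] at hG
          have h1 : aeval w (C (n ^ g.natDegree) * -Yp (A s) (q s) (d s)) =
              aeval w ((g.scaleRoots n).comp f) := by
            rw [← hG]; simp
          have h2 := ev_inj w hw _ _ h1
          rw [← hGd, ← h2, Polynomial.natDegree_C_mul hnp, Polynomial.natDegree_neg,
            Yp_natDegree _ _ _ (hA s)]
      have hpr := hd s
      rw [← hdd] at hpr
      have h3 : g.natDegree = 1 := by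
        rcases Nat.prime_mul_iff.1 hpr with h4 | h4
        · omega
        · exact h4.2
      refine ⟨s, hs, h3, ?_⟩
      rw [← hdd, h3, one_mul]
    by_cases hPe : P = ∅
    · exact ⟨0, 0, by simp [hPe]⟩
    obtain ⟨g1, hg1⟩ := Finset.nonempty_iff_ne_empty.2 hPe
    obtain ⟨s1, hs1, hd1, he1⟩ := key g1 hg1
    have lin : ∀ g : ℤ[X], g.natDegree = 1 → g = C (g.coeff 1) * X + C (g.coeff 0) := by
      intro g hg
      exact Polynomial.eq_X_add_C_of_natDegree_le_one hg.le
    have linev : ∀ g : ℤ[X], g.natDegree = 1 →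
        aeval (m : K) g = (g.coeff 1 : K) * m + (g.coeff 0 : K) := by
      intro g hg
      conv_lhs => rw [lin g hg]
      simp
    -- the element `m` is not commensurable with integers
    have indep : ∀ x y : ℤ, (x : K) * m = (y : K) → x = 0 ∧ y = 0 := by
      intro x y hxy
      have hx : x = 0 := by
        by_contra hx
        have h1 : (1 : K) ≤ |(x : K)| := by
          rw [← Int.cast_abs]; exact_mod_cast Int.one_le_abs hx
        have h2 : |(m : K)| ≤ |(y : K)| := by
          rw [← hxy, abs_mul]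
          have := mul_le_mul_of_nonneg_right h1 (abs_nonneg (m : K))
          simpa using this
        have h3 : ((|y| : ℤ) : K) < w := hw |y|
        rw [Int.cast_abs] at h3
        have h4 : w ≤ w ^ 2 := le_self_pow₀ hw1.le (by norm_num)
        exact absurd (lt_of_lt_of_le (hm'.trans_le h2) (h3.le.trans h4)) (lt_irrefl _)
      subst hx
      refine ⟨rfl, ?_⟩
      simp only [Int.cast_zero, zero_mul] at hxy
      exact_mod_cast hxy.symm
    refine ⟨g1.coeff 1, g1.coeff 0, ?_⟩
    intro g hg
    obtain ⟨s, hs, hdg, he⟩ := key g hg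
    have hss : s = s1 := hmono.injective (he.trans he1.symm)
    subst hss
    rw [linev g hdg] at hs
    rw [linev g1 hd1] at hs1
    have hcase : (g.coeff 1 = g1.coeff 1 ∧ g.coeff 0 = g1.coeff 0) ∨
        (g.coeff 1 = - g1.coeff 1 ∧ g.coeff 0 = - g1.coeff 0) := by
      have same : (g.coeff 1 : K) * m + (g.coeff 0 : K) = (g1.coeff 1 : K) * m + (g1.coeff 0 : K) →
          (g.coeff 1 = g1.coeff 1 ∧ g.coeff 0 = g1.coeff 0) := by
        intro h
        have h1 := indep (g.coeff 1 - g1.coeff 1) (g1.coeff 0 - g.coeff 0)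
          (by push_cast; linear_combination h)
        constructor <;> omega
      have opp : (g.coeff 1 : K) * m + (g.coeff 0 : K) = -((g1.coeff 1 : K) * m + (g1.coeff 0 : K)) →
          (g.coeff 1 = - g1.coeff 1 ∧ g.coeff 0 = - g1.coeff 0) := by
        intro h
        have h1 := indep (g.coeff 1 + g1.coeff 1) (-g1.coeff 0 - g.coeff 0)
          (by push_cast; linear_combination h)
        constructor <;> omega
      rcases hs with hs | hs <;> rcases hs1 with hs1 | hs1
      · left; apply same; rw [hs, hs1]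
      · right; apply opp; rw [hs, hs1, neg_neg]
      · right; apply opp; rw [hs, hs1]
      · left; apply same; rw [hs, hs1]
    rcases hcase with ⟨h1, h2⟩ | ⟨h1, h2⟩
    · left
      rw [lin g hdg, h1, h2]
    · right
      rw [lin g hdg, h1, h2]
      simp only [map_neg]
      ring_nf

end Pool.Agent.H54.SZ
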