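import Pool.Agent.H54.SZ.A
/-! MP_0e09bd_lc (PI helper54): irreducible integer polynomials with a common rational zero `y = b' / a'` (lowest terms) are all equal to
`± (a' X - b')`. Proof: `f` irreducible of positive degree is primitive (`Irreducible.isPrimitive`), `Q f` is irreducible
(`IsPrimitive.Int.irreducible_iff_irreducible_map_cast`), has the root `y`, so is associated to `X - C y`; the linear polynomial `C a' * X - C b'` is primitive (coprime) and over the
rationals associated to `f`; two primitive integer polynomials associated over the rationals are associated over the integers (`Polynomial.IsPrimitive.Int.dvd_iff_map_cast_dvd_map_cast`),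
and the units of `ℤ[X]` are `± 1`. -/
set_option autoImplicit false
namespace Pool.Agent.H54.SZ
open Polynomial

/-- the linear polynomial of a rational number in lowest terms is primitive -/
theorem lin_primitive (y : ℚ) : (C (y.den : ℤ) * X + C (-y.num) : ℤ[X]).IsPrimitive := by
  intro r hr
  rw [C_dvd_iff_dvd_coeff] at hr
  have h1 : r ∣ (y.den : ℤ) := by
    have h := hr 1
    rw [coeff_add, coeff_C_mul, coeff_X_one, coeff_C, if_neg one_ne_zero, mul_one, add_zero] at h
    exact h
  have h0 : r ∣ y.num := by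
    have h := hr 0
    rw [coeff_add, coeff_C_mul, coeff_X_zero, coeff_C_zero, mul_zero, zero_add, dvd_neg] at h
    exact h
  have hc : IsCoprime (y.num) (y.den : ℤ) := by
    rw [Int.isCoprime_iff_gcd_eq_one]
    have := y.reduced
    rw [Int.gcd_eq_natAbs, Int.natAbs_natCast]
    exact this
  exact hc.isUnit_of_dvd' h0 h1

theorem common_zero (P : Finset ℤ[X]) (hP : ∀ f ∈ P, Irreducible f ∧ 0 < f.natDegree) (y : ℚ)
    (hy : ∀ f ∈ P, aeval y f = 0) : ∃ a b : ℤ, ∀ f ∈ P, f = C a * X + C b ∨ f = -(C a * X + C b) := by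
  refine ⟨y.den, -y.num, ?_⟩
  intro f hf
  obtain ⟨hirr, hdeg⟩ := hP f hf
  have hden : ((y.den : ℤ) : ℚ) ≠ 0 := by exact_mod_cast y.den_ne_zero
  have hden' : (y.den : ℤ) ≠ 0 := by exact_mod_cast y.den_ne_zero
  have hg : (C (y.den : ℤ) * X + C (-y.num) : ℤ[X]) ∣ f := by
    rw [IsPrimitive.Int.dvd_iff_map_cast_dvd_map_cast _ _ (lin_primitive y)]
    have h1 : (C (y.den : ℤ) * X + C (-y.num) : ℤ[X]).map (Int.castRingHom ℚ) =
        C ((y.den : ℤ) : ℚ) * (X - C y) := by
      have h2 : ((y.den : ℤ) : ℚ) * y = y.num := by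
        rw [mul_comm]
        exact_mod_cast Rat.mul_den_eq_num y
      simp only [Polynomial.map_add, Polynomial.map_mul, map_C, map_X, eq_intCast, Int.cast_neg, map_neg]
      rw [mul_sub, ← C_mul, h2]
      simp [sub_eq_add_neg]
    rw [h1]
    have h3 : (X - C y) ∣ f.map (Int.castRingHom ℚ) := by
      rw [dvd_iff_isRoot, IsRoot.def, eval_map]
      have := hy f hf
      rw [aeval_def] at this
      rw [show (Int.castRingHom ℚ) = algebraMap ℤ ℚ from RingHom.ext_int _ _]
      exact this
    obtain ⟨q, hq⟩ := h3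
    refine ⟨C (((y.den : ℤ) : ℚ)⁻¹) * q, ?_⟩
    rw [hq]
    have h4 : (C ((y.den : ℤ) : ℚ) : ℚ[X]) * C (((y.den : ℤ) : ℚ)⁻¹) = 1 := by
      rw [← C_mul, mul_inv_cancel₀ hden, C_1]
    linear_combination (-(X - C y) * q) * h4
  obtain ⟨u, hu⟩ := hg
  have hnu : ¬ IsUnit (C (y.den : ℤ) * X + C (-y.num) : ℤ[X]) := by
    intro h
    have h1 := natDegree_eq_zero_of_isUnit h
    rw [natDegree_linear hden'] at h1
    exact one_ne_zero h1
  have huu : IsUnit u := (hirr.isUnit_or_isUnit hu).resolve_left hnu
  obtain ⟨c, hc, hcu⟩ := Polynomial.isUnit_iff.mp huu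
  rcases Int.isUnit_iff.mp hc with h | h
  · left
    rw [hu, ← hcu, h]
    simp
  · right
    rw [hu, ← hcu, h]
    simp

end Pool.Agent.H54.SZ
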