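import Mathlib
/-! MP_0e09bd_lc (PI helper54): if `P(f(x))` is a polynomial in `x^d`, `d ∣ deg f`, then `f` is a polynomial in `x^d` (characteristic 0).
Proof: write `f = a + b` with `a` the part of `f` with exponents divisible by `d` (`a = u.comp (X^d)`), `b` the rest (no exponent divisible by `d`). Suppose `b ≠ 0`. As `d ∣ natDegree f`,
`natDegree b < natDegree a = natDegree f`. `P(a + b) - P(a) = b * Φ`, `Φ = ∑_j p_j ∑_{i<j} (a+b)^i a^(j-1-i)`; the coefficient of `Φ` at `(D-1) natDegree a` is `D p_D lc(a)^(D-1) ≠ 0` and it is the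
degree of `Φ` (D = natDegree P ≥ 1). So `natDegree (P(a+b) - P(a)) = (D-1) natDegree a + natDegree b`, not divisible by `d`; but `P(a+b) = G(x^d)` and `P(a)` are both
polynomials in `x^d`, so the degree of the difference is a multiple of `d` (the difference is `G'.comp (X^d)`). Contradiction. Alternative: roots of unity over the complex numbers:
for `ζ^d = 1`, `f(ζ x)` and `f(x)` have the same leading coefficient and `P(f(ζ x)) = P(f(x))`, so `(f(ζx) - f(x)) * Φ = 0` with `Φ ≠ 0`. -/
set_option autoImplicit false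
namespace Pool.Agent.H54.SZ
open Polynomial

theorem comp_pow (P f G : ℚ[X]) (d : ℕ) (hd : 0 < d) (h : P.comp f = G.comp (X ^ d))
    (hP : 0 < P.natDegree) (hdiv : d ∣ f.natDegree) (hf : 0 < f.natDegree) :
    ∃ u : ℚ[X], f = u.comp (X ^ d) := by
  classical
  refine ⟨contract d f, ?_⟩
  rw [← expand_eq_comp_X_pow]
  set u := contract d f with hu
  set a := expand ℚ d u with ha
  set b := f - a with hb
  set N := f.natDegree with hN
  have hacoeff : ∀ n, a.coeff n = if d ∣ n then f.coeff n else 0 := by
    intro n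
    rw [ha, coeff_expand hd]
    split_ifs with hn
    · rw [hu, coeff_contract hd.ne', Nat.div_mul_cancel hn]
    · rfl
  have hbcoeff : ∀ n, b.coeff n = if d ∣ n then 0 else f.coeff n := by
    intro n
    rw [hb, coeff_sub, hacoeff]
    split_ifs <;> simp
  by_contra hne
  have hb0 : b ≠ 0 := fun h0 => hne (sub_eq_zero.1 h0)
  set m := b.natDegree with hm
  have hbm : b.coeff m ≠ 0 := by
    rw [hm, coeff_natDegree]
    exact leadingCoeff_ne_zero.2 hb0
  have hdm : ¬ d ∣ m := by
    intro hdm
    exact hbm (by rw [hbcoeff, if_pos hdm])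
  have haN : a.natDegree ≤ N := by
    rw [natDegree_le_iff_coeff_eq_zero]
    intro n hn
    rw [hacoeff, coeff_eq_zero_of_natDegree_lt hn, ite_self]
  have haF : a.coeff N = f.coeff N := by rw [hacoeff, if_pos hdiv]
  have hF : f.coeff N ≠ 0 := by
    rw [hN, coeff_natDegree]
    refine leadingCoeff_ne_zero.2 fun h0 => ?_
    rw [hN, h0, natDegree_zero] at hf
    exact lt_irrefl _ hf
  have hSdeg : ∀ j, (∑ i ∈ Finset.range j, f ^ i * a ^ (j - 1 - i)).natDegree ≤ (j - 1) * N := by
    intro j
    apply natDegree_sum_le_of_forall_le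
    intro i hi
    have hi' := Finset.mem_range.1 hi
    refine natDegree_mul_le.trans ?_
    have h1 : (f ^ i).natDegree ≤ i * N := natDegree_pow_le
    have h2 : (a ^ (j - 1 - i)).natDegree ≤ (j - 1 - i) * N :=
      natDegree_pow_le.trans (Nat.mul_le_mul_left _ haN)
    calc _ ≤ i * N + (j - 1 - i) * N := add_le_add h1 h2
      _ = (j - 1) * N := by
        rw [← Nat.add_mul]
        congr 1
        omega
  have hScoeff : ∀ j, (∑ i ∈ Finset.range j, f ^ i * a ^ (j - 1 - i)).coeff ((j - 1) * N)
      = j * f.coeff N ^ (j - 1) := by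
    intro j
    rw [finsetSum_coeff]
    have hterm : ∀ i ∈ Finset.range j, (f ^ i * a ^ (j - 1 - i)).coeff ((j - 1) * N)
        = f.coeff N ^ (j - 1) := by
      intro i hi
      have hi' := Finset.mem_range.1 hi
      have e : (j - 1) * N = i * N + (j - 1 - i) * N := by
        rw [← Nat.add_mul]
        congr 1
        omega
      have e2 : i + (j - 1 - i) = j - 1 := by omega
      rw [e, coeff_mul_add_eq_of_natDegree_le natDegree_pow_le
        (natDegree_pow_le.trans (Nat.mul_le_mul_left _ haN)), coeff_pow_of_natDegree_le le_rfl,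
        coeff_pow_of_natDegree_le haN, haF, ← pow_add, e2]
    rw [Finset.sum_congr rfl hterm, Finset.sum_const, Finset.card_range, nsmul_eq_mul]
  have hdiff : ∀ j, f ^ j - a ^ j = (∑ i ∈ Finset.range j, f ^ i * a ^ (j - 1 - i)) * b := by
    intro j
    rw [hb, geom_sum₂_mul]
  have hΔ : (P.comp f - P.comp a).coeff ((P.natDegree - 1) * N + m)
      = P.coeff P.natDegree * (P.natDegree * f.coeff N ^ (P.natDegree - 1) * b.coeff m) := by
    have e : P.comp f - P.comp a
        = ∑ j ∈ Finset.range (P.natDegree + 1), C (P.coeff j) * (f ^ j - a ^ j) := by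
      rw [comp, comp, eval₂_eq_sum_range, eval₂_eq_sum_range, ← Finset.sum_sub_distrib]
      exact Finset.sum_congr rfl fun j _ => by rw [mul_sub]
    rw [e, finsetSum_coeff, Finset.sum_range_succ, Finset.sum_eq_zero, zero_add, coeff_C_mul,
      hdiff, coeff_mul_add_eq_of_natDegree_le (hSdeg _) le_rfl, hScoeff]
    intro j hj
    have hj' := Finset.mem_range.1 hj
    rw [coeff_C_mul, hdiff]
    rcases Nat.eq_zero_or_pos j with rfl | hjpos
    · simp
    have h0 : ((∑ i ∈ Finset.range j, f ^ i * a ^ (j - 1 - i)) * b).coeff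
        ((P.natDegree - 1) * N + m) = 0 := by
      apply coeff_eq_zero_of_natDegree_lt
      refine lt_of_le_of_lt (natDegree_mul_le.trans (Nat.add_le_add_right (hSdeg j) _)) ?_
      have h1 : (j - 1) * N < (P.natDegree - 1) * N := Nat.mul_lt_mul_of_pos_right (by omega) hf
      exact Nat.add_lt_add_right h1 _
    rw [h0, mul_zero]
  have hz : (P.comp f - P.comp a).coeff ((P.natDegree - 1) * N + m) = 0 := by
    have e : P.comp f - P.comp a = expand ℚ d (G - P.comp u) := by
      rw [h, ha, expand_eq_comp_X_pow, expand_eq_comp_X_pow, sub_comp, comp_assoc]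
    rw [e, coeff_expand hd, if_neg]
    intro hk
    exact hdm ((Nat.dvd_add_right (Dvd.dvd.mul_left hdiv _)).1 hk)
  rw [hΔ] at hz
  have hnz : P.coeff P.natDegree * (P.natDegree * f.coeff N ^ (P.natDegree - 1) * b.coeff m)
      ≠ 0 := by
    apply mul_ne_zero
    · rw [coeff_natDegree]
      refine leadingCoeff_ne_zero.2 fun h0 => ?_
      rw [h0, natDegree_zero] at hP
      exact lt_irrefl _ hP
    · exact mul_ne_zero (mul_ne_zero (by exact_mod_cast hP.ne') (pow_ne_zero _ hF)) hbm
  exact hnz hz

end Pool.Agent.H54.SZ
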