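import Pool.Agent.H54.SZ.G5
import Pool.Agent.H54.SZ.G6
import Pool.Agent.H54.SZ.D1
import Pool.Agent.H54.SZ.E3
import Pool.Agent.H54.SZ.E4
import Pool.Agent.H54.SZ.E5
import Pool.Agent.H54.SZ.E6
/-! MP_0e09bd_lc: assembly of the independence theorem. -/
set_option autoImplicit false
namespace Pool.Agent.H54.SZ
open Polynomial Filter

/-- clearing the denominator in a composition -/
theorem compose2 (w m : K) (n : ℤ) (f g : ℤ[X]) (hf : (n : K) * m = aeval w f) :
    (n : K) ^ g.natDegree * aeval m g = aeval w ((g.scaleRoots n).comp f) := by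
  rw [Polynomial.aeval_comp, ← hf]
  have := Polynomial.scaleRoots_eval₂_mul (p := g) (algebraMap ℤ K) m n
  simpa [Polynomial.aeval_def] using this.symm

theorem small_deg2 (w : K) (hw : ∀ n : ℤ, (n : K) < w) (m : K) (n : ℤ) (hn : n ≠ 0) (f : ℤ[X])
    (hf : (n : K) * m = aeval w f) (g : ℤ[X]) (hd : f.natDegree < g.natDegree) :
    |m| < |aeval w g| := by
  have h1 := ev_lt w hw f g hd 1
  rw [Int.cast_one, one_mul, ← hf, abs_mul] at h1
  have h2 : (1 : K) ≤ |(n : K)| := by
    rw [← Int.cast_abs]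
    exact_mod_cast Int.one_le_abs hn
  calc |m| = 1 * |m| := (one_mul _).symm
    _ ≤ |(n : K)| * |m| := mul_le_mul_of_nonneg_right h2 (abs_nonneg _)
    _ < _ := h1

theorem Q_natDegree (p : ℤ[X]) : (Q p).natDegree = p.natDegree :=
  Polynomial.natDegree_map_eq_of_injective (RingHom.injective_int _) p

theorem Zp_natDegree (B : ℕ) (c : ℤ) (d : ℕ) : (Zp B c d).natDegree = d := by
  unfold Zp
  rw [Polynomial.natDegree_add_C, Polynomial.natDegree_C_mul_X_pow _ _
    (by exact_mod_cast Nat.factorial_ne_zero B)]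

theorem comp_scale (f F : ℤ[X]) (n : ℤ) (hn : n ≠ 0) :
    Q ((f.scaleRoots n).comp F) =
      C ((n : ℚ) ^ f.natDegree) * (Q f).comp (C ((n : ℚ)⁻¹) * Q F) := by
  have hn' : (n : ℚ) ≠ 0 := by exact_mod_cast hn
  have h1 := Polynomial.scaleRoots_eval₂_mul (p := f) ((C : ℚ →+* ℚ[X]).comp (Int.castRingHom ℚ))
    (C ((n : ℚ)⁻¹) * Q F) n
  have h2 : ((C : ℚ →+* ℚ[X]).comp (Int.castRingHom ℚ)) n * (C ((n : ℚ)⁻¹) * Q F) = Q F := by
    have e : ((C : ℚ →+* ℚ[X]).comp (Int.castRingHom ℚ)) n = C (n : ℚ) := rfl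
    rw [e, ← mul_assoc, ← C_mul, mul_inv_cancel₀ hn', C_1, one_mul]
  rw [h2] at h1
  rw [Q, Polynomial.map_comp]
  simp only [Polynomial.comp, Polynomial.eval₂_map]
  rw [h1]
  simp

theorem comp_cancel (p q : ℚ[X]) (A c : ℚ) (d : ℕ) (hd : 0 < d) (hA : A ≠ 0)
    (h : p.comp (C A * X ^ d + C c) = q.comp (C A * X ^ d + C c)) : p = q := by
  have h1 : (p - q).comp (C A * X ^ d + C c) = 0 := by rw [sub_comp, h, sub_self]
  rw [Polynomial.comp_eq_zero_iff] at h1
  rcases h1 with h1 | h1
  · exact sub_eq_zero.1 h1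
  · exfalso
    have h2 := congrArg Polynomial.natDegree h1.2
    rw [Polynomial.natDegree_C, Polynomial.natDegree_add_C, Polynomial.natDegree_C_mul_X_pow _ _ hA] at h2
    omega

theorem indep (SS : Set (Finset ℤ[X])) (hSS : ∀ P ∈ SS, Adm P) :
    ∃ R : Subring ((hyperfilter ℕ : Filter ℕ).Germ ℤ),
    (∃ w : R, ∀ n : ℤ, (n : R) < w) ∧
    (∀ a b : R, 0 < b → ∃ q r : R, a = b * q + r ∧ 0 ≤ r ∧ r < b) ∧
    IsBezout R ∧
    (∀ P ∈ SS, ∀ B : R, ∃ m : R, B < m ∧ ∀ f ∈ P, Prime (aeval m f)) ∧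
    (∀ P : Finset ℤ[X], Adm P → P.Nonempty →
      (∀ B : R, ∃ m : R, B < |m| ∧ ∀ f ∈ P, Irreducible (aeval m f)) →
      ∃ S ∈ SS, ∃ u : ℚ[X], ∀ f ∈ P, ∃ g ∈ S,
        (f.map (Int.castRingHom ℚ)).comp u = g.map (Int.castRingHom ℚ) ∨
        (f.map (Int.castRingHom ℚ)).comp u = - g.map (Int.castRingHom ℚ)) := by
  classical
  have hcP : Countable ℤ[X] := by
    rw [← Cardinal.mk_le_aleph0_iff]
    refine Polynomial.cardinalMk_le_max.trans ?_
    simp
  have hne : Nonempty {P : Finset ℤ[X] // P ∈ SS ∨ P = ∅} := ⟨⟨∅, Or.inr rfl⟩⟩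
  obtain ⟨e, he⟩ := exists_surjective_nat {P : Finset ℤ[X] // P ∈ SS ∨ P = ∅}
  set SSf : ℕ → Finset ℤ[X] := fun l => (e l.unpair.1).1 with hSSf
  have hAdm0 : Adm (∅ : Finset ℤ[X]) := by
    constructor
    · intro f hf; simp at hf
    · intro p hp
      refine ⟨0, ?_⟩
      simp only [Finset.prod_empty]
      intro h
      have := Int.eq_one_of_dvd_one (by positivity) h
      exact hp.one_lt.ne' (by exact_mod_cast this)
  have hAdm : ∀ l, Adm (SSf l) := by
    intro l
    rcases (e l.unpair.1).2 with h | h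
    · exact hSS _ h
    · have : SSf l = ∅ := h
      rw [this]; exact hAdm0
  obtain ⟨B, d, c, r, hd, hmono, hdeg, hirr, hU, hR⟩ := data2 SSf hAdm
  obtain ⟨w, hw, hwp⟩ := exists_omega r
  have hdl : ∀ l, l ≤ d l := fun l => hmono.id_le l
  set Ys : (Σ l, {f : ℤ[X] // f ∈ SSf l}) → ℤ[X] :=
    fun i => i.2.1.comp (Zp (B i.1) (c i.1) (d i.1)) with hYs
  have hY1 : ∀ i, Irreducible (Q (Ys i)) := fun i => hirr i.1 i.2.1 i.2.2
  have hY2 : ∀ i (p : ℕ), p.Prime → ¬ (p : K) ∣ aeval w (Ys i) := by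
    intro i p hp
    rw [dvd_iff w p (r p) (hwp p hp)]
    exact hU i.1 i.2.1 i.2.2 p hp
  have hR' : ∀ h : ℤ[X], Irreducible (Q h) → (∃ i, Associated (Q (Ys i)) (Q h)) ∨
      ∀ N : ℕ, ∃ p : ℕ, p.Prime ∧ N < p ∧ (p : K) ∣ aeval w h := by
    intro h hh
    rcases hR h hh with ⟨l, f, hf, h1⟩ | h1
    · exact Or.inl ⟨⟨l, f, hf⟩, h1⟩
    · right
      intro N
      obtain ⟨p, hp, hN, hdv⟩ := h1 N
      exact ⟨p, hp, hN, (dvd_iff w p (r p) (hwp p hp) h).2 hdv⟩
  have hYdeg : ∀ i, (Ys i).natDegree = i.2.1.natDegree * d i.1 := by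
    intro i
    rw [hYs]
    simp only
    rw [Polynomial.natDegree_comp, Zp_natDegree]
  have hwpos : (0 : K) < w := by simpa using hw 0
  have hw1 : (1 : K) < w := by simpa using hw 1
  refine ⟨R w, ⟨⟨w, by simpa using aeval_mem w X⟩, ?_⟩, R_div w hw, R_bezout w, ?_, ?_⟩
  · intro n
    rw [← Subtype.coe_lt_coe]
    simpa using hw n
  · intro P hP B0
    obtain ⟨n, F, hn, hF⟩ := B0.2
    obtain ⟨i0, hi0⟩ := he ⟨P, Or.inl hP⟩
    set l := Nat.pair i0 (F.natDegree + 1) with hl
    have hSl : SSf l = P := by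
      rw [hSSf]
      simp only
      rw [hl, Nat.unpair_pair, hi0]
    have hlF : F.natDegree < d l := by
      have h1 : F.natDegree + 1 ≤ l := Nat.right_le_pair _ _
      have h2 := hdl l
      omega
    have hval : aeval w (Zp (B l) (c l) (d l)) = (((B l).factorial : ℤ) : K) * w ^ (d l) + (c l : K) := by
      simp [Zp]
    refine ⟨⟨_, aeval_mem w (Zp (B l) (c l) (d l))⟩, ?_, ?_⟩
    · rw [← Subtype.coe_lt_coe]
      have h1 := small_deg2 w hw B0 n hn F hF (Zp (B l) (c l) (d l)) (by rw [Zp_natDegree]; exact hlF)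
      have h2 : 0 < aeval w (Zp (B l) (c l) (d l)) := by
        rw [hval]
        have h3 : w ≤ w ^ (d l) := le_self_pow₀ hw1.le (hd l).pos.ne'
        have h4 : (1 : K) ≤ (((B l).factorial : ℤ) : K) := by
          exact_mod_cast Nat.succ_le_of_lt (Nat.factorial_pos (B l))
        have h5 : w ^ (d l) ≤ (((B l).factorial : ℤ) : K) * w ^ (d l) := by
          have := mul_le_mul_of_nonneg_right h4 (pow_pos hwpos (d l)).le
          simpa using this
        have h6 : ((-(c l) : ℤ) : K) < w := hw (-(c l))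
        push_cast at h6
        have h7 := add_lt_add_of_lt_of_le h6 (h3.trans h5)
        have h8 := h3.trans h5
        linarith
      rw [abs_of_pos h2] at h1
      exact lt_of_le_of_lt (le_abs_self _) h1
    · intro f hf
      rw [← hSl] at hf
      have hbez := R_bezout w
      let hgcd := IsBezout.toGCDDomain (R w)
      rw [← irreducible_iff_prime]
      apply R_irr w hw _ (hirr l f hf) (hY2 ⟨l, f, hf⟩)
      have h1 := Polynomial.aeval_algHom_apply (R w).subtype.toIntAlgHom
        (⟨_, aeval_mem w (Zp (B l) (c l) (d l))⟩ : R w) f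
      rw [Polynomial.aeval_comp]
      exact h1.symm
  · intro P hPA hPn hH
    set Dm : ℕ := P.sup Polynomial.natDegree with hDm
    have hDm' : ∀ f ∈ P, f.natDegree ≤ Dm := fun f hf => Finset.le_sup (f := Polynomial.natDegree) hf
    set E : ℕ := 2 + ∑ l ∈ Finset.range (Dm + 1), ∑ g ∈ SSf l, g.natDegree * d l with hE
    obtain ⟨m, hm, hmI⟩ := hH ⟨w ^ E, by have h0 := aeval_mem w (X ^ E); rwa [map_pow, aeval_X] at h0⟩
    have hm' : w ^ E < |(m : K)| := by
      rw [← Subtype.coe_lt_coe] at hm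
      exact hm
    obtain ⟨n, F, hn, hF⟩ := m.2
    have hFdeg : E ≤ F.natDegree := by
      by_contra hlt
      push Not at hlt
      have h1 := small_deg2 w hw m n hn F hF (X ^ E) (by rw [Polynomial.natDegree_X_pow]; exact hlt)
      rw [map_pow, aeval_X, abs_of_pos (pow_pos hwpos E)] at h1
      exact absurd (hm'.trans h1) (lt_irrefl _)
    have hnK : (n : K) ≠ 0 := by exact_mod_cast hn
    have hnQ : (n : ℚ) ≠ 0 := by exact_mod_cast hn
    have hFpos : 0 < F.natDegree := by omega
    -- every value is plus or minus some `Ys i`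
    have key : ∀ f ∈ P, ∃ i, ((Q f).comp (C ((n : ℚ)⁻¹) * Q F) = Q (Ys i) ∨
        (Q f).comp (C ((n : ℚ)⁻¹) * Q F) = - Q (Ys i)) ∧
        f.natDegree * F.natDegree = i.2.1.natDegree * d i.1 := by
      intro f hf
      have hG := compose2 w m n F f hF
      have hGd : ((f.scaleRoots n).comp F).natDegree = f.natDegree * F.natDegree := by
        rw [Polynomial.natDegree_comp, Polynomial.natDegree_scaleRoots]
      have hfd := (hPA.irr f hf).2
      have hcoe : ((aeval m f : R w) : K) = aeval (m : K) f :=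
        (Polynomial.aeval_algHom_apply (R w).subtype.toIntAlgHom m f).symm
      have hinf : ∀ k : ℤ, ((aeval m f : R w) : K) ≠ (k : K) := by
        intro k hk
        rw [hcoe] at hk
        rw [hk] at hG
        have h1 := ev_large w hw ((f.scaleRoots n).comp F)
          (by rw [hGd]; exact Nat.mul_pos hfd hFpos) (|n ^ f.natDegree * k|)
        rw [← hG] at h1
        push_cast at h1
        exact lt_irrefl _ h1
      obtain ⟨i, hi⟩ := R_class w hw Ys hY1 hY2 hR' (aeval m f) (hmI f hf) hinf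
      rw [hcoe] at hi
      have hnp : n ^ f.natDegree ≠ 0 := pow_ne_zero _ hn
      have hnpQ : C ((n : ℚ) ^ f.natDegree) ≠ 0 := by
        rw [Ne, Polynomial.C_eq_zero]; exact pow_ne_zero _ hnQ
      refine ⟨i, ?_, ?_⟩
      · rcases hi with hi | hi
        · left
          rw [hi] at hG
          have h1 : aeval w (C (n ^ f.natDegree) * Ys i) = aeval w ((f.scaleRoots n).comp F) := by
            rw [← hG]; simp
          have h2 := ev_inj w hw _ _ h1
          have h3 := congrArg Q h2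
          rw [comp_scale f F n hn] at h3
          apply mul_left_cancel₀ hnpQ
          rw [← h3]
          simp [Q]
        · right
          rw [hi] at hG
          have h1 : aeval w (C (n ^ f.natDegree) * -Ys i) = aeval w ((f.scaleRoots n).comp F) := by
            rw [← hG]; simp
          have h2 := ev_inj w hw _ _ h1
          have h3 := congrArg Q h2
          rw [comp_scale f F n hn] at h3
          apply mul_left_cancel₀ hnpQ
          rw [← h3]
          simp [Q]
      · rw [← hYdeg i]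
        rcases hi with hi | hi
        · rw [hi] at hG
          have h1 : aeval w (C (n ^ f.natDegree) * Ys i) = aeval w ((f.scaleRoots n).comp F) := by
            rw [← hG]; simp
          have h2 := ev_inj w hw _ _ h1
          rw [← hGd, ← h2, Polynomial.natDegree_C_mul hnp]
        · rw [hi] at hG
          have h1 : aeval w (C (n ^ f.natDegree) * -Ys i) = aeval w ((f.scaleRoots n).comp F) := by
            rw [← hG]; simp
          have h2 := ev_inj w hw _ _ h1
          rw [← hGd, ← h2, Polynomial.natDegree_C_mul hnp, Polynomial.natDegree_neg]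
    -- the level divides the degree
    have hlev : ∀ f ∈ P, ∀ i : (Σ l, {f : ℤ[X] // f ∈ SSf l}),
        f.natDegree * F.natDegree = i.2.1.natDegree * d i.1 → d i.1 ∣ F.natDegree := by
      intro f hf i hi
      have hfd := (hPA.irr f hf).2
      have h1 : Dm < d i.1 := by
        by_contra hle
        push Not at hle
        have h2 : i.1 ∈ Finset.range (Dm + 1) := by
          rw [Finset.mem_range]
          have := hdl i.1
          omega
        have h3 : i.2.1.natDegree * d i.1 ≤ ∑ g ∈ SSf i.1, g.natDegree * d i.1 :=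
          Finset.single_le_sum (f := fun g : ℤ[X] => g.natDegree * d i.1) (fun _ _ => Nat.zero_le _) i.2.2
        have h4 : ∑ g ∈ SSf i.1, g.natDegree * d i.1 ≤
            ∑ l ∈ Finset.range (Dm + 1), ∑ g ∈ SSf l, g.natDegree * d l :=
          Finset.single_le_sum (f := fun l => ∑ g ∈ SSf l, g.natDegree * d l)
            (fun _ _ => Nat.zero_le _) h2
        have h5 : F.natDegree ≤ f.natDegree * F.natDegree := Nat.le_mul_of_pos_left _ hfd
        omega
      have h2 : d i.1 ∣ f.natDegree * F.natDegree := by rw [hi]; exact Dvd.intro_left _ rfl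
      rcases (hd i.1).dvd_mul.1 h2 with h3 | h3
      · exfalso
        have := Nat.le_of_dvd hfd h3
        have := hDm' f hf
        omega
      · exact h3
    have huniq : ∀ f1 ∈ P, ∀ f2 ∈ P, ∀ i1 i2 : (Σ l, {f : ℤ[X] // f ∈ SSf l}),
        f1.natDegree * F.natDegree = i1.2.1.natDegree * d i1.1 →
        f2.natDegree * F.natDegree = i2.2.1.natDegree * d i2.1 → ¬ i1.1 < i2.1 := by
      intro f1 hf1 f2 hf2 i1 i2 h1 h2 hlt
      obtain ⟨x, hx⟩ := hlev f1 hf1 i1 h1
      have h3 := hlev f2 hf2 i2 h2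
      have hxpos : 0 < x := by
        rcases Nat.eq_zero_or_pos x with h | h
        · subst h; simp at hx; omega
        · exact h
      have hx1 : x ≤ i1.2.1.natDegree := by
        rw [hx] at h1
        have h4 : f1.natDegree * x = i1.2.1.natDegree := by
          have hdp := (hd i1.1).pos
          apply Nat.eq_of_mul_eq_mul_right hdp
          rw [← h1]; ring
        rw [← h4]
        exact Nat.le_mul_of_pos_left _ (hPA.irr f1 hf1).2
      have hx2 : x < d i2.1 := lt_of_le_of_lt hx1 (hdeg i1.1 i2.1 hlt _ i1.2.2)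
      rw [hx] at h3
      rcases (hd i2.1).dvd_mul.1 h3 with h4 | h4
      · have h5 := (Nat.prime_dvd_prime_iff_eq (hd i2.1) (hd i1.1)).1 h4
        have h6 := hmono hlt
        omega
      · have := Nat.le_of_dvd hxpos h4
        omega
    obtain ⟨f1, hf1⟩ := hPn
    obtain ⟨i1, hi1, hi1d⟩ := key f1 hf1
    have hAQ : (((B i1.1).factorial : ℤ) : ℚ) ≠ 0 := by
      exact_mod_cast Nat.factorial_ne_zero (B i1.1)
    have hQY : ∀ i : (Σ l, {f : ℤ[X] // f ∈ SSf l}), Q (Ys i) =
        (Q i.2.1).comp (C (((B i.1).factorial : ℤ) : ℚ) * X ^ (d i.1) + C (c i.1 : ℚ)) := by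
      intro i
      rw [hYs]
      simp only [Q, Zp]
      rw [Polynomial.map_comp]
      simp
    have hQY2 : ∀ i : (Σ l, {f : ℤ[X] // f ∈ SSf l}), Q (Ys i) =
        ((Q i.2.1).comp (C (((B i.1).factorial : ℤ) : ℚ) * X + C (c i.1 : ℚ))).comp (X ^ (d i.1)) := by
      intro i
      rw [hQY i, Polynomial.comp_assoc]
      congr 1
      simp
    have hmd : (C ((n : ℚ)⁻¹) * Q F).natDegree = F.natDegree := by
      rw [Polynomial.natDegree_C_mul (inv_ne_zero hnQ), Q_natDegree]
    obtain ⟨u0, hu0⟩ : ∃ u0 : ℚ[X], C ((n : ℚ)⁻¹) * Q F = u0.comp (X ^ (d i1.1)) := by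
      have hfd : 0 < (Q f1).natDegree := by rw [Q_natDegree]; exact (hPA.irr f1 hf1).2
      rcases hi1 with hi1 | hi1
      · rw [hQY2 i1] at hi1
        exact comp_pow _ _ _ _ (hd i1.1).pos hi1 hfd
          (by rw [hmd]; exact hlev f1 hf1 i1 hi1d) (by rw [hmd]; exact hFpos)
      · rw [hQY2 i1, ← Polynomial.neg_comp] at hi1
        exact comp_pow _ _ _ _ (hd i1.1).pos hi1 hfd
          (by rw [hmd]; exact hlev f1 hf1 i1 hi1d) (by rw [hmd]; exact hFpos)
    have hS1 : SSf i1.1 ∈ SS := by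
      rcases (e i1.1.unpair.1).2 with h | h
      · exact h
      · exfalso
        have h1 : SSf i1.1 = ∅ := h
        exact Finset.ne_empty_of_mem i1.2.2 h1
    refine ⟨SSf i1.1, hS1,
      u0.comp (C ((((B i1.1).factorial : ℤ) : ℚ)⁻¹) * (X - C (c i1.1 : ℚ))), ?_⟩
    have hucomp : (u0.comp (C ((((B i1.1).factorial : ℤ) : ℚ)⁻¹) * (X - C (c i1.1 : ℚ)))).comp
        (C (((B i1.1).factorial : ℤ) : ℚ) * X ^ (d i1.1) + C (c i1.1 : ℚ)) =
        C ((n : ℚ)⁻¹) * Q F := by
      rw [hu0, Polynomial.comp_assoc]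
      congr 1
      simp only [mul_comp, sub_comp, C_comp, X_comp, add_sub_cancel_right]
      rw [← mul_assoc, ← C_mul, inv_mul_cancel₀ hAQ, C_1, one_mul]
    intro f hf
    obtain ⟨i, hi, hid⟩ := key f hf
    have hii : i.1 = i1.1 := by
      have h1 := huniq f hf f1 hf1 i i1 hid hi1d
      have h2 := huniq f1 hf1 f hf i1 i hi1d hid
      omega
    obtain ⟨l, g, hg⟩ := i
    simp only at hii
    subst hii
    refine ⟨g, hg, ?_⟩
    rcases hi with hi | hi
    · left
      apply comp_cancel _ _ (((B i1.1).factorial : ℤ) : ℚ) (c i1.1 : ℚ) (d i1.1) (hd i1.1).pos hAQ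
      rw [Polynomial.comp_assoc, hucomp]
      rw [hQY] at hi
      exact hi
    · right
      apply comp_cancel _ _ (((B i1.1).factorial : ℤ) : ℚ) (c i1.1 : ℚ) (d i1.1) (hd i1.1).pos hAQ
      rw [Polynomial.comp_assoc, hucomp, Polynomial.neg_comp]
      rw [hQY] at hi
      exact hi

end Pool.Agent.H54.SZ
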