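import Pool.Agent.H54.SZ.A
/-! MP_0e09bd_lc (PI helper54): admissible tuples of polynomials. -/
set_option autoImplicit false
namespace Pool.Agent.H54.SZ
open Polynomial

/-- an admissible tuple (instance of hypothesis H): a finite set of nonconstant irreducible integer polynomials whose product has no
fixed prime divisor -/
structure Adm (P : Finset ℤ[X]) : Prop where
  irr : ∀ f ∈ P, Irreducible f ∧ 0 < f.natDegree
  nofix : ∀ p : ℕ, p.Prime → ∃ k : ℤ, ¬ (p : ℤ) ∣ ∏ f ∈ P, f.eval k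

/-- the inner polynomial `B! x^d + c` -/
noncomputable def Zp (B : ℕ) (c : ℤ) (d : ℕ) : ℤ[X] := C (B.factorial : ℤ) * X ^ d + C c

theorem Adm.irrQ {P : Finset ℤ[X]} (hP : Adm P) (f : ℤ[X]) (hf : f ∈ P) : Irreducible (Q f) := by
  obtain ⟨h1, h2⟩ := hP.irr f hf
  have h3 : f.IsPrimitive := h1.isPrimitive h2.ne'
  exact (Polynomial.IsPrimitive.Int.irreducible_iff_irreducible_map_cast h3).1 h1

theorem Adm.primitive {P : Finset ℤ[X]} (hP : Adm P) (f : ℤ[X]) (hf : f ∈ P) : f.IsPrimitive := by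
  obtain ⟨h1, h2⟩ := hP.irr f hf
  exact h1.isPrimitive h2.ne'

end Pool.Agent.H54.SZ
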