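import Pool.Agent.H54.SZ.G0
/-! MP_0e09bd_lc (PI helper54): irreducibility of `S(A x^d + c)`.
Proof: over the rationals, `Q S` irreducible of degree `D`. Mathlib `Polynomial.irreducible_comp` (f, g monic, f irreducible, for every extension `E` and root
`x` of `f` the polynomial `g.map - C x` is irreducible): take `f` = the monic version of `(Q S).comp (C A * X)` and `g = X^d + C (c / A)`;
`f.comp g` is a constant times `Q (S.comp (C A * X^d + C c))`. For a root `x` of `f` in `E`, `E' = ℚ(x)`: `g - C x = X^d - C (x - c/A)` is irreducible by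
`X_pow_sub_C_irreducible_of_prime` (d prime) if `x - c/A` is not a `d`-th power IN `E` (this is what irreducible_comp asks: `E` any field; use it in the form stated in
Mathlib, `minpoly K x = f`; if `E` is too large replace: the polynomial is irreducible over `E` only if no `d`-th root in `E` exists, so read the exact
hypotheses of Mathlib's lemma, sed -n 600,660p of Mathlib/FieldTheory/IntermediateField/Adjoin/Basic.lean: there `x` generates `E`).
`x - c/A = b^d` with `b ∈ E = ℚ(x)`: take norms down to `ℚ`: `N(x - c/A) = ± f(c/A) = ± S(c) / (lc(S) A^D)` (`Algebra.norm` of `algebraMap c' - x`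
is `f(c')` for `f` the minimal polynomial of the generator `x`: e.g. `PowerBasis.norm_gen_eq_coeff_zero_minpoly` for the generator `x - c'`), and `= N(b)^d`. The `l`-adic
valuation (`padicValRat`) of the left side is 1 (`l` divides `S(c)` exactly once, not `A`, not the leading coefficient), of the right side a multiple of
`d ≥ 2`: contradiction. -/
set_option autoImplicit false
namespace Pool.Agent.H54.SZ
open Polynomial

/-- a norm criterion -/
theorem irr_comp_pow {K : Type} [Field K] {f : K[X]} (hfm : f.Monic) (hf : Irreducible f) {d : ℕ}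
    (hd : d.Prime) (h : ∀ (q : K) (e : ℕ), q ^ d ≠ (-1) ^ e * f.coeff 0) :
    Irreducible (f.comp (X ^ d)) := by
  refine irreducible_comp hfm (monic_X_pow d) hf ?_
  intro E _ _ x hx
  rw [Polynomial.map_pow, map_X]
  refine X_pow_sub_C_irreducible_of_prime hd ?_
  intro b hb
  have hxi : IsIntegral K x := by
    by_contra h
    have h5 := minpoly.eq_zero h
    rw [hx] at h5
    exact hfm.ne_zero h5
  refine h (Algebra.norm K b) (IntermediateField.adjoin.powerBasis hxi).dim ?_
  rw [← map_pow, hb, ← IntermediateField.adjoin.powerBasis_gen hxi,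
    Algebra.PowerBasis.norm_gen_eq_coeff_zero_minpoly]
  simp [IntermediateField.minpoly_gen, hx]

theorem irr_comp (S : ℤ[X]) (hS : Irreducible (Q S)) (A c : ℤ) (d : ℕ) (hd : d.Prime) (hA : A ≠ 0)
    (l : ℕ) (hl : l.Prime) (h1 : (l : ℤ) ∣ S.eval c) (h2 : ¬ (l : ℤ) ^ 2 ∣ S.eval c)
    (h3 : ¬ (l : ℤ) ∣ A) (h4 : ¬ (l : ℤ) ∣ S.leadingCoeff) :
    Irreducible (Q (S.comp (C A * X ^ d + C c))) := by
  have hA' : (A : ℚ) ≠ 0 := by exact_mod_cast hA
  have hinj : Function.Injective (Int.castRingHom ℚ) := Int.cast_injective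
  have hS0 : S ≠ 0 := by
    rintro rfl
    exact h4 (by simp)
  have hlcS : (S.leadingCoeff : ℚ) ≠ 0 := by
    exact_mod_cast leadingCoeff_ne_zero.2 hS0
  obtain ⟨T, hT⟩ : ∃ T : ℚ[X], T = (Q S).comp (C (A : ℚ) * X + C (c : ℚ)) := ⟨_, rfl⟩
  have hTirr : Irreducible T := by
    let _ : Invertible (A : ℚ) := invertibleOfNonzero hA'
    have h := (MulEquiv.irreducible_iff (algEquivCMulXAddC (A : ℚ) (c : ℚ))).2 hS
    rw [algEquivCMulXAddC_apply] at h
    rw [hT]
    exact h
  have hT0 : T ≠ 0 := hTirr.ne_zero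
  have hlinear : (C (A : ℚ) * X + C (c : ℚ)).natDegree = 1 := natDegree_linear hA'
  have hlinlc : (C (A : ℚ) * X + C (c : ℚ)).leadingCoeff = (A : ℚ) := leadingCoeff_linear hA'
  have hlcT : T.leadingCoeff = S.leadingCoeff * A ^ S.natDegree := by
    rw [hT, leadingCoeff_comp (by rw [hlinear]; exact one_ne_zero), hlinlc,
      leadingCoeff_map_of_injective hinj, natDegree_map_eq_of_injective hinj]
    simp
  have hT00 : T.coeff 0 = (S.eval c : ℤ) := by
    rw [coeff_zero_eq_eval_zero, hT, eval_comp]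
    simp only [eval_add, eval_mul, eval_C, eval_X, mul_zero, zero_add]
    rw [eval_intCast_map]
    simp
  have hcomp : Q (S.comp (C A * X ^ d + C c)) = T.comp (X ^ d) := by
    rw [Q, Polynomial.map_comp, hT, comp_assoc]
    simp
  have hlcT0 : T.leadingCoeff ≠ 0 := leadingCoeff_ne_zero.2 hT0
  obtain ⟨f, hf⟩ : ∃ f : ℚ[X], f = C (T.leadingCoeff)⁻¹ * T := ⟨_, rfl⟩
  have hfm : f.Monic := by
    rw [hf, mul_comm]
    exact monic_mul_leadingCoeff_inv hT0
  have hu : IsUnit (C (T.leadingCoeff)⁻¹ : ℚ[X]) := isUnit_C.2 (isUnit_iff_ne_zero.2 (inv_ne_zero hlcT0))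
  have hfirr : Irreducible f := by
    rw [hf]
    exact (irreducible_isUnit_mul hu).2 hTirr
  have hf0 : f.coeff 0 = (S.eval c : ℤ) / (S.leadingCoeff * A ^ S.natDegree) := by
    rw [hf, coeff_C_mul, hT00, hlcT, div_eq_inv_mul]
  have : Fact l.Prime := ⟨hl⟩
  have hSc : (S.eval c) ≠ 0 := by
    intro h
    rw [h] at h2
    exact h2 (dvd_zero _)
  have hval : padicValRat l (f.coeff 0) = 1 := by
    obtain ⟨k, hk⟩ := h1
    have hkl : ¬ (l : ℤ) ∣ k := by
      intro h
      apply h2
      rw [hk, pow_two]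
      exact mul_dvd_mul_left _ h
    have hk0 : (k : ℚ) ≠ 0 := by
      have : k ≠ 0 := by
        rintro rfl
        exact hkl (dvd_zero _)
      exact_mod_cast this
    have hl0 : ((l : ℕ) : ℚ) ≠ 0 := by exact_mod_cast hl.ne_zero
    have hden : ((S.leadingCoeff : ℚ) * A ^ S.natDegree) ≠ 0 := mul_ne_zero hlcS (pow_ne_zero _ hA')
    rw [hf0, hk]
    push_cast
    rw [padicValRat.div (mul_ne_zero hl0 hk0) hden, padicValRat.mul hl0 hk0,
      padicValRat.mul hlcS (pow_ne_zero _ hA'), padicValRat.pow, padicValRat.of_int,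
      padicValRat.of_int, padicValRat.of_int, padicValInt.eq_zero_of_not_dvd hkl,
      padicValInt.eq_zero_of_not_dvd h3, padicValInt.eq_zero_of_not_dvd h4,
      padicValRat.self hl.one_lt]
    simp
  have hfX : Irreducible (f.comp (X ^ d)) := by
    refine irr_comp_pow hfm hfirr hd ?_
    intro q e hn
    have hv := congrArg (padicValRat l) hn
    rw [padicValRat.pow] at hv
    have hv2 : padicValRat l ((-1) ^ e * f.coeff 0) = 1 := by
      rcases neg_one_pow_eq_or ℚ e with h | h
      · rw [h, one_mul, hval]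
      · rw [h, neg_one_mul, padicValRat.neg, hval]
    rw [hv2] at hv
    have h6 : (d : ℤ) ∣ 1 := ⟨_, hv.symm⟩
    have h7 : (d : ℤ) ≤ 1 := Int.le_of_dvd one_pos h6
    have h8 := hd.two_le
    omega
  rw [hcomp]
  have hTf : T = C T.leadingCoeff * f := by
    rw [hf, ← mul_assoc, ← C_mul, mul_inv_cancel₀ hlcT0, C_1, one_mul]
  rw [hTf, mul_comp, C_comp]
  exact (irreducible_isUnit_mul (isUnit_C.2 (isUnit_iff_ne_zero.2 hlcT0))).2 hfX

end Pool.Agent.H54.SZ
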