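import Pool.Agent.H54.SZ.G0
/-! MP_0e09bd_lc (PI helper54): choice of `c`.
Proof: for every `f ∈ P` a prime `l f > B`, the `l f` pairwise different, and `t f` with `l ∣ f(t)`, `l^2` not dividing `f(t)`, `l` not dividing the leading coefficient:
`schur f _ N` with `N` large gives `l > N`, `l ∣ f(t)`; `Q f` irreducible is coprime to its derivative (separable, char 0: `Irreducible.separable`), so (`clear` as in
`cop`) there is `D ≠ 0` with `z ∣ f(t), z ∣ f'(t) → z ∣ D`; with `N ≥ |D|` `l` does not divide `f'(t)`; if `l^2 ∣ f(t)` replace `t` by `t + l`: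
`f(t + l) ≡ f(t) + l f'(t)` mod `l^2` (`Polynomial.evalSubFactor` / `Polynomial.eval_add_of_sq_eq_zero` / taylor, `Polynomial.binomExpansion`). Different primes: induction on the Finset, the new prime larger than all
the previous ones. Then CRT (`Nat.chineseRemainderOfFinset` or `Ideal` version, or induction with `Int.emod_emod_of_dvd`/`Nat.chineseRemainder`): `c ≡ t f` mod `(l f)^2` for `f ∈ P`, `c ≡ k p` mod `p` for the
primes `p ≤ B`, `k p` from `hP.nofix`. `f(c) ≡ f(t)` mod `l^2`. -/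
set_option autoImplicit false
namespace Pool.Agent.H54.SZ
open Polynomial

/-- values of an irreducible polynomial and its derivative have a bounded common divisor -/
theorem copDer (h : ℤ[X]) (hh : Irreducible (Q h)) :
    ∃ D : ℤ, D ≠ 0 ∧ ∀ z t : ℤ, z ∣ h.eval t → z ∣ h.derivative.eval t → z ∣ D := by
  have hc : IsCoprime (Q h) (Q h.derivative) := by
    have h1 : (Q h).Separable := hh.separable
    rw [Polynomial.Separable, Polynomial.derivative_map] at h1
    exact h1
  obtain ⟨u, v, huv⟩ := hc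
  obtain ⟨D1, u', hD1, hu'⟩ := clear u
  obtain ⟨D2, v', hD2, hv'⟩ := clear v
  refine ⟨D1 * D2, mul_ne_zero hD1 hD2, ?_⟩
  have key : C D2 * u' * h + C D1 * v' * h.derivative = C (D1 * D2) := by
    apply Polynomial.map_injective (Int.castRingHom ℚ) (RingHom.injective_int _)
    simp only [Polynomial.map_add, Polynomial.map_mul, Polynomial.map_C]
    have e1 : u'.map (Int.castRingHom ℚ) = C (D1 : ℚ) * u := hu'
    have e2 : v'.map (Int.castRingHom ℚ) = C (D2 : ℚ) * v := hv'
    rw [e1, e2]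
    simp only [eq_intCast, map_mul]
    have : (C (D1:ℚ)) * C (D2:ℚ) * (u * Q h + v * Q h.derivative) = C (D1:ℚ) * C (D2:ℚ) := by
      rw [huv, mul_one]
    linear_combination this
  intro z t h1 h2
  have e := congrArg (Polynomial.eval t) key
  simp only [eval_add, eval_mul, eval_C] at e
  rw [← e]
  exact dvd_add (Dvd.dvd.mul_left h1 _) (Dvd.dvd.mul_left h2 _)

theorem not_dvd_small {l : ℕ} {D : ℤ} (hD : D ≠ 0) (h : D.natAbs < l) : ¬ (l : ℤ) ∣ D := by
  intro h1
  have h2 : l ∣ D.natAbs := Int.natCast_dvd.1 h1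
  have h3 := Nat.le_of_dvd (Int.natAbs_pos.2 hD) h2
  omega

theorem choose_one (f : ℤ[X]) (hf : Irreducible (Q f)) (hd : 0 < f.natDegree) (N : ℕ) :
    ∃ l : ℕ, l.Prime ∧ N < l ∧ ¬ (l : ℤ) ∣ f.leadingCoeff ∧
      ∃ t : ℤ, (l : ℤ) ∣ f.eval t ∧ ¬ (l : ℤ) ^ 2 ∣ f.eval t := by
  obtain ⟨D, hD, hDz⟩ := copDer f hf
  have hl : f.leadingCoeff ≠ 0 := by
    intro h
    rw [leadingCoeff_eq_zero] at h
    rw [h] at hd
    simp at hd
  obtain ⟨l, hlp, hlN, t, ht⟩ := schur f hd (N + D.natAbs + f.leadingCoeff.natAbs)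
  have hlD : ¬ (l : ℤ) ∣ D := not_dvd_small hD (by omega)
  refine ⟨l, hlp, by omega, not_dvd_small hl (by omega), ?_⟩
  by_cases h2 : (l : ℤ) ^ 2 ∣ f.eval t
  · obtain ⟨k, hk⟩ := Polynomial.binomExpansion f t (l : ℤ)
    refine ⟨t + l, ?_, ?_⟩
    · rw [hk]
      exact dvd_add (dvd_add ht (Dvd.intro_left _ rfl))
        (Dvd.dvd.mul_left (Dvd.intro_left ((l : ℤ) ^ 1) (by ring)) _)
    · intro h3
      rw [hk] at h3
      have h4 : (l : ℤ) ^ 2 ∣ f.derivative.eval t * l := by
        have h5 := dvd_sub (dvd_sub h3 h2) (Dvd.intro_left k rfl)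
        have h6 : eval t f + eval t (derivative f) * (l : ℤ) + k * (l : ℤ) ^ 2 - eval t f
            - k * (l : ℤ) ^ 2 = f.derivative.eval t * l := by ring
        rwa [h6] at h5
      have hl0 : (l : ℤ) ≠ 0 := by exact_mod_cast hlp.ne_zero
      rw [sq] at h4
      have h5 := (mul_dvd_mul_iff_right hl0).1 h4
      exact hlD (hDz _ _ ht h5)
  · exact ⟨t, ht, h2⟩

theorem crt2 (M N : ℤ) (h : IsCoprime M N) (c t : ℤ) : ∃ c' : ℤ, M ∣ c' - c ∧ N ∣ c' - t := by
  obtain ⟨u, v, huv⟩ := h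
  refine ⟨c * v * N + t * u * M, ⟨(t - c) * u, ?_⟩, ⟨(c - t) * v, ?_⟩⟩
  · linear_combination c * huv
  · linear_combination t * huv

theorem dvd_eval_iff (f : ℤ[X]) {m a b : ℤ} (h : m ∣ a - b) : m ∣ f.eval a ↔ m ∣ f.eval b := by
  have h1 : m ∣ f.eval a - f.eval b := h.trans (Polynomial.sub_dvd_eval_sub a b f)
  constructor
  · intro h2
    have := dvd_sub h2 h1
    simpa using this
  · intro h2
    have := dvd_add h1 h2
    simpa using this

theorem choose_small (P : Finset ℤ[X]) (hP : Adm P) (B : ℕ) : ∃ c : ℤ,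
    ∀ p : ℕ, p.Prime → p ≤ B → ∀ f ∈ P, ¬ (p : ℤ) ∣ f.eval c := by
  induction B with
  | zero =>
    refine ⟨0, fun p hp hle => ?_⟩
    exact absurd hp.pos (by omega)
  | succ B ih =>
    obtain ⟨c, hc⟩ := ih
    by_cases hB : (B + 1).Prime
    · obtain ⟨k, hk⟩ := hP.nofix (B + 1) hB
      have hcop : IsCoprime ((B.factorial : ℕ) : ℤ) ((B + 1 : ℕ) : ℤ) := by
        rw [Nat.isCoprime_iff_coprime]
        rw [Nat.coprime_comm]
        exact (Nat.coprime_factorial_iff hB.one_lt.ne').2 (by rw [hB.minFac_eq]; omega)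
      obtain ⟨c', h1, h2⟩ := crt2 _ _ hcop c k
      refine ⟨c', fun p hp hle f hf => ?_⟩
      rcases Nat.lt_or_ge B p with h3 | h3
      · have h4 : p = B + 1 := by omega
        subst h4
        rw [dvd_eval_iff f h2]
        intro h5
        exact hk (h5.trans (Finset.dvd_prod_of_mem _ hf))
      · have h4 : (p : ℤ) ∣ c' - c := by
          refine dvd_trans ?_ h1
          exact_mod_cast (hp.dvd_factorial).2 h3
        rw [dvd_eval_iff f h4]
        exact hc p hp h3 f hf
    · refine ⟨c, fun p hp hle f hf => ?_⟩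
      rcases Nat.lt_or_ge B p with h3 | h3
      · have h4 : p = B + 1 := by omega
        subst h4
        exact absurd hp hB
      · exact hc p hp h3 f hf

theorem choose_c (P : Finset ℤ[X]) (hP : Adm P) (B : ℕ) : ∃ c : ℤ,
    (∀ p : ℕ, p.Prime → p ≤ B → ∀ f ∈ P, ¬ (p : ℤ) ∣ f.eval c) ∧
    (∀ f ∈ P, ∃ l : ℕ, l.Prime ∧ B < l ∧ (l : ℤ) ∣ f.eval c ∧ ¬ (l : ℤ) ^ 2 ∣ f.eval c ∧
      ¬ (l : ℤ) ∣ f.leadingCoeff) := by
  classical
  obtain ⟨c₀, hc₀⟩ := choose_small P hP B
  have key : ∀ S : Finset ℤ[X], S ⊆ P → ∃ (c : ℤ) (M : ℕ), 0 < M ∧ B.factorial ∣ M ∧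
      (B.factorial : ℤ) ∣ c - c₀ ∧
      ∀ f ∈ S, ∃ l : ℕ, l.Prime ∧ B < l ∧ l ^ 2 ∣ M ∧ (l : ℤ) ∣ f.eval c ∧
        ¬ (l : ℤ) ^ 2 ∣ f.eval c ∧ ¬ (l : ℤ) ∣ f.leadingCoeff := by
    intro S
    induction S using Finset.induction_on with
    | empty =>
      intro _
      exact ⟨c₀, B.factorial, Nat.factorial_pos B, dvd_rfl, by simp, by simp⟩
    | insert f S hfS ih =>
      intro hS
      obtain ⟨c, M, hM, hBM, hc, hall⟩ := ih ((Finset.subset_insert f S).trans hS)
      have hf : f ∈ P := hS (Finset.mem_insert_self f S)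
      obtain ⟨l, hlp, hlN, hll, t, ht1, ht2⟩ :=
        choose_one f (hP.irrQ f hf) (hP.irr f hf).2 (M + B)
      have hcop : IsCoprime ((M : ℕ) : ℤ) ((l ^ 2 : ℕ) : ℤ) := by
        rw [Nat.isCoprime_iff_coprime]
        apply Nat.Coprime.pow_right
        rw [Nat.coprime_comm, Nat.Prime.coprime_iff_not_dvd hlp]
        intro h
        have := Nat.le_of_dvd hM h
        omega
      obtain ⟨c', h1, h2⟩ := crt2 _ _ hcop c t
      refine ⟨c', M * l ^ 2, Nat.mul_pos hM (pow_pos hlp.pos 2), hBM.mul_right _, ?_, ?_⟩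
      · have h3 : (B.factorial : ℤ) ∣ c' - c := dvd_trans (by exact_mod_cast hBM) h1
        have := dvd_add h3 hc
        simpa using this
      · intro g hg
        rcases Finset.mem_insert.1 hg with rfl | hg
        · refine ⟨l, hlp, by omega, Dvd.intro_left _ rfl, ?_, ?_, hll⟩
          · rw [dvd_eval_iff g (b := t)]
            · exact ht1
            · refine dvd_trans ?_ h2
              push_cast
              exact Dvd.intro_left ((l : ℤ) ^ 1) (by ring)
          · rw [dvd_eval_iff g (b := t)]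
            · exact ht2
            · refine dvd_trans ?_ h2
              push_cast
              exact dvd_rfl
        · obtain ⟨q, hq1, hq2, hq3, hq4, hq5, hq6⟩ := hall g hg
          have h3 : (q : ℤ) ^ 2 ∣ c' - c := dvd_trans (by exact_mod_cast hq3) h1
          refine ⟨q, hq1, hq2, hq3.mul_right _, ?_, ?_, hq6⟩
          · rw [dvd_eval_iff g (b := c)]
            · exact hq4
            · exact dvd_trans (Dvd.intro_left ((q : ℤ) ^ 1) (by ring)) h3
          · rw [dvd_eval_iff g h3]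
            exact hq5
  obtain ⟨c, M, hM, hBM, hc, hall⟩ := key P (Finset.Subset.refl P)
  refine ⟨c, fun p hp hle f hf => ?_, fun f hf => ?_⟩
  · have h4 : (p : ℤ) ∣ c - c₀ := by
      refine dvd_trans ?_ hc
      exact_mod_cast (hp.dvd_factorial).2 hle
    rw [dvd_eval_iff f h4]
    exact hc₀ p hp hle f hf
  · obtain ⟨l, h1, h2, h3, h4, h5, h6⟩ := hall f hf
    exact ⟨l, h1, h2, h4, h5, h6⟩

end Pool.Agent.H54.SZ
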