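import Pool.Agent.H54.SZ.G1
import Pool.Agent.H54.SZ.G2
/-! MP_0e09bd_lc (PI helper54): one stage of the general construction.
Proof: `d` prime `> D`; `B := (∑ deg) * d + N + 1`; `c` by `choose_c P hP B`; new polynomials `y = f.comp (Zp B c d)` are irreducible over the rationals by `irr_comp`
(`A = B!`, `l > B` does not divide `B!`). Let `all` = ys together with the new ones. If `h` is associated to one of them: the product of all is a nonzero polynomial, so there is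
an integer `t` with nonzero value (`Polynomial.funext`/infinite), `p` a prime larger than `B, M` and the absolute value of the product at `t`. Otherwise `cop h y` gives `D_y ≠ 0` for all `y`;
`schur h _ N'`, `N' ≥ B, M`, all `|D_y|`, gives `p`, `t` with `p ∣ h(t)`, and `p ∣ y(t)` would give `p ∣ D_y`. Compare with `step` in B2.lean (same proof). -/
set_option autoImplicit false
namespace Pool.Agent.H54.SZ
open Polynomial

private theorem not_dvd_G3 (p B : ℕ) (z : ℤ) (hz : z ≠ 0) (h1 : z.natAbs ≤ B) (h2 : B < p) :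
    ¬ (p : ℤ) ∣ z := by
  intro h
  have h3 : p ∣ z.natAbs := Int.natCast_dvd.1 h
  have h4 := Nat.le_of_dvd (Int.natAbs_pos.2 hz) h3
  omega

private theorem ne_zero_G3 {y : ℤ[X]} (hy : Irreducible (Q y)) : y ≠ 0 := by
  rintro rfl
  apply hy.ne_zero
  simp [Q]

private theorem exists_G3 (S : Finset ℤ[X]) (hS : ∀ y ∈ S, y ≠ 0) : ∃ t : ℤ, ∀ y ∈ S, y.eval t ≠ 0 := by
  have h1 : ∏ y ∈ S, y ≠ 0 := Finset.prod_ne_zero_iff.2 hS
  have h2 : ∃ t : ℤ, (∏ y ∈ S, y).eval t ≠ 0 := by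
    by_contra hcon
    push Not at hcon
    exact h1 (Polynomial.funext (fun t => by rw [hcon t, Polynomial.eval_zero]))
  obtain ⟨t, ht⟩ := h2
  rw [Polynomial.eval_prod, Finset.prod_ne_zero_iff] at ht
  exact ⟨t, ht⟩

theorem step2 (ys : Finset ℤ[X]) (hys : ∀ y ∈ ys, Irreducible (Q y)) (N D M : ℕ)
    (P : Finset ℤ[X]) (hP : Adm P) (h : ℤ[X]) (hh : Irreducible (Q h)) :
    ∃ (B d p : ℕ) (c t : ℤ), d.Prime ∧ D < d ∧ (∑ f ∈ P, f.natDegree) * d + N < B ∧
      (∀ f ∈ P, Irreducible (Q (f.comp (Zp B c d)))) ∧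
      (∀ p' : ℕ, p'.Prime → p' ≤ B → ∀ f ∈ P, ¬ (p' : ℤ) ∣ f.eval c) ∧
      p.Prime ∧ B < p ∧ M < p ∧
      (∀ y ∈ ys, ¬ (p : ℤ) ∣ y.eval t) ∧ (∀ f ∈ P, ¬ (p : ℤ) ∣ (f.comp (Zp B c d)).eval t) ∧
      ((∃ y ∈ ys, Associated (Q y) (Q h)) ∨ (∃ f ∈ P, Associated (Q (f.comp (Zp B c d))) (Q h)) ∨
        (p : ℤ) ∣ h.eval t) := by
  classical
  obtain ⟨d, hdge, hdp⟩ := Nat.exists_infinite_primes (D + 1)
  obtain ⟨B, hB⟩ : ∃ B, B = (∑ f ∈ P, f.natDegree) * d + N + 1 := ⟨_, rfl⟩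
  obtain ⟨c, hc1, hc2⟩ := choose_c P hP B
  have hnew : ∀ f ∈ P, Irreducible (Q (f.comp (Zp B c d))) := by
    intro f hf
    obtain ⟨l, hl, hBl, h1, h2, h4⟩ := hc2 f hf
    refine irr_comp f (hP.irrQ f hf) (B.factorial : ℤ) c d hdp ?_ l hl h1 h2 ?_ h4
    · exact_mod_cast B.factorial_ne_zero
    · intro h3
      have h5 : l ∣ B.factorial := by exact_mod_cast h3
      have h6 := (Nat.Prime.dvd_factorial hl).1 h5
      omega
  obtain ⟨al, hal⟩ : ∃ al : Finset ℤ[X], al = ys ∪ P.image (fun f => f.comp (Zp B c d)) := ⟨_, rfl⟩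
  have hmem : ∀ y, y ∈ al ↔ y ∈ ys ∨ ∃ f ∈ P, f.comp (Zp B c d) = y := by
    intro y
    rw [hal, Finset.mem_union, Finset.mem_image]
  have hall : ∀ y ∈ al, Irreducible (Q y) := by
    intro y hy
    rcases (hmem y).1 hy with h1 | ⟨f, hf, rfl⟩
    · exact hys y h1
    · exact hnew f hf
  have hys' : ∀ y ∈ ys, y ∈ al := fun y hy => (hmem y).2 (Or.inl hy)
  have hP' : ∀ f ∈ P, f.comp (Zp B c d) ∈ al := fun f hf => (hmem _).2 (Or.inr ⟨f, hf, rfl⟩)
  by_cases hcase : ∃ y ∈ al, Associated (Q y) (Q h)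
  · obtain ⟨t, ht⟩ := exists_G3 al (fun y hy => ne_zero_G3 (hall y hy))
    obtain ⟨p, hpge, hpp⟩ := Nat.exists_infinite_primes (al.sup (fun y => (y.eval t).natAbs) + B + M + 1)
    have hnd : ∀ y ∈ al, ¬ (p : ℤ) ∣ y.eval t := fun y hy =>
      not_dvd_G3 p _ _ (ht y hy) (Finset.le_sup (f := fun y : ℤ[X] => (y.eval t).natAbs) hy) (by omega)
    refine ⟨B, d, p, c, t, hdp, by omega, by omega, hnew, hc1, hpp, by omega, by omega,
      fun y hy => hnd y (hys' y hy), fun f hf => hnd _ (hP' f hf), ?_⟩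
    obtain ⟨y, hy, hA⟩ := hcase
    rcases (hmem y).1 hy with h1 | ⟨f, hf, rfl⟩
    · exact Or.inl ⟨y, h1, hA⟩
    · exact Or.inr (Or.inl ⟨f, hf, hA⟩)
  · have hex : ∀ y ∈ al, ∃ Dy : ℤ, Dy ≠ 0 ∧ ∀ z t : ℤ, z ∣ h.eval t → z ∣ y.eval t → z ∣ Dy := by
      intro y hy
      exact cop h y hh (hall y hy) (fun hA => hcase ⟨y, hy, hA⟩)
    choose! Dy hDy using hex
    have hdeg : 0 < h.natDegree := by
      have h1 : 0 < (Q h).natDegree :=
        Polynomial.natDegree_pos_iff_degree_pos.2 (Polynomial.degree_pos_of_irreducible hh)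
      have h2 : (Q h).natDegree = h.natDegree :=
        Polynomial.natDegree_map_eq_of_injective (RingHom.injective_int _) h
      rw [h2] at h1
      exact h1
    obtain ⟨p, hpp, hpgt, t, hpt⟩ := schur h hdeg (al.sup (fun y => (Dy y).natAbs) + B + M)
    have hnd : ∀ y ∈ al, ¬ (p : ℤ) ∣ y.eval t := fun y hy hdiv =>
      not_dvd_G3 p _ _ (hDy y hy).1 (Finset.le_sup (f := fun y : ℤ[X] => (Dy y).natAbs) hy) (by omega)
        ((hDy y hy).2 _ _ hpt hdiv)
    exact ⟨B, d, p, c, t, hdp, by omega, by omega, hnew, hc1, hpp, by omega, by omega,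
      fun y hy => hnd y (hys' y hy), fun f hf => hnd _ (hP' f hf), Or.inr (Or.inr hpt)⟩

end Pool.Agent.H54.SZ
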