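import Pool.Agent.H54.SZ.G3
/-! MP_0e09bd_lc (PI helper54): the sequences of the general construction. Proof: recursion with `step2` exactly as in B3.lean (`seqs`): state `(ys, N, D)`, `ys` = all
polynomials `f.comp (Zp (B l) (c l) (d l))`, `f ∈ SS l`, of the previous stages, `N ≥ p (s-1)` and `N ≥` the sum over previous stages of `(∑ deg) * d`, `D ≥ d (s-1)` and `D ≥` all degrees
`f.natDegree`, `f ∈ SS l`, `l < s`. -/
set_option autoImplicit false
namespace Pool.Agent.H54.SZ
open Polynomial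

/-- the states of the recursion -/
structure G4St where
  /-- the polynomials so far -/
  ys : Finset ℤ[X]
  /-- the bound so far -/
  N : ℕ
  /-- the bound for the exponents and the degrees -/
  D : ℕ
  hys : ∀ y ∈ ys, Irreducible (Q y)

theorem seqs2 (SS : ℕ → Finset ℤ[X]) (hS : ∀ l, Adm (SS l)) (H : ℕ → ℤ[X])
    (hH : ∀ s, Irreducible (Q (H s))) (M : ℕ → ℕ) :
    ∃ (B d p : ℕ → ℕ) (c t : ℕ → ℤ),
      (∀ l, (d l).Prime) ∧ StrictMono d ∧ (∀ l l', l < l' → ∀ f ∈ SS l, f.natDegree < d l') ∧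
      (∀ l, ∑ i ∈ Finset.range (l + 1), (∑ f ∈ SS i, f.natDegree) * d i < B l) ∧
      (∀ l, ∀ f ∈ SS l, Irreducible (Q (f.comp (Zp (B l) (c l) (d l))))) ∧
      (∀ l, ∀ p' : ℕ, p'.Prime → p' ≤ B l → ∀ f ∈ SS l, ¬ (p' : ℤ) ∣ f.eval (c l)) ∧
      (∀ l, (p l).Prime) ∧ (∀ l, B l < p l) ∧ (∀ l, p l < B (l + 1)) ∧ (∀ l, M l < p l) ∧
      (∀ l s, l ≤ s → ∀ f ∈ SS l, ¬ (p s : ℤ) ∣ (f.comp (Zp (B l) (c l) (d l))).eval (t s)) ∧
      (∀ s, (∃ l, ∃ f ∈ SS l, Associated (Q (f.comp (Zp (B l) (c l) (d l)))) (Q (H s))) ∨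
        (p s : ℤ) ∣ (H s).eval (t s)) := by
  classical
  have hstep := fun (s : ℕ) (st : G4St) =>
    step2 st.ys st.hys st.N st.D (M s) (SS s) (hS s) (H s) (hH s)
  choose fB fd fp fc ft hf1 hf2 hf3 hf4 hf5 hf6 hf7 hf8 hf9 hf10 hf11 using hstep
  -- the new polynomials, the next state
  let Y : ℕ → G4St → ℤ[X] → ℤ[X] := fun s st f => f.comp (Zp (fB s st) (fc s st) (fd s st))
  let nx : ℕ → G4St → G4St := fun s st =>
    ⟨st.ys ∪ (SS s).image (Y s st),
      max (fp s st) ((∑ f ∈ SS s, f.natDegree) * fd s st + st.N),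
      max (max st.D (fd s st)) (∑ f ∈ SS s, f.natDegree), by
      intro y hy
      rcases Finset.mem_union.1 hy with h | h
      · exact st.hys y h
      · obtain ⟨f, hf, rfl⟩ := Finset.mem_image.1 h
        exact hf4 s st f hf⟩
  let S : ℕ → G4St := fun n => Nat.rec (motive := fun _ => G4St) ⟨∅, 0, 0, by simp⟩ nx n
  have hSS : ∀ s, S (s + 1) = nx s (S s) := fun s => rfl
  have hN : ∀ s, (S (s + 1)).N =
      max (fp s (S s)) ((∑ f ∈ SS s, f.natDegree) * fd s (S s) + (S s).N) := fun s => rfl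
  have hD : ∀ s, (S (s + 1)).D =
      max (max (S s).D (fd s (S s))) (∑ f ∈ SS s, f.natDegree) := fun s => rfl
  have hys : ∀ s, (S (s + 1)).ys = (S s).ys ∪ (SS s).image (Y s (S s)) := fun s => rfl
  have hmem : ∀ s y, y ∈ (S s).ys ↔ ∃ l, l < s ∧ ∃ f ∈ SS l, Y l (S l) f = y := by
    intro s
    induction s with
    | zero =>
      intro y
      constructor
      · intro h
        exact absurd h (by simp [S])
      · rintro ⟨l, hl, -⟩
        omega
    | succ s ih =>
      intro y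
      rw [hys, Finset.mem_union, ih, Finset.mem_image]
      constructor
      · rintro (⟨l, hl, h⟩ | h)
        · exact ⟨l, by omega, h⟩
        · exact ⟨s, by omega, h⟩
      · rintro ⟨l, hl, h⟩
        rcases Nat.lt_succ_iff_lt_or_eq.1 hl with h2 | h2
        · exact Or.inl ⟨l, h2, h⟩
        · subst h2
          exact Or.inr h
  have hDmono : Monotone (fun s => (S s).D) := by
    apply monotone_nat_of_le_succ
    intro s
    rw [hD]
    exact le_trans (le_max_left _ _) (le_max_left _ _)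
  have hsum : ∀ s, ∑ i ∈ Finset.range s, (∑ f ∈ SS i, f.natDegree) * fd i (S i) ≤ (S s).N := by
    intro s
    induction s with
    | zero => simp
    | succ s ih =>
      rw [Finset.sum_range_succ, hN]
      refine le_trans ?_ (le_max_right _ _)
      rw [add_comm]
      exact Nat.add_le_add_left ih _
  refine ⟨fun s => fB s (S s), fun s => fd s (S s), fun s => fp s (S s), fun s => fc s (S s),
    fun s => ft s (S s), fun l => hf1 l (S l), ?_, ?_, ?_, fun l => hf4 l (S l),
    fun l => hf5 l (S l), fun l => hf6 l (S l), fun l => hf7 l (S l), ?_, fun l => hf8 l (S l),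
    ?_, ?_⟩
  · apply strictMono_nat_of_lt_succ
    intro s
    have h1 := hf2 (s + 1) (S (s + 1))
    have h2 : fd s (S s) ≤ (S (s + 1)).D := by
      rw [hD]
      exact le_trans (le_max_right _ _) (le_max_left _ _)
    exact lt_of_le_of_lt h2 h1
  · intro l l' hl f hf
    have h1 : f.natDegree ≤ ∑ g ∈ SS l, g.natDegree :=
      Finset.single_le_sum (f := fun g : ℤ[X] => g.natDegree) (fun _ _ => Nat.zero_le _) hf
    have h2 : (∑ g ∈ SS l, g.natDegree) ≤ (S (l + 1)).D := by
      rw [hD]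
      exact le_max_right _ _
    have h3 : (S (l + 1)).D ≤ (S l').D := hDmono hl
    exact lt_of_le_of_lt (le_trans h1 (le_trans h2 h3)) (hf2 l' (S l'))
  · intro l
    rw [Finset.sum_range_succ]
    have h1 := hsum l
    have h2 := hf3 l (S l)
    show (∑ i ∈ Finset.range l, (∑ f ∈ SS i, f.natDegree) * fd i (S i)) +
      (∑ f ∈ SS l, f.natDegree) * fd l (S l) < fB l (S l)
    omega
  · intro l
    have h1 : fp l (S l) ≤ (S (l + 1)).N := by
      rw [hN]
      exact le_max_left _ _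
    have h2 := hf3 (l + 1) (S (l + 1))
    show fp l (S l) < fB (l + 1) (S (l + 1))
    exact lt_of_le_of_lt (le_trans h1 (Nat.le_add_left _ _)) h2
  · intro l s hl f hf
    rcases Nat.lt_or_eq_of_le hl with h | h
    · exact hf9 s (S s) _ ((hmem s _).2 ⟨l, h, f, hf, rfl⟩)
    · subst h
      exact hf10 l (S l) f hf
  · intro s
    rcases hf11 s (S s) with ⟨y, hy, hass⟩ | ⟨f, hf, hass⟩ | h
    · obtain ⟨l, -, f, hf, rfl⟩ := (hmem s y).1 hy
      exact Or.inl ⟨l, f, hf, hass⟩
    · exact Or.inl ⟨s, f, hf, hass⟩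
    · exact Or.inr h

end Pool.Agent.H54.SZ
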