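import Pool.Agent.H54.SZ.G4
/-! MP_0e09bd_lc (PI helper54): the data of the general construction. Proof: `seqs2` with `(H s, M s)` a surjection onto (h with `Irreducible (Q h)`) × bounds
(see B4.lean). `B`, `p` are increasing: `B 0 < p 0 < B 1 < p 1 < ...`. For a prime `p0`, a residue `r p0` with: for all `l`, `f ∈ SS l`, `p0` does not divide
`(f.comp (Zp (B l) (c l) (d l))).eval (r p0)`; and `r (p s) = t s`. (i) If `p0 ≤ B l`: `p0 ∣ (B l)!`, so the value is `≡ f(c l)` mod `p0` for every `r`, fine. (ii) If `p0 = p s`: `r = t s`; stages `l ≤ s` by the property of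
`t s`, stages `l > s` have `p s < B l`, (i). (iii) Otherwise let `L` = the number of `l` with `B l < p0` (they are `l < L`); if `L = 0` take `r = 0`. The product over `l < L`, `f ∈ SS l` of the polynomials
`(f.comp (Zp ...)).map (Int.castRingHom (ZMod p0))` is nonzero (each factor: `f` is primitive, so `f` mod `p0` is not zero; `Zp` mod `p0` has degree `d l > 0` since `p0` does not divide `(B l)!`;
`Polynomial.comp_eq_zero_iff` / natDegree_comp), of degree at most `∑ (∑ deg) d < B (L-1) < p0`, so it has a non root in `ZMod p0` (`Polynomial.card_roots'`, or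
`Polynomial.exists_eval_ne_zero_of_natDegree_lt_card`). Define `r` by `Classical.choose` over primes. The last statement: given `h`, `N` take `s` with `H s = h`, `M s = N`. -/
set_option autoImplicit false
namespace Pool.Agent.H54.SZ
open Polynomial

private theorem G5_small (f : ℤ[X]) (B : ℕ) (c : ℤ) (d p : ℕ) (hp : p.Prime) (hpB : p ≤ B)
    (h : ¬ (p : ℤ) ∣ f.eval c) (ρ : ℤ) : ¬ (p : ℤ) ∣ (f.comp (Zp B c d)).eval ρ := by
  intro hdiv
  apply h
  rw [Polynomial.eval_comp] at hdiv
  have h1 : (Zp B c d).eval ρ - c ∣ f.eval ((Zp B c d).eval ρ) - f.eval c := Polynomial.sub_dvd_eval_sub _ _ _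
  have h2 : (p : ℤ) ∣ (Zp B c d).eval ρ - c := by
    have e : (Zp B c d).eval ρ - c = (B.factorial : ℤ) * ρ ^ d := by
      simp [Zp]
    rw [e]
    apply Dvd.dvd.mul_right
    exact_mod_cast (Nat.Prime.dvd_factorial hp).mpr hpB
  have h3 := dvd_sub hdiv (h2.trans h1)
  simpa using h3

private theorem G5_deg (f : ℤ[X]) (B : ℕ) (c : ℤ) (d : ℕ) :
    (f.comp (Zp B c d)).natDegree ≤ f.natDegree * d := by
  refine Polynomial.natDegree_comp_le.trans (Nat.mul_le_mul_left _ ?_)
  unfold Zp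
  refine (Polynomial.natDegree_add_le _ _).trans (max_le ?_ ?_)
  · exact Polynomial.natDegree_C_mul_X_pow_le _ _
  · simp

private theorem G5_ne (f : ℤ[X]) (hf : f.IsPrimitive) (B : ℕ) (c : ℤ) (d p : ℕ) (hd : 0 < d) (hp : p.Prime)
    (hBp : B < p) : (f.comp (Zp B c d)).map (Int.castRingHom (ZMod p)) ≠ 0 := by
  have : Fact p.Prime := ⟨hp⟩
  rw [Polynomial.map_comp]
  intro h0
  rw [Polynomial.comp_eq_zero_iff] at h0
  have hB : ((B.factorial : ℕ) : ZMod p) ≠ 0 := by
    rw [Ne, ZMod.natCast_eq_zero_iff]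
    intro h
    have := (Nat.Prime.dvd_factorial hp).mp h
    omega
  have hZ : (Zp B c d).map (Int.castRingHom (ZMod p)) = C ((B.factorial : ℕ) : ZMod p) * X ^ d + C (c : ZMod p) := by
    simp [Zp]
  rcases h0 with h0 | ⟨_, h0⟩
  · have h1 : C (p : ℤ) ∣ f := by
      rw [Polynomial.C_dvd_iff_dvd_coeff]
      intro i
      have h2 := congrArg (fun g => g.coeff i) h0
      simp only [Polynomial.coeff_map, Polynomial.coeff_zero, eq_intCast] at h2
      exact (ZMod.intCast_zmod_eq_zero_iff_dvd _ _).mp h2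
    have h3 := hf _ h1
    rw [Int.isUnit_iff] at h3
    have h4 := hp.two_le
    omega
  · rw [hZ] at h0
    have h1 := congrArg (fun g => g.coeff d) h0
    simp only [Polynomial.coeff_add, Polynomial.coeff_C_mul, Polynomial.coeff_X_pow, if_true, mul_one,
      Polynomial.coeff_C, if_neg hd.ne', add_zero] at h1
    exact hB h1

private theorem G5_root (p : ℕ) (hp : p.Prime) (L : ℕ) (SS : ℕ → Finset ℤ[X]) (g : ℕ → ℤ[X] → ℤ[X])
    (hne : ∀ l < L, ∀ f ∈ SS l, (g l f).map (Int.castRingHom (ZMod p)) ≠ 0)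
    (hdeg : ∑ l ∈ Finset.range L, ∑ f ∈ SS l, (g l f).natDegree < p) :
    ∃ ρ : ℤ, ∀ l < L, ∀ f ∈ SS l, ¬ (p : ℤ) ∣ (g l f).eval ρ := by
  have : Fact p.Prime := ⟨hp⟩
  set F : (ZMod p)[X] := ∏ l ∈ Finset.range L, ∏ f ∈ SS l, (g l f).map (Int.castRingHom (ZMod p)) with hF
  have hF0 : F ≠ 0 := by
    rw [hF, Finset.prod_ne_zero_iff]
    intro l hl
    rw [Finset.prod_ne_zero_iff]
    exact fun f hf => hne l (Finset.mem_range.mp hl) f hf
  have hFd : F.natDegree < p := by
    refine lt_of_le_of_lt ?_ hdeg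
    rw [hF]
    refine (Polynomial.natDegree_prod_le _ _).trans (Finset.sum_le_sum fun l _ => ?_)
    refine (Polynomial.natDegree_prod_le _ _).trans (Finset.sum_le_sum fun f _ => ?_)
    exact Polynomial.natDegree_map_le
  obtain ⟨x, hx⟩ := Polynomial.exists_eval_ne_zero_of_natDegree_lt_card F hF0 (by
    rw [Cardinal.mk_fintype, ZMod.card]
    exact_mod_cast hFd)
  obtain ⟨ρ, rfl⟩ := ZMod.intCast_surjective x
  refine ⟨ρ, fun l hl f hf hdiv => hx ?_⟩
  have h1 : (((g l f).eval ρ : ℤ) : ZMod p) = 0 := (ZMod.intCast_zmod_eq_zero_iff_dvd _ _).mpr hdiv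
  have h2 : ((g l f).map (Int.castRingHom (ZMod p))).eval (ρ : ZMod p) = 0 := by
    rw [← h1]
    have := Polynomial.eval_map_apply (Int.castRingHom (ZMod p)) (p := g l f) ρ
    simpa using this
  rw [hF, Polynomial.eval_prod]
  refine Finset.prod_eq_zero (Finset.mem_range.mpr hl) ?_
  rw [Polynomial.eval_prod]
  exact Finset.prod_eq_zero hf h2

theorem data2 (SS : ℕ → Finset ℤ[X]) (hS : ∀ l, Adm (SS l)) :
    ∃ (B d : ℕ → ℕ) (c r : ℕ → ℤ),
      (∀ l, (d l).Prime) ∧ StrictMono d ∧ (∀ l l', l < l' → ∀ f ∈ SS l, f.natDegree < d l') ∧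
      (∀ l, ∀ f ∈ SS l, Irreducible (Q (f.comp (Zp (B l) (c l) (d l))))) ∧
      (∀ l, ∀ f ∈ SS l, ∀ p : ℕ, p.Prime →
        ¬ (p : ℤ) ∣ (f.comp (Zp (B l) (c l) (d l))).eval (r p)) ∧
      (∀ h : ℤ[X], Irreducible (Q h) →
        (∃ l, ∃ f ∈ SS l, Associated (Q (f.comp (Zp (B l) (c l) (d l)))) (Q h)) ∨
        ∀ N : ℕ, ∃ p : ℕ, p.Prime ∧ N < p ∧ (p : ℤ) ∣ h.eval (r p)) := by
  classical
  have hne2 : Nonempty ({h : ℤ[X] // Irreducible (Q h)} × ℕ) := by
    refine ⟨⟨⟨X, ?_⟩, 0⟩⟩
    rw [Q, Polynomial.map_X]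
    exact Polynomial.irreducible_X
  have hcP : Countable ℤ[X] := by
    rw [← Cardinal.mk_le_aleph0_iff]
    refine Polynomial.cardinalMk_le_max.trans ?_
    simp
  obtain ⟨e2, he2⟩ := exists_surjective_nat ({h : ℤ[X] // Irreducible (Q h)} × ℕ)
  obtain ⟨B, d, P, c, t, hd, hdm, hdeg, hB, hirr, hc, hP, hBP, hPB, hM, hnd, hfin⟩ :=
    seqs2 SS hS (fun s => (e2 s).1.1) (fun s => (e2 s).1.2) (fun s => (e2 s).2)
  have hBmono : StrictMono B := strictMono_nat_of_lt_succ (fun s => (hBP s).trans (hPB s))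
  have hPmono : StrictMono P := strictMono_nat_of_lt_succ (fun s => (hPB s).trans (hBP (s + 1)))
  -- residues
  have key : ∀ p : ℕ, p.Prime → ∃ ρ : ℤ, (∀ l, ∀ f ∈ SS l, ¬ (p : ℤ) ∣ (f.comp (Zp (B l) (c l) (d l))).eval ρ) ∧
      ∀ s, p = P s → ρ = t s := by
    intro p hp
    by_cases h : ∃ s, p = P s
    · obtain ⟨s, rfl⟩ := h
      refine ⟨t s, ?_, fun s' hs' => by rw [hPmono.injective hs']⟩
      intro l f hf
      rcases le_or_gt l s with hls | hls
      · exact hnd l s hls f hf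
      · have h1 : P s ≤ B l := by
          have h2 : B (s + 1) ≤ B l := hBmono.monotone hls
          exact (hPB s).le.trans h2
        exact G5_small f (B l) (c l) (d l) (P s) (hP s) h1 (hc l (P s) (hP s) h1 f hf) _
    · have hex : ∃ L, p ≤ B L := ⟨p, hBmono.le_apply⟩
      set L := Nat.find hex with hL
      have hL1 : ∀ l, L ≤ l → p ≤ B l := fun l hl => (Nat.find_spec hex).trans (hBmono.monotone hl)
      have hL2 : ∀ l < L, B l < p := fun l hl => not_le.mp (Nat.find_min hex hl)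
      obtain ⟨ρ, hρ⟩ := G5_root p hp L SS (fun l f => f.comp (Zp (B l) (c l) (d l)))
        (fun l hl f hf => G5_ne f ((hS l).primitive f hf) (B l) (c l) (d l) p (hd l).pos hp (hL2 l hl)) (by
          rcases Nat.eq_zero_or_pos L with h0 | h0
          · rw [h0]
            simpa using hp.pos
          · have h1 := hB (L - 1)
            have h2 := hL2 (L - 1) (by omega)
            rw [Nat.sub_add_cancel h0] at h1
            refine lt_of_le_of_lt ?_ (h1.trans h2)
            refine Finset.sum_le_sum fun l _ => ?_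
            rw [Finset.sum_mul]
            exact Finset.sum_le_sum fun f _ => G5_deg f (B l) (c l) (d l))
      refine ⟨ρ, fun l f hf => ?_, fun s hs => absurd ⟨s, hs⟩ h⟩
      rcases lt_or_ge l L with hl | hl
      · exact hρ l hl f hf
      · exact G5_small f (B l) (c l) (d l) p hp (hL1 l hl) (hc l p hp (hL1 l hl) f hf) _
  refine ⟨B, d, c, fun p => if h : p.Prime then Classical.choose (key p h) else 0, hd, hdm, hdeg, hirr, ?_, ?_⟩
  · intro l f hf p hp
    simp only [dif_pos hp]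
    exact (Classical.choose_spec (key p hp)).1 l f hf
  · intro h hh
    by_cases hass : ∃ l, ∃ f ∈ SS l, Associated (Q (f.comp (Zp (B l) (c l) (d l)))) (Q h)
    · exact Or.inl hass
    · right
      intro N
      obtain ⟨s, hs⟩ := he2 (⟨h, hh⟩, N)
      refine ⟨P s, hP s, ?_, ?_⟩
      · have h1 := hM s
        simp only [hs] at h1
        exact h1
      · simp only [dif_pos (hP s)]
        rw [(Classical.choose_spec (key (P s) (hP s))).2 s rfl]
        have h2 := hfin s
        simp only [hs] at h2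
        exact h2.resolve_left hass

end Pool.Agent.H54.SZ
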